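import Pool.Agent.H965R2.SM_T1

set_option autoImplicit false

/-! From Gamma-weighted lower bounds to integrals over `[0,T]`, with a real exponent
(adapted from `Pool.Agent.H965R2.SM_T1`). -/

namespace Pool.Agent.Y756.T

open Finset Filter Topology MeasureTheory Pool.Agent.H306R2 Pool.Agent.H306R2.SM
open Pool.Agent.H965R2.SMT1

noncomputable section

/-- from Gamma-weighted lower bounds to `∫_0^T`, real exponent -/
theorem window_real (f : ℝ → ℝ) (hf : Continuous f) (hf0 : ∀ t, 0 ≤ f t)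
    (hA : ∃ C : ℝ, ∃ A : ℕ, ∀ t : ℝ, 0 ≤ t → f t ≤ C * (1 + t) ^ A) (c : ℝ) (hc : 0 ≤ c) (m : ℝ) (hm : 0 ≤ m)
    (h : ∀ᶠ T : ℝ in atTop, ∀ k : ℕ, Real.log T ^ 2 ≤ k → (k : ℝ) ≤ 4 * Real.log T ^ 2 →
      c * Real.log T ^ m ≤ ∫ t in Set.Ioi (0 : ℝ), om k (k / T) t * f t) :
    ∀ c' < c, ∀ᶠ T : ℝ in atTop, c' * T * Real.log T ^ m ≤ ∫ t in (0 : ℝ)..T, f t := by
  intro c' hc'
  obtain ⟨ρ, hρ1, hρ2, hρ3⟩ : ∃ ρ : ℝ, 1 / 2 < ρ ∧ ρ < 1 ∧ c' < c * ρ ^ (m + 1) := by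
    have h1 : Tendsto (fun ρ : ℝ => c * ρ ^ (m + 1)) (𝓝[<] 1) (𝓝 (c * 1 ^ (m + 1))) :=
      ((Real.continuousAt_rpow_const 1 (m + 1) (Or.inl one_ne_zero)).tendsto.const_mul c).mono_left
        nhdsWithin_le_nhds
    rw [Real.one_rpow, mul_one] at h1
    have h2 := h1.eventually_const_lt hc'
    have h3 : ∀ᶠ ρ : ℝ in 𝓝[<] 1, 1 / 2 < ρ :=
      (eventually_gt_nhds (by norm_num)).filter_mono nhdsWithin_le_nhds
    have h4 : ∀ᶠ ρ : ℝ in 𝓝[<] 1, ρ < 1 := self_mem_nhdsWithin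
    obtain ⟨ρ, ha, hb, hc⟩ := (h2.and (h3.and h4)).exists
    exact ⟨ρ, hb, hc, ha⟩
  set σ : ℝ := (1 + ρ) / 2 with hσ
  have hσ0 : 0 < σ := by linarith
  have hσ1 : σ < 1 := by linarith
  set γ := (1 / σ - 1 - Real.log (1 / σ)) / (1 / σ) with hγ
  have hv0 : 1 < 1 / σ := by rw [lt_div_iff₀ hσ0]; linarith
  have hγ0 : 0 < γ := gam_pos hv0
  obtain ⟨C, A, hCA⟩ := hA
  have hC : 0 ≤ C := by
    have := hCA 0 le_rfl
    simp only [add_zero, one_pow, mul_one] at this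
    exact (hf0 0).trans this
  obtain ⟨T0, hT0⟩ := eventually_atTop.1 h
  set κ0 := c * ρ ^ (m + 1) - c' with hκ0
  have hκ0' : 0 < κ0 := by linarith
  have hlog := Real.tendsto_log_atTop
  have e1 : ∀ᶠ T : ℝ in atTop, Real.log T ≤ T ^ (1 / 2 : ℝ) := by
    have h1 := (isLittleO_log_rpow_atTop (r := 1 / 2) (by norm_num)).bound
      (show (0 : ℝ) < 1 by norm_num)
    filter_upwards [h1, eventually_ge_atTop (1 : ℝ)] with T hT hT1
    rw [one_mul, Real.norm_of_nonneg (Real.log_nonneg hT1),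
      Real.norm_of_nonneg (Real.rpow_nonneg (by linarith) _)] at hT
    exact hT
  have e2 : ∀ ε : ℝ, 0 < ε → ∀ᶠ T : ℝ in atTop,
      Real.log (Real.log T) ≤ ε * Real.log T := by
    intro ε hε
    have h1 := hlog.eventually (Real.isLittleO_log_id_atTop.bound hε)
    filter_upwards [h1, hlog.eventually_ge_atTop 1] with T hT hT1
    simp only [id_eq] at hT
    rw [Real.norm_of_nonneg (by linarith : (0 : ℝ) ≤ Real.log T)] at hT
    exact (le_abs_self _).trans hT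
  filter_upwards [e1, e2 (1 - ρ) (by linarith), e2 (1 / 8) (by norm_num),
    hlog.eventually_ge_atTop (max 1 (2 / (1 - ρ))),
    hlog.eventually_ge_atTop ((2 * (A : ℝ) + 5) / (2 * γ)),
    eventually_ge_atTop (max 1 (max (C * 2 ^ A) (1 / κ0))),
    eventually_ge_atTop ((max 1 T0) ^ 2)] with T t1 t2 t3 t4 t5 t6 t7
  set L := Real.log T with hL
  have hL1 : 1 ≤ L := (le_max_left _ _).trans t4
  have hL0 : 0 < L := by linarith
  have hL2 : 2 / (1 - ρ) ≤ L := (le_max_right _ _).trans t4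
  have hT1 : 1 ≤ T := (le_max_left _ _).trans t6
  have hTpos : 0 < T := by linarith
  have hCT : C * 2 ^ A ≤ T := (le_max_left _ _).trans ((le_max_right _ _).trans t6)
  have hκT : 1 / κ0 ≤ T := (le_max_right _ _).trans ((le_max_right _ _).trans t6)
  set a := T / L with ha
  have ha0 : 0 < a := by positivity
  have haT : max 1 T0 ≤ a := by
    have h1 : T ^ (1 / 2 : ℝ) ≤ a := by
      rw [ha, le_div_iff₀ hL0]
      calc T ^ (1 / 2 : ℝ) * L ≤ T ^ (1 / 2 : ℝ) * T ^ (1 / 2 : ℝ) :=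
            mul_le_mul_of_nonneg_left t1 (by positivity)
        _ = T := by
            rw [← Real.rpow_add hTpos]; norm_num
    refine le_trans ?_ h1
    have h2 : (0 : ℝ) ≤ max 1 T0 := le_trans (by norm_num) (le_max_left _ _)
    have h3 : max 1 T0 = ((max 1 T0) ^ 2) ^ (1 / 2 : ℝ) := by
      rw [← Real.rpow_natCast, ← Real.rpow_mul h2]; norm_num
    rw [h3]
    exact Real.rpow_le_rpow (by positivity) t7 (by norm_num)
  have hab : ρ * T ≤ σ * T - a := by
    have h1 : a ≤ (1 - ρ) / 2 * T := by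
      rw [ha, div_le_iff₀ hL0]
      have h2 : 1 ≤ (1 - ρ) / 2 * L := by
        rw [div_le_iff₀ (by linarith)] at hL2
        linarith
      nlinarith
    rw [hσ]
    linarith
  have hab' : a ≤ σ * T := by
    have : 0 < ρ * T := by positivity
    linarith
  have hbT : σ * T ≤ T := mul_le_of_le_one_left hTpos.le hσ1.le
  set k : ℕ := ⌈2 * L ^ 2⌉₊ with hk
  have hk1 : 2 * L ^ 2 ≤ k := Nat.le_ceil _
  have hk2 : (k : ℝ) < 2 * L ^ 2 + 1 := Nat.ceil_lt_add_one (by positivity)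
  have hk3 : 1 ≤ k := by
    have h1 : 1 ≤ L ^ 2 := one_le_pow₀ hL1
    have : (1 : ℝ) ≤ k := by linarith
    exact_mod_cast this
  have hloga : Real.log a = L - Real.log L := by
    rw [ha, Real.log_div hTpos.ne' hL0.ne']
  have hlow : ∀ x ∈ Set.Ioc a (σ * T),
      c * (ρ * L) ^ m ≤ ∫ t in Set.Ioi (0 : ℝ), om k (k / x) t * f t := by
    intro x hx
    have hx0 : 0 < x := ha0.trans hx.1
    have hx1 : 1 ≤ x := ((le_max_left _ _).trans haT).trans hx.1.le
    have hlx : Real.log a ≤ Real.log x := Real.log_le_log ha0 hx.1.le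
    have hlx2 : Real.log x ≤ L := Real.log_le_log hx0 (hx.2.trans hbT)
    have hlx0 : 0 ≤ Real.log x := Real.log_nonneg hx1
    have hlx3 : ρ * L ≤ Real.log x := by rw [hloga] at hlx; linarith
    have hlx4 : 7 / 8 * L ≤ Real.log x := by rw [hloga] at hlx; linarith
    refine le_trans ?_ (hT0 x (((le_max_right _ _).trans haT).trans hx.1.le) k ?_ ?_)
    · apply mul_le_mul_of_nonneg_left _ hc
      exact Real.rpow_le_rpow (by positivity) hlx3 hm
    · have : Real.log x ^ 2 ≤ L ^ 2 := pow_le_pow_left₀ hlx0 hlx2 2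
      have h0 : 0 ≤ L ^ 2 := sq_nonneg L
      linarith
    · have : (7 / 8 * L) ^ 2 ≤ Real.log x ^ 2 := pow_le_pow_left₀ (by positivity) hlx4 2
      have h0 : (7 / 8 * L) ^ 2 = 49 / 64 * L ^ 2 := by ring
      have h1 : 1 ≤ L ^ 2 := one_le_pow₀ hL1
      linarith
  have htail : ∀ t, T < t → f t * Ph k (k * t / (σ * T)) ≤ t ^ (-2 : ℝ) := by
    intro t ht
    refine tail_bound hf0 hC hCA hσ0 hσ1 hT1 hCT hL1 ?_ hk1 ht
    rw [← hγ]
    rw [div_le_iff₀ (by positivity)] at t5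
    linarith
  have hmain := main_T hf hf0 hk3 ha0 hab' hbT (by positivity) hlow htail
  have h1 : c * (ρ * L) ^ m * (ρ * T) ≤ c * (ρ * L) ^ m * (σ * T - a) :=
    mul_le_mul_of_nonneg_left hab (by positivity)
  have h2 : c * (ρ * L) ^ m * (ρ * T) = (c * ρ ^ (m + 1)) * (T * L ^ m) := by
    rw [Real.mul_rpow (by positivity) hL0.le, Real.rpow_add (by positivity), Real.rpow_one]; ring
  have hLm : 1 ≤ L ^ m := Real.one_le_rpow hL1 hm
  have h3 : 1 / T ≤ κ0 * (T * L ^ m) := by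
    have h4 : 1 / T ≤ 1 := by rw [div_le_one hTpos]; exact hT1
    have h5 : 1 ≤ κ0 * T := by
      rw [div_le_iff₀ hκ0'] at hκT; linarith
    have h6 : κ0 * T * 1 ≤ κ0 * T * L ^ m := mul_le_mul_of_nonneg_left hLm (by positivity)
    linarith
  have h4 : c' * T * L ^ m = (c * ρ ^ (m + 1)) * (T * L ^ m) - κ0 * (T * L ^ m) := by
    rw [hκ0]; ring
  rw [h4]
  linarith

end

end Pool.Agent.Y756.T
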