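import Pool.Agent.Y756.T.Hold5
import Pool.Agent.Y756.T.WinR

set_option autoImplicit false

/-! The lower bound for the fifth moment. -/

namespace Pool.Agent.Y756.T

open Finset Filter Topology MeasureTheory Complex
open Pool.Agent.H306R2 Pool.Agent.H306R2.SM
open Pool.Agent.H223.EM hiding mw
open Pool.Agent.H133R2.EM11 (Af Cf PG_Af PG_Cf Af_norm Cf_norm z2_bound)

noncomputable section

lemma log_small (c : ℝ) (a b : ℝ) (hb : 0 < b) :
    ∀ᶠ T : ℝ in atTop, c * Real.log T ^ a ≤ T ^ b := by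
  have h := (isLittleO_log_rpow_rpow_atTop a hb).bound (c := 1 / (|c| + 1)) (by positivity)
  filter_upwards [h, eventually_gt_atTop 1] with T hT hT1
  have hL : 0 < Real.log T := Real.log_pos hT1
  rw [Real.norm_of_nonneg (by positivity), Real.norm_of_nonneg (by positivity)] at hT
  have h1 : (|c| + 1) * Real.log T ^ a ≤ T ^ b := by
    have := mul_le_mul_of_nonneg_left hT (show 0 ≤ |c| + 1 by positivity)
    rwa [← mul_assoc, mul_one_div_cancel (by positivity), one_mul] at this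
  refine le_trans (mul_le_mul_of_nonneg_right ?_ (by positivity)) h1
  linarith [le_abs_self c]

lemma dv_half_le (n : ℕ) : dv (1 / 2) n ≤ n := by
  have h := PB_dA (α := 1 / 2) (by norm_num) (J := 1) (by norm_num) n
  rw [pow_one, dA_apply] at h
  exact (le_abs_self _).trans h

theorem func5 (c1 n1 κ ν : ℝ) (hc1 : 0 < c1) (hn1 : 0 < n1) (hν : 0 < ν)
    (hc : c1 < aF (5 / 2) * ICf (1 / 2) F5 (1999 / 10000) (1 / 10000))
    (hn : aF (5 / 2) * INf (1 / 2) F5 < n1)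
    (hκ : aF (5 / 2) * ((1999 / 10000 : ℝ) ^ (5 / 4 : ℝ) / Real.Gamma (9 / 4)) ^ 5 < κ) :
    ∀ᶠ T : ℝ in atTop, ∀ k : ℕ, kr' T k →
      5 / 4 * ν * (c1 ^ 2 / n1 - ν ^ 4 * κ / 5) * Real.log T ^ (25 / 4 : ℝ) ≤
      ∫ t in Set.Ioi (0 : ℝ), om k (k / T) t * ‖riemannZeta (cl t)‖ ^ 5 := by
  obtain ⟨c', hc1', hc'⟩ := exists_between hc
  obtain ⟨n', hn', hn1'⟩ := exists_between hn
  have e52 : (1 / 2 : ℝ) + 2 = 5 / 2 := by norm_num
  have hcross := cross_lower (a := 1 / 2) (X := 7999 / 10000) (β := 1999 / 10000) (δ := 1 / 10000)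
    (by norm_num) F5_FW (by norm_num) (by norm_num) (by norm_num) (by norm_num) (by norm_num) c'
    (by rw [e52]; exact hc')
  have hnorm := norm_upper (a := 1 / 2) (X := 7999 / 10000) (by norm_num) F5_FW (by norm_num) n'
    (by rw [e52]; exact hn')
  have hA := Am5 κ hκ
  have htw := twr (2 / 10000) (by norm_num) (by norm_num)
  have hsm := small_pow (2 / 10000) (by norm_num)
  have hcc : 0 < c' - c1 := by linarith
  have l2 := log_small (5 / 4 * ν * (c1 ^ 2 / n1 - ν ^ 4 * κ / 5)) (25 / 4) (1 / 8) (by norm_num)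
  have l3 := log_small (|n'| * 2) (13 / 4) (1 / 8) (by norm_num)
  have l4 : ∀ᶠ T : ℝ in atTop, 2 ≤ (c' - c1) * Real.log T := by
    have : Tendsto (fun T : ℝ => (c' - c1) * Real.log T) atTop atTop :=
      Real.tendsto_log_atTop.const_mul_atTop hcc
    exact this.eventually_ge_atTop 2
  have l5 : ∀ᶠ T : ℝ in atTop, |n'| / (n1 - n') ≤ T := eventually_ge_atTop _
  filter_upwards [hcross, hnorm, hA, htw, hsm, l2, l3, l4, l5, eventually_gt_atTop (Real.exp 1),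
    eventually_gt_atTop 1000] with T hcross hnorm hA htw hsm l2 l3 l4 l5 hTe hT1000 k hk
  have hT : 1 < T := by linarith
  have hT0 : 0 < T := by linarith
  obtain ⟨hk1, hδ⟩ := kr_pos hTe (show kr T k from hk)
  have hL1 : 1 < Real.log T := by
    rw [Real.lt_log_iff_exp_lt hT0]; exact hTe
  have hL0 : 0 < Real.log T := by linarith
  set H := ∫ t in Set.Ioi (0 : ℝ), om k (k / T) t * ‖riemannZeta (cl t)‖ ^ 5 with hH
  by_cases hbig : T ^ (1 / 8 : ℝ) ≤ H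
  · exact l2.trans hbig
  push Not at hbig
  set N := ⌊T ^ (1999 / 10000 : ℝ)⌋₊ with hN
  set S := S5 (7999 / 10000) T with hS
  set c := c5 (1 / 2) F5 T with hcdef
  have hNT : (N : ℝ) ≤ T ^ (1999 / 10000 : ℝ) := Nat.floor_le (by positivity)
  have hN1 : 1 ≤ N := by
    rw [hN, Nat.one_le_floor_iff]
    exact Real.one_le_rpow hT.le (by norm_num)
  have hSA : ∀ b ∈ S, AdH (2 / 10000) T N b := by
    intro b hb
    obtain ⟨h1, h2, h3, h4⟩ := S5_prop hb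
    refine ⟨h1, h2, h3, ?_⟩
    calc (b.1 : ℝ) * b.2 * N ≤ T ^ (7999 / 10000 : ℝ) * T ^ (1999 / 10000 : ℝ) := by gcongr
      _ = T ^ (1 - 2 / 10000 : ℝ) := by rw [← Real.rpow_add hT0]; norm_num
  have hMU : ∑ n ∈ Icc 1 N, |dv (1 / 2) n / Real.sqrt n| ≤ T ^ (2 / 5 : ℝ) := by
    have h6 : ∀ n ∈ Icc 1 N, |dv (1 / 2) n / Real.sqrt n| ≤ N := by
      intro n hn
      rw [mem_Icc] at hn
      have hn1 : (1 : ℝ) ≤ n := by exact_mod_cast hn.1
      have hnN : (n : ℝ) ≤ N := by exact_mod_cast hn.2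
      have hd := dv_nonneg (show (0 : ℝ) ≤ 1 / 2 by norm_num) n
      have hs : 1 ≤ Real.sqrt n := by rw [Real.one_le_sqrt]; exact hn1
      rw [abs_of_nonneg (div_nonneg hd (Real.sqrt_nonneg _))]
      exact (div_le_self hd hs).trans ((dv_half_le n).trans hnN)
    refine (sum_le_card_nsmul _ _ _ h6).trans ?_
    rw [nsmul_eq_mul, Nat.card_Icc, Nat.add_sub_cancel]
    calc (N : ℝ) * N ≤ T ^ (1999 / 10000 : ℝ) * T ^ (1999 / 10000 : ℝ) := by gcongr
      _ = T ^ (3998 / 10000 : ℝ) := by rw [← Real.rpow_add hT0]; norm_num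
      _ ≤ T ^ (2 / 5 : ℝ) := Real.rpow_le_rpow_of_exponent_le hT.le (by norm_num)
  have hMUT : T ^ (2 / 5 : ℝ) ≤ T := by
    conv_rhs => rw [← Real.rpow_one T]
    exact Real.rpow_le_rpow_of_exponent_le hT.le (by norm_num)
  have htw' := htw k hk N hN1 (dv (1 / 2)) S hSA c (T ^ (2 / 5 : ℝ)) hMU hMUT
  have hcr := hcross k hk
  have hm4 : ∑ i, m4 (1 / 2) i + 1 = (19 / 4 : ℝ) := by
    rw [Fin.sum_univ_four]
    show ((1 / 2 : ℝ) + 1) + (1 / 2 + 1) * (1 / 2) + 1 + 1 / 2 + 1 = 19 / 4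
    norm_num
  rw [hm4] at hcr
  rw [show ((1 / 2 : ℝ) + 1) ^ 2 + 1 = 13 / 4 by norm_num] at hnorm
  have hAk := hA k hk
  have hC := int_C (ε := 2 / 10000) (by norm_num) hT k hδ (hsm k hk) hN1 S hSA c
  set Q := ∑ b ∈ S, c b ^ 2 with hQ
  have hQ0 : 0 ≤ Q := sum_nonneg fun _ _ => sq_nonneg _
  set W := ∫ t in Set.Ioi (0 : ℝ), (om k (k / T) t : ℂ) * (riemannZeta (cl t) ^ 2 * Xf (cl t)) *
        Af N (dv (1 / 2)) t * Cf S c t with hW
  set Nn := ∫ t in Set.Ioi (0 : ℝ), om k (k / T) t * ‖Cf S c t‖ ^ 2 with hNn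
  set K := ∫ t in Set.Ioi (0 : ℝ), om k (k / T) t * ‖Af N (dv (1 / 2)) t‖ ^ 10 with hK
  set P := Real.log T ^ (19 / 4 : ℝ) with hP
  set q := Real.log T ^ (13 / 4 : ℝ) with hq
  set R := Real.log T ^ (25 / 4 : ℝ) with hR
  have hPq : P ^ 2 = q * R := by
    rw [hP, hq, hR, ← Real.rpow_natCast, ← Real.rpow_mul hL0.le, ← Real.rpow_add hL0]
    norm_num
  have hq1 : 1 ≤ q := Real.one_le_rpow hL1.le (by norm_num)
  have hP1 : Real.log T ≤ P := by
    conv_lhs => rw [← Real.rpow_one (Real.log T)]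
    exact Real.rpow_le_rpow_of_exponent_le hL1.le (by norm_num)
  have hR0 : 0 < R := by positivity
  have hq0 : 0 < q := by positivity
  have hT3 : T ^ (-3 : ℝ) ≤ T ^ (-1 : ℝ) :=
    Real.rpow_le_rpow_of_exponent_le hT.le (by norm_num)
  have hTm1 : T ^ (-1 : ℝ) * T = 1 := by
    rw [← Real.rpow_add_one hT0.ne']; norm_num
  have hTm1' : T ^ (-1 : ℝ) ≤ 1 := Real.rpow_le_one_of_one_le_of_nonpos hT.le (by norm_num)
  have hTm10 : 0 < T ^ (-1 : ℝ) := by positivity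
  have hTm30 : 0 < T ^ (-3 : ℝ) := by positivity
  -- the norm
  have hn'0 : 0 ≤ n' := by
    have : 0 ≤ n' * q := hQ0.trans hnorm
    by_contra h
    push Not at h
    nlinarith
  rw [abs_of_nonneg hn'0] at l3 l5
  have hNn1 : Nn ≤ n1 * q := by
    have h1 : T ^ (-1 : ℝ) * n' ≤ n1 - n' := by
      have hd : 0 < n1 - n' := by linarith
      rw [div_le_iff₀ hd] at l5
      calc T ^ (-1 : ℝ) * n' ≤ T ^ (-1 : ℝ) * (T * (n1 - n')) :=
            mul_le_mul_of_nonneg_left l5 hTm10.le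
        _ = T ^ (-1 : ℝ) * T * (n1 - n') := by ring
        _ = n1 - n' := by rw [hTm1, one_mul]
    calc Nn ≤ (1 + T ^ (-3 : ℝ)) * Q := hC
      _ ≤ (1 + T ^ (-1 : ℝ)) * (n' * q) := by
          apply mul_le_mul (by linarith) hnorm hQ0 (by positivity)
      _ = (n' + T ^ (-1 : ℝ) * n') * q := by ring
      _ ≤ n1 * q := by
          apply mul_le_mul_of_nonneg_right _ hq0.le
          linarith
  have hNn0 : 0 ≤ Nn := setIntegral_nonneg measurableSet_Ioi fun t ht =>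
    mul_nonneg (om_nonneg k hδ (le_of_lt ht)) (by positivity)
  have hNn2 : Nn ≤ T ^ (1 / 8 : ℝ) := by
    calc Nn ≤ (1 + T ^ (-3 : ℝ)) * Q := hC
      _ ≤ 2 * (n' * q) := by
          apply mul_le_mul (by linarith) hnorm hQ0 (by norm_num)
      _ = n' * 2 * q := by ring
      _ ≤ _ := l3
  have hT18 : 1 ≤ T ^ (1 / 8 : ℝ) := Real.one_le_rpow hT.le (by norm_num)
  -- the error
  have herr : T ^ (2 / 5 : ℝ) * (T ^ (-(3 / 4) : ℝ) * ∫ t in Set.Ioi (0 : ℝ), om k (k / T) t *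
        (‖riemannZeta (cl t)‖ ^ 2 * ‖Cf S c t‖)) + T ^ (-3 : ℝ) * (1 + Q) ≤ 2 := by
    have h1 := err_int (k := k) hδ (PG_Cf S c)
    have h2 : ∫ t in Set.Ioi (0 : ℝ), om k (k / T) t * (‖riemannZeta (cl t)‖ ^ 2 * ‖Cf S c t‖) ≤
        3 * T ^ (1 / 8 : ℝ) := by
      refine h1.trans ?_
      linarith
    have h3 : T ^ (2 / 5 : ℝ) * (T ^ (-(3 / 4) : ℝ) * ∫ t in Set.Ioi (0 : ℝ), om k (k / T) t *
        (‖riemannZeta (cl t)‖ ^ 2 * ‖Cf S c t‖)) ≤ 3 * T ^ (-(9 / 40) : ℝ) := by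
      calc _ ≤ T ^ (2 / 5 : ℝ) * (T ^ (-(3 / 4) : ℝ) * (3 * T ^ (1 / 8 : ℝ))) := by gcongr
        _ = 3 * (T ^ (2 / 5 : ℝ) * T ^ (-(3 / 4) : ℝ) * T ^ (1 / 8 : ℝ)) := by ring
        _ = 3 * T ^ (-(9 / 40) : ℝ) := by
            rw [← Real.rpow_add hT0, ← Real.rpow_add hT0]; norm_num
    have h4 : T ^ (-(9 / 40) : ℝ) ≤ 1 / 3 := by
      have h5 : (1000 : ℝ) ^ (9 / 40 : ℝ) ≤ T ^ (9 / 40 : ℝ) :=
        Real.rpow_le_rpow (by norm_num) hT1000.le (by norm_num)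
      have h6 : (3 : ℝ) ≤ (1000 : ℝ) ^ (9 / 40 : ℝ) := by
        have e : (3 : ℝ) = (3 ^ (40 / 9 : ℝ)) ^ (9 / 40 : ℝ) := by
          rw [← Real.rpow_mul (by norm_num)]; norm_num
        rw [e]
        apply Real.rpow_le_rpow (by positivity) _ (by norm_num)
        calc (3 : ℝ) ^ (40 / 9 : ℝ) ≤ 3 ^ (5 : ℝ) :=
              Real.rpow_le_rpow_of_exponent_le (by norm_num) (by norm_num)
          _ ≤ 1000 := by
              rw [show (5 : ℝ) = ((5 : ℕ) : ℝ) by norm_num, Real.rpow_natCast]; norm_num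
      rw [Real.rpow_neg hT0.le, ← one_div]
      exact one_div_le_one_div_of_le (by norm_num) (h6.trans h5)
    have h5 : T ^ (-3 : ℝ) * (1 + Q) ≤ 1 := by
      have h6 : 1 + Q ≤ T := by
        have h7 : Q ≤ T ^ (1 / 8 : ℝ) := by
          calc Q ≤ n' * q := hnorm
            _ ≤ n' * 2 * q := by nlinarith
            _ ≤ _ := l3
        have h8 : 1 + T ^ (1 / 8 : ℝ) ≤ T := by
          have h9 : T ^ (1 / 8 : ℝ) ≤ T ^ (1 / 2 : ℝ) :=
            Real.rpow_le_rpow_of_exponent_le hT.le (by norm_num)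
          have h10 : T ^ (1 / 2 : ℝ) * T ^ (1 / 2 : ℝ) = T := by
            rw [← Real.rpow_add hT0]; norm_num
          have h11 : 2 ≤ T ^ (1 / 2 : ℝ) := by
            rw [← Real.sqrt_eq_rpow]
            apply Real.le_sqrt_of_sq_le
            linarith
          nlinarith
        linarith
      calc T ^ (-3 : ℝ) * (1 + Q) ≤ T ^ (-1 : ℝ) * T := by gcongr
        _ = 1 := hTm1
    linarith
  have hWlow : c1 * P ≤ ‖W‖ := by
    have h1 : ‖((Ms k (Yf k T) N (dv (1 / 2)) S c : ℝ) : ℂ)‖ ≤ ‖W‖ + 2 := by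
      have h2 := htw'.trans herr
      calc ‖((Ms k (Yf k T) N (dv (1 / 2)) S c : ℝ) : ℂ)‖ =
          ‖W - (W - ((Ms k (Yf k T) N (dv (1 / 2)) S c : ℝ) : ℂ))‖ := by
            congr 1; ring
        _ ≤ ‖W‖ + ‖W - ((Ms k (Yf k T) N (dv (1 / 2)) S c : ℝ) : ℂ)‖ := norm_sub_le _ _
        _ ≤ ‖W‖ + 2 := by linarith
    rw [Complex.norm_real] at h1
    have h3 := le_trans (Real.le_norm_self _) h1
    have h4 : c' * P ≤ ‖W‖ + 2 := hcr.trans h3
    have h5 : 2 ≤ (c' - c1) * P := l4.trans (mul_le_mul_of_nonneg_left hP1 hcc.le)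
    linarith
  have hho := hold5 hδ (PG_Af N (dv (1 / 2))) (PG_Cf S c) hν (k := k)
  have hH0 : 0 ≤ H := setIntegral_nonneg measurableSet_Ioi fun t ht =>
    mul_nonneg (om_nonneg k hδ (le_of_lt ht)) (by positivity)
  have hK0 : 0 ≤ K := setIntegral_nonneg measurableSet_Ioi fun t ht =>
    mul_nonneg (om_nonneg k hδ (le_of_lt ht)) (by positivity)
  have hfin : (c1 * P) ^ 2 ≤ ((4 * ν⁻¹ * H + ν ^ 4 * (κ * R)) / 5) * (n1 * q) := by
    refine (pow_le_pow_left₀ (by positivity) hWlow 2).trans (hho.trans ?_)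
    apply mul_le_mul _ hNn1 hNn0 _
    · have : ν ^ 4 * K ≤ ν ^ 4 * (κ * R) := mul_le_mul_of_nonneg_left hAk (by positivity)
      change (4 * ν⁻¹ * H + ν ^ 4 * K) / 5 ≤ _
      linarith
    · have : 0 ≤ ν ^ 4 * (κ * R) := by
        have := hK0.trans hAk
        positivity
      positivity
  have h7 : c1 ^ 2 * R ≤ ((4 * ν⁻¹ * H + ν ^ 4 * (κ * R)) / 5) * n1 := by
    have h8 : (c1 * P) ^ 2 = (c1 ^ 2 * R) * q := by rw [mul_pow, hPq]; ring
    rw [h8] at hfin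
    have h9 : (c1 ^ 2 * R) * q ≤ (((4 * ν⁻¹ * H + ν ^ 4 * (κ * R)) / 5) * n1) * q := by
      linarith
    exact le_of_mul_le_mul_right h9 hq0
  have h10 : c1 ^ 2 / n1 * R ≤ (4 * ν⁻¹ * H + ν ^ 4 * (κ * R)) / 5 := by
    rw [div_mul_eq_mul_div, div_le_iff₀ hn1]
    exact h7
  have h11 : 5 / 4 * ν * ((4 * ν⁻¹ * H + ν ^ 4 * (κ * R)) / 5) = H + 5 / 4 * ν * (ν ^ 4 * κ / 5) * R := by
    field_simp
  have h12 := mul_le_mul_of_nonneg_left h10 (show 0 ≤ 5 / 4 * ν by positivity)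
  rw [h11] at h12
  calc 5 / 4 * ν * (c1 ^ 2 / n1 - ν ^ 4 * κ / 5) * R =
      5 / 4 * ν * (c1 ^ 2 / n1 * R) - 5 / 4 * ν * (ν ^ 4 * κ / 5) * R := by ring
    _ ≤ H := by linarith

end
end Pool.Agent.Y756.T
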