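import Pool.Agent.Y756.T.IntB

set_option autoImplicit false

/-! The two limit constants in the case `k = 5`. -/

namespace Pool.Agent.Y756.T

open Finset Filter Topology MeasureTheory Pool.Agent.H306R2
open Pool.Agent.TH535 (posI GdI GdI_nonneg int_able)
open scoped ENNReal

noncomputable section

/-- rational constant of the cross term -/
def Q5 : ℝ := 11 / 1000 + 2 / 3 * (58 / 1000) * (1998 / 10000) +
  20 / 39 * (24 / 1000) * (1998 / 10000) ^ 2

lemma GdI_meas {n : ℕ} (m : Fin n → ℝ) : Measurable (fun u : Fin n → ℝ => GdI m u) := by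
  unfold GdI
  exact Finset.measurable_prod _ fun i _ => (gd_meas (m i)).comp (measurable_pi_apply i)

lemma blev (b : ℝ) :
    ENNReal.ofReal ((Real.Gamma (3 / 2))⁻¹ * (11 / 1000 * (gd (3 / 4) b *
        (max (1998 / 10000 - b) 0) ^ (1 / 2 : ℝ)) +
      58 / 1000 * (gd (3 / 4) b * (max (1998 / 10000 - b) 0) ^ (3 / 2 : ℝ)) +
      24 / 1000 * (gd (3 / 4) b * (max (1998 / 10000 - b) 0) ^ (5 / 2 : ℝ)))) ≤
    ∫⁻ u, ∫⁻ y, ∫⁻ z, ENNReal.ofReal (GG5 u b y z) := by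
  by_cases hb : 0 < b
  · by_cases hb1 : b < 1998 / 10000
    · refine le_trans ?_ (ulev hb hb1)
      refine ENNReal.ofReal_le_ofReal ?_
      obtain ⟨r, hr⟩ : ∃ r : ℝ, r = 1998 / 10000 - b := ⟨_, rfl⟩
      have hr0 : 0 < r := by rw [hr]; linarith
      have hr1 : r ≤ 1998 / 10000 := by rw [hr]; linarith
      have hG := Real.Gamma_pos_of_pos (show (0 : ℝ) < 3 / 2 by norm_num)
      have hgd := gd_nonneg (m := 3 / 4) (by norm_num) b
      rw [← hr, max_eq_left hr0.le, show (7998 / 10000 - b : ℝ) = 6 / 10 + r by rw [hr]; ring,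
        show b - r / 3 = 1998 / 10000 - 4 / 3 * r by rw [hr]; ring]
      have e1 : r ^ (3 / 2 : ℝ) = r ^ (1 / 2 : ℝ) * r := by
        rw [show (3 / 2 : ℝ) = 1 / 2 + 1 by norm_num, Real.rpow_add_one hr0.ne']
      have e2 : r ^ (5 / 2 : ℝ) = r ^ (1 / 2 : ℝ) * r ^ 2 := by
        rw [show (5 / 2 : ℝ) = 1 / 2 + (2 : ℕ) by norm_num, Real.rpow_add hr0, Real.rpow_natCast]
      rw [e1, e2]
      have hsp : 0 < Real.sqrt Real.pi := Real.sqrt_pos.mpr Real.pi_pos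
      have hpi : Real.sqrt Real.pi ≤ 177246 / 100000 := by
        rw [Real.sqrt_le_left (by norm_num)]
        have := Real.pi_lt_d4
        norm_num at this ⊢
        linarith
      have h1 := poly_low hr0.le hr1
      have h2 := sqrt_low hr0.le hr1
      set P := (((2002 / 10000) ^ 2 * (2002 / 10000 + (1998 / 10000 - 4 / 3 * r))) * (8 / 15) *
        (6 / 10 + r) +
       ((2002 / 10000) * (2 * (2002 / 10000) + 3 / 2 * (1998 / 10000 - 4 / 3 * r))) * (32 / 105) *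
         (6 / 10 + r) ^ 2 +
       (4 / 3 * (2002 / 10000) + 1 / 2 * (1998 / 10000 - 4 / 3 * r)) * (64 / 315) *
         (6 / 10 + r) ^ 3 +
       1 / 3 * (512 / 3465) * (6 / 10 + r) ^ 4) with hP
      have hP0 : 0 ≤ P := by
        have q1 : 0 ≤ 2002 / 10000 + (1998 / 10000 - 4 / 3 * r) := by linarith
        have q2 : 0 ≤ 2 * (2002 / 10000) + 3 / 2 * (1998 / 10000 - 4 / 3 * r) := by linarith
        have q3 : 0 ≤ 4 / 3 * (2002 / 10000) + 1 / 2 * (1998 / 10000 - 4 / 3 * r) := by linarith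
        rw [hP]
        positivity
      have h3 : (11 / 1000 + 58 / 1000 * r + 24 / 1000 * r ^ 2) ≤
          (6 / 10 + r) * Real.sqrt (6 / 10 + r) * P / Real.sqrt Real.pi := by
        rw [le_div_iff₀ hsp]
        calc (11 / 1000 + 58 / 1000 * r + 24 / 1000 * r ^ 2) * Real.sqrt Real.pi
            ≤ (11 / 1000 + 58 / 1000 * r + 24 / 1000 * r ^ 2) * (177246 / 100000) :=
              mul_le_mul_of_nonneg_left hpi (by positivity)
          _ ≤ _ := h1
          _ ≤ (6 / 10 + r) * Real.sqrt (6 / 10 + r) * P := by gcongr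
      have hK : 0 ≤ gd (3 / 4) b * (r ^ (1 / 2 : ℝ) / Real.Gamma (3 / 2)) := by positivity
      calc _ = gd (3 / 4) b * (r ^ (1 / 2 : ℝ) / Real.Gamma (3 / 2)) *
            (11 / 1000 + 58 / 1000 * r + 24 / 1000 * r ^ 2) := by
            field_simp
        _ ≤ _ := mul_le_mul_of_nonneg_left h3 hK
    · rw [max_eq_right (by linarith : (1998 / 10000 - b : ℝ) ≤ 0), Real.zero_rpow (by norm_num),
        Real.zero_rpow (by norm_num), Real.zero_rpow (by norm_num)]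
      simp
  · have : gd (3 / 4) b = 0 := by unfold gd; rw [if_neg hb]
    rw [this]
    simp

lemma m4_pos : ∀ i, 0 < m4 (1 / 2) i := by
  intro i; fin_cases i
  · show (0 : ℝ) < 1 / 2 + 1; norm_num
  · show (0 : ℝ) < (1 / 2 + 1) * (1 / 2); norm_num
  · show (0 : ℝ) < 1; norm_num
  · show (0 : ℝ) < 1 / 2; norm_num

theorem IC_low : (1998 / 10000 : ℝ) ^ (5 / 4 : ℝ) / Real.Gamma (9 / 4) * Q5 ≤
    ICf (1 / 2) F5 (1999 / 10000) (1 / 10000) := by
  have hnn : ∀ u : Fin 4 → ℝ, 0 ≤ GdI (m4 (1 / 2)) u * q1 F5 (1999 / 10000) (1 / 10000) u :=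
    fun u => G_nonneg F5_FW (by norm_num) (by norm_num) u
  have hint : Integrable (fun u : Fin 4 → ℝ =>
      GdI (m4 (1 / 2)) u * q1 F5 (1999 / 10000) (1 / 10000) u) := by
    refine int_able m4_pos _ (q1_cont F5_FW _ _) 1 ?_ (by norm_num)
    intro u hu hi
    unfold q1
    rw [q_zero F5_FW (by norm_num) (by norm_num) (by norm_num) u hu hi, zero_mul]
  have h1 := ofReal_integral_eq_lintegral_ofReal hint (Eventually.of_forall hnn)
  change ENNReal.ofReal (ICf (1 / 2) F5 (1999 / 10000) (1 / 10000)) = _ at h1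
  have hmeas : Measurable (fun u : Fin 4 → ℝ => ENNReal.ofReal
      (GdI (m4 (1 / 2)) u * q1 F5 (1999 / 10000) (1 / 10000) u)) :=
    ((GdI_meas _).mul (q1_cont F5_FW _ _).measurable).ennreal_ofReal
  rw [fub4 _ hmeas] at h1
  have hIC0 : 0 ≤ ICf (1 / 2) F5 (1999 / 10000) (1 / 10000) := integral_nonneg hnn
  rw [← ENNReal.ofReal_le_ofReal_iff hIC0, h1]
  refine le_trans ?_ (lintegral_mono blev)
  obtain ⟨i1, v1⟩ := beta_int (a := 3 / 4) (b := 1 / 2) (B := 1998 / 10000) (by norm_num)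
    (by norm_num) (by norm_num)
  obtain ⟨i2, v2⟩ := beta_int (a := 3 / 4) (b := 3 / 2) (B := 1998 / 10000) (by norm_num)
    (by norm_num) (by norm_num)
  obtain ⟨i3, v3⟩ := beta_int (a := 3 / 4) (b := 5 / 2) (B := 1998 / 10000) (by norm_num)
    (by norm_num) (by norm_num)
  have k1 : Integrable (fun b => 11 / 1000 * (gd (3 / 4) b *
        (max (1998 / 10000 - b) 0) ^ (1 / 2 : ℝ))) := i1.const_mul _
  have k2 : Integrable (fun b => 58 / 1000 * (gd (3 / 4) b *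
        (max (1998 / 10000 - b) 0) ^ (3 / 2 : ℝ))) := i2.const_mul _
  have k3 : Integrable (fun b => 24 / 1000 * (gd (3 / 4) b *
        (max (1998 / 10000 - b) 0) ^ (5 / 2 : ℝ))) := i3.const_mul _
  have k12 : Integrable (fun b => 11 / 1000 * (gd (3 / 4) b *
        (max (1998 / 10000 - b) 0) ^ (1 / 2 : ℝ)) + 58 / 1000 * (gd (3 / 4) b *
        (max (1998 / 10000 - b) 0) ^ (3 / 2 : ℝ))) := k1.add k2
  have k123 : Integrable (fun b => 11 / 1000 * (gd (3 / 4) b *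
        (max (1998 / 10000 - b) 0) ^ (1 / 2 : ℝ)) + 58 / 1000 * (gd (3 / 4) b *
        (max (1998 / 10000 - b) 0) ^ (3 / 2 : ℝ)) + 24 / 1000 * (gd (3 / 4) b *
        (max (1998 / 10000 - b) 0) ^ (5 / 2 : ℝ))) := k12.add k3
  have hG := Real.Gamma_pos_of_pos (show (0 : ℝ) < 3 / 2 by norm_num)
  have hG9 := Real.Gamma_pos_of_pos (show (0 : ℝ) < 9 / 4 by norm_num)
  have hI := ofReal_integral_eq_lintegral_ofReal (k123.const_mul (Real.Gamma (3 / 2))⁻¹)
    (Eventually.of_forall fun b => by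
      have hgd := gd_nonneg (m := 3 / 4) (by norm_num) b
      show 0 ≤ (Real.Gamma (3 / 2))⁻¹ * _
      positivity)
  rw [integral_const_mul, integral_add k12 k3, integral_add k1 k2, integral_const_mul,
    integral_const_mul, integral_const_mul, v1, v2, v3] at hI
  rw [← hI]
  refine ENNReal.ofReal_le_ofReal (le_of_eq ?_)
  have g52 : Real.Gamma (3 / 2 + 1) = 3 / 2 * Real.Gamma (3 / 2) := Real.Gamma_add_one (by norm_num)
  have g72 : Real.Gamma (5 / 2 + 1) = 5 / 2 * (3 / 2 * Real.Gamma (3 / 2)) := by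
    rw [Real.Gamma_add_one (by norm_num), show (5 / 2 : ℝ) = 3 / 2 + 1 by norm_num, g52]
  have g94 : (3 / 4 : ℝ) + 1 / 2 + 1 = 9 / 4 := by norm_num
  have g134 : Real.Gamma (3 / 4 + 3 / 2 + 1) = 9 / 4 * Real.Gamma (9 / 4) := by
    rw [Real.Gamma_add_one (by norm_num), show (3 / 4 : ℝ) + 3 / 2 = 9 / 4 by norm_num]
  have g174 : Real.Gamma (3 / 4 + 5 / 2 + 1) = 13 / 4 * (9 / 4 * Real.Gamma (9 / 4)) := by
    rw [Real.Gamma_add_one (by norm_num), show (3 / 4 : ℝ) + 5 / 2 = 9 / 4 + 1 by norm_num,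
      Real.Gamma_add_one (by norm_num)]
    norm_num
  have e1 : (1998 / 10000 : ℝ) ^ (3 / 4 + 1 / 2 : ℝ) = (1998 / 10000 : ℝ) ^ (5 / 4 : ℝ) := by norm_num
  have e2 : (1998 / 10000 : ℝ) ^ (3 / 4 + 3 / 2 : ℝ) =
      (1998 / 10000 : ℝ) ^ (5 / 4 : ℝ) * (1998 / 10000) := by
    rw [show (3 / 4 + 3 / 2 : ℝ) = 5 / 4 + 1 by norm_num, Real.rpow_add_one (by norm_num)]
  have e3 : (1998 / 10000 : ℝ) ^ (3 / 4 + 5 / 2 : ℝ) =
      (1998 / 10000 : ℝ) ^ (5 / 4 : ℝ) * (1998 / 10000) ^ 2 := by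
    rw [show (3 / 4 + 5 / 2 : ℝ) = 5 / 4 + (2 : ℕ) by norm_num, Real.rpow_add (by norm_num),
      Real.rpow_natCast]
  rw [g94, g134, g174, g72, g52, e1, e2, e3, show (1 / 2 : ℝ) + 1 = 3 / 2 by norm_num]
  unfold Q5
  field_simp
  ring

/-- rational constant of the norm -/
def N5 : ℝ := (3 * (2001 / 10000) ^ 4 * (7999 / 10000) / (9 / 4 * (13 / 4)) +
  9 * (2001 / 10000) ^ 3 * (7999 / 10000) ^ 2 * 2 / (9 / 4 * (13 / 4) * (17 / 4)) +
  10 * (2001 / 10000) ^ 2 * (7999 / 10000) ^ 3 * 6 / (9 / 4 * (13 / 4) * (17 / 4) * (21 / 4)) +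
  5 * (2001 / 10000) * (7999 / 10000) ^ 4 * 24 /
    (9 / 4 * (13 / 4) * (17 / 4) * (21 / 4) * (25 / 4)) +
  (7999 / 10000) ^ 5 * 120 /
    (9 / 4 * (13 / 4) * (17 / 4) * (21 / 4) * (25 / 4) * (29 / 4))) / 3

lemma F5_sq_le {x y : ℝ} (hs : x + y ≤ 7999 / 10000) (hx : 0 ≤ x) (hy : 0 ≤ y) :
    F5 x y ^ 2 ≤ ((1 - x) * (1 - x - y)) ^ 2 := by
  unfold F5
  rw [mul_pow _ (sc _ _ _)]
  have h1 := sc_le_one (7998 / 10000) (1 / 10000) (x + y)
  have h0 := sc_nonneg (7998 / 10000) (1 / 10000) (x + y)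
  have h2 : sc (7998 / 10000) (1 / 10000) (x + y) ^ 2 ≤ 1 := by nlinarith
  have h3 : 0 ≤ ((1 - x) * (1 - x - y)) ^ 2 := sq_nonneg _
  nlinarith

lemma nlev (x : ℝ) :
    ∫⁻ y, ENNReal.ofReal (gd (9 / 4) x * gd 1 y * F5 x y ^ 2) ≤
    ENNReal.ofReal (gd (9 / 4) x * ((3 * (2001 / 10000) ^ 4 * max (7999 / 10000 - x) 0 +
      9 * (2001 / 10000) ^ 3 * (max (7999 / 10000 - x) 0) ^ 2 +
      10 * (2001 / 10000) ^ 2 * (max (7999 / 10000 - x) 0) ^ 3 +
      5 * (2001 / 10000) * (max (7999 / 10000 - x) 0) ^ 4 +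
      (max (7999 / 10000 - x) 0) ^ 5) / 3)) := by
  by_cases hx : 0 < x
  swap
  · have : gd (9 / 4) x = 0 := by unfold gd; rw [if_neg hx]
    rw [this]
    simp
  have hg := gd_nonneg (m := 9 / 4) (by norm_num) x
  by_cases hx1 : x < 7999 / 10000
  · set W := 7999 / 10000 - x with hW
    have hW0 : 0 < W := by rw [hW]; linarith
    rw [max_eq_left hW0.le]
    obtain ⟨hi, hv⟩ := y_int (A := 1 - x) (κ := 0) hW0
    have hnn : ∀ y, 0 ≤ gd (9 / 4) x * (1 - x) ^ 2 *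
        (gd 1 y * ct W y * ((1 - x - y) * (1 - x - y + 0))) := by
      intro y
      have h1 := gd_nonneg (m := 1) (by norm_num) y
      have h2 := ct_nonneg W y
      have h3 : 0 ≤ (1 - x - y) * (1 - x - y + 0) := by
        rw [add_zero]; exact mul_self_nonneg _
      positivity
    have hI := ofReal_integral_eq_lintegral_ofReal (hi.const_mul (gd (9 / 4) x * (1 - x) ^ 2))
      (Eventually.of_forall hnn)
    rw [integral_const_mul, hv] at hI
    have e : gd (9 / 4) x * ((3 * (2001 / 10000) ^ 4 * W + 9 * (2001 / 10000) ^ 3 * W ^ 2 +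
      10 * (2001 / 10000) ^ 2 * W ^ 3 + 5 * (2001 / 10000) * W ^ 4 + W ^ 5) / 3) =
      gd (9 / 4) x * (1 - x) ^ 2 * ((1 - x) * (1 - x + 0) * W - (2 * (1 - x) + 0) * (W ^ 2 / 2) +
        W ^ 3 / 3) := by
      rw [show (1 - x : ℝ) = 2001 / 10000 + W by rw [hW]; ring]
      ring
    rw [e, hI]
    refine lintegral_mono fun y => ENNReal.ofReal_le_ofReal ?_
    by_cases hy : 0 < y
    · by_cases hyW : y ≤ W
      · have h4 := F5_sq_le (x := x) (y := y) (by rw [hW] at hyW; linarith) hx.le hy.le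
        unfold ct
        rw [if_pos hyW, gd1 hy, add_zero]
        calc gd (9 / 4) x * 1 * F5 x y ^ 2 ≤ gd (9 / 4) x * 1 * ((1 - x) * (1 - x - y)) ^ 2 := by
              gcongr
          _ = _ := by ring
      · rw [F5_FW.z x y (by rw [hW] at hyW; push Not at hyW; linarith)]
        have := hnn y
        simp only [ne_eq, OfNat.ofNat_ne_zero, not_false_eq_true, zero_pow, mul_zero]
        exact this
    · have : gd 1 y = 0 := by unfold gd; rw [if_neg hy]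
      rw [this]
      simp
  · have hz : ∀ y, gd (9 / 4) x * gd 1 y * F5 x y ^ 2 = 0 := by
      intro y
      by_cases hy : 0 < y
      · rw [F5_FW.z x y (by linarith)]
        simp
      · have : gd 1 y = 0 := by unfold gd; rw [if_neg hy]
        rw [this]; simp
    simp only [hz]
    simp

theorem IN_up : INf (1 / 2) F5 ≤ (7999 / 10000 : ℝ) ^ (9 / 4 : ℝ) / Real.Gamma (9 / 4) * N5 := by
  have e94 : ((1 / 2 : ℝ) + 1) ^ 2 = 9 / 4 := by norm_num
  have hm : ∀ i, 0 < (![((1 / 2 : ℝ) + 1) ^ 2, 1] : Fin 2 → ℝ) i := by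
    intro i; fin_cases i
    · show (0 : ℝ) < (1 / 2 + 1) ^ 2; norm_num
    · show (0 : ℝ) < 1; norm_num
  have hcont : Continuous (fun u : Fin 2 → ℝ => F5 (u 0) (u 1) ^ 2) :=
    (F5_FW.vals (fun u : Fin 2 → ℝ => u 0) (fun u : Fin 2 → ℝ => u 1) (by fun_prop)
      (by fun_prop)).pow 2
  have hnn : ∀ u : Fin 2 → ℝ, 0 ≤ GdI ![((1 / 2 : ℝ) + 1) ^ 2, 1] u * F5 (u 0) (u 1) ^ 2 :=
    fun u => mul_nonneg (GdI_nonneg hm u) (sq_nonneg _)
  have hint : Integrable (fun u : Fin 2 → ℝ => GdI ![((1 / 2 : ℝ) + 1) ^ 2, 1] u *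
      F5 (u 0) (u 1) ^ 2) := by
    refine int_able hm _ hcont 1 ?_ (by norm_num)
    rintro u hu ⟨i, hi⟩
    have h0 := hu 0
    have h1 := hu 1
    rw [F5_FW.z, zero_pow (by norm_num)]
    fin_cases i
    · have : 1 ≤ u 0 := hi
      linarith
    · have : 1 ≤ u 1 := hi
      linarith
  have h1 := ofReal_integral_eq_lintegral_ofReal hint (Eventually.of_forall hnn)
  change ENNReal.ofReal (INf (1 / 2) F5) = _ at h1
  have hmeas : Measurable (fun u : Fin 2 → ℝ => ENNReal.ofReal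
      (GdI ![((1 / 2 : ℝ) + 1) ^ 2, 1] u * F5 (u 0) (u 1) ^ 2)) :=
    ((GdI_meas _).mul hcont.measurable).ennreal_ofReal
  rw [fub2 _ hmeas] at h1
  have e2 : ∀ x y : ℝ, GdI ![((1 / 2 : ℝ) + 1) ^ 2, 1] ![x, y] * F5 (![x, y] 0) (![x, y] 1) ^ 2 =
      gd (9 / 4) x * gd 1 y * F5 x y ^ 2 := by
    intro x y
    unfold GdI
    rw [Fin.prod_univ_two, e94]
    simp only [Matrix.cons_val_zero, Matrix.cons_val_one, Matrix.cons_val_fin_one]
  simp only [e2] at h1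
  have hG9 := Real.Gamma_pos_of_pos (show (0 : ℝ) < 9 / 4 by norm_num)
  have hN0 : 0 ≤ (7999 / 10000 : ℝ) ^ (9 / 4 : ℝ) / Real.Gamma (9 / 4) * N5 := by
    have : 0 ≤ N5 := by unfold N5; positivity
    positivity
  rw [← ENNReal.ofReal_le_ofReal_iff hN0, h1]
  refine le_trans (lintegral_mono nlev) ?_
  have hp : ∀ j : ℕ, 1 ≤ j → Integrable (fun u => gd (9 / 4) u * (max (7999 / 10000 - u) 0) ^ j) ∧
      ∫ u, gd (9 / 4) u * (max (7999 / 10000 - u) 0) ^ j =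
        (7999 / 10000) ^ (9 / 4 : ℝ) * (7999 / 10000) ^ j * (j.factorial : ℝ) /
          Real.Gamma (9 / 4 + j + 1) := by
    intro j hj
    have hj0 : (0 : ℝ) < j := by exact_mod_cast hj
    have h := beta_int (a := 9 / 4) (b := (j : ℝ)) (B := 7999 / 10000) (by norm_num) hj0
      (by norm_num)
    simp only [Real.rpow_natCast] at h
    refine ⟨h.1, ?_⟩
    rw [h.2, Real.Gamma_nat_eq_factorial, Real.rpow_add (by norm_num), Real.rpow_natCast]
  have h1 := hp 1 le_rfl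
  have h2 := hp 2 (by norm_num)
  have h3 := hp 3 (by norm_num)
  have h4 := hp 4 (by norm_num)
  have h5 := hp 5 (by norm_num)
  simp only [pow_one] at h1
  have k1 : Integrable (fun u => (2001 / 10000) ^ 4 * (gd (9 / 4) u * max (7999 / 10000 - u) 0)) :=
    h1.1.const_mul _
  have k2 : Integrable (fun u => 3 * (2001 / 10000) ^ 3 *
    (gd (9 / 4) u * (max (7999 / 10000 - u) 0) ^ 2)) := h2.1.const_mul _
  have k3 : Integrable (fun u => 10 / 3 * (2001 / 10000) ^ 2 *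
    (gd (9 / 4) u * (max (7999 / 10000 - u) 0) ^ 3)) := h3.1.const_mul _
  have k4 : Integrable (fun u => 5 / 3 * (2001 / 10000) *
    (gd (9 / 4) u * (max (7999 / 10000 - u) 0) ^ 4)) := h4.1.const_mul _
  have k5 : Integrable (fun u => 1 / 3 *
    (gd (9 / 4) u * (max (7999 / 10000 - u) 0) ^ 5)) := h5.1.const_mul _
  have s2 : Integrable (fun u => (2001 / 10000) ^ 4 * (gd (9 / 4) u * max (7999 / 10000 - u) 0) +
    3 * (2001 / 10000) ^ 3 * (gd (9 / 4) u * (max (7999 / 10000 - u) 0) ^ 2)) := k1.add k2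
  have s3 : Integrable (fun u => (2001 / 10000) ^ 4 * (gd (9 / 4) u * max (7999 / 10000 - u) 0) +
    3 * (2001 / 10000) ^ 3 * (gd (9 / 4) u * (max (7999 / 10000 - u) 0) ^ 2) +
    10 / 3 * (2001 / 10000) ^ 2 * (gd (9 / 4) u * (max (7999 / 10000 - u) 0) ^ 3)) := s2.add k3
  have s4 : Integrable (fun u => (2001 / 10000) ^ 4 * (gd (9 / 4) u * max (7999 / 10000 - u) 0) +
    3 * (2001 / 10000) ^ 3 * (gd (9 / 4) u * (max (7999 / 10000 - u) 0) ^ 2) +
    10 / 3 * (2001 / 10000) ^ 2 * (gd (9 / 4) u * (max (7999 / 10000 - u) 0) ^ 3) +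
    5 / 3 * (2001 / 10000) * (gd (9 / 4) u * (max (7999 / 10000 - u) 0) ^ 4)) := s3.add k4
  have s5 : Integrable (fun u => (2001 / 10000) ^ 4 * (gd (9 / 4) u * max (7999 / 10000 - u) 0) +
    3 * (2001 / 10000) ^ 3 * (gd (9 / 4) u * (max (7999 / 10000 - u) 0) ^ 2) +
    10 / 3 * (2001 / 10000) ^ 2 * (gd (9 / 4) u * (max (7999 / 10000 - u) 0) ^ 3) +
    5 / 3 * (2001 / 10000) * (gd (9 / 4) u * (max (7999 / 10000 - u) 0) ^ 4) +
    1 / 3 * (gd (9 / 4) u * (max (7999 / 10000 - u) 0) ^ 5)) := s4.add k5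
  have e : (fun x => ENNReal.ofReal (gd (9 / 4) x * ((3 * (2001 / 10000) ^ 4 * max (7999 / 10000 - x) 0 +
      9 * (2001 / 10000) ^ 3 * (max (7999 / 10000 - x) 0) ^ 2 +
      10 * (2001 / 10000) ^ 2 * (max (7999 / 10000 - x) 0) ^ 3 +
      5 * (2001 / 10000) * (max (7999 / 10000 - x) 0) ^ 4 +
      (max (7999 / 10000 - x) 0) ^ 5) / 3))) =
      fun u => ENNReal.ofReal ((2001 / 10000) ^ 4 * (gd (9 / 4) u * max (7999 / 10000 - u) 0) +
    3 * (2001 / 10000) ^ 3 * (gd (9 / 4) u * (max (7999 / 10000 - u) 0) ^ 2) +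
    10 / 3 * (2001 / 10000) ^ 2 * (gd (9 / 4) u * (max (7999 / 10000 - u) 0) ^ 3) +
    5 / 3 * (2001 / 10000) * (gd (9 / 4) u * (max (7999 / 10000 - u) 0) ^ 4) +
    1 / 3 * (gd (9 / 4) u * (max (7999 / 10000 - u) 0) ^ 5)) := by
    funext u
    congr 1
    ring
  rw [e]
  have hI := ofReal_integral_eq_lintegral_ofReal s5 (Eventually.of_forall fun u => by
    have hgd := gd_nonneg (m := 9 / 4) (by norm_num) u
    have hmx : (0 : ℝ) ≤ max (7999 / 10000 - u) 0 := le_max_right _ _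
    show 0 ≤ _ + _
    positivity)
  rw [integral_add s4 k5, integral_add s3 k4, integral_add s2 k3, integral_add k1 k2,
    integral_const_mul, integral_const_mul, integral_const_mul, integral_const_mul,
    integral_const_mul, h1.2, h2.2, h3.2, h4.2, h5.2] at hI
  rw [← hI]
  refine ENNReal.ofReal_le_ofReal (le_of_eq ?_)
  have G1 : Real.Gamma (9 / 4 + 1) = 9 / 4 * Real.Gamma (9 / 4) := Real.Gamma_add_one (by norm_num)
  have G2 : Real.Gamma (9 / 4 + (1 : ℕ) + 1) = 13 / 4 * (9 / 4 * Real.Gamma (9 / 4)) := by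
    rw [Real.Gamma_add_one (by norm_num), Nat.cast_one, G1]; norm_num
  have G3 : Real.Gamma (9 / 4 + (2 : ℕ) + 1) = 17 / 4 * (13 / 4 * (9 / 4 * Real.Gamma (9 / 4))) := by
    rw [Real.Gamma_add_one (by norm_num), show (9 / 4 : ℝ) + (2 : ℕ) = 9 / 4 + (1 : ℕ) + 1 by norm_num, G2]
    norm_num
  have G4 : Real.Gamma (9 / 4 + (3 : ℕ) + 1) =
      21 / 4 * (17 / 4 * (13 / 4 * (9 / 4 * Real.Gamma (9 / 4)))) := by
    rw [Real.Gamma_add_one (by norm_num), show (9 / 4 : ℝ) + (3 : ℕ) = 9 / 4 + (2 : ℕ) + 1 by norm_num, G3]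
    norm_num
  have G5 : Real.Gamma (9 / 4 + (4 : ℕ) + 1) =
      25 / 4 * (21 / 4 * (17 / 4 * (13 / 4 * (9 / 4 * Real.Gamma (9 / 4))))) := by
    rw [Real.Gamma_add_one (by norm_num), show (9 / 4 : ℝ) + (4 : ℕ) = 9 / 4 + (3 : ℕ) + 1 by norm_num, G4]
    norm_num
  have G6 : Real.Gamma (9 / 4 + (5 : ℕ) + 1) =
      29 / 4 * (25 / 4 * (21 / 4 * (17 / 4 * (13 / 4 * (9 / 4 * Real.Gamma (9 / 4)))))) := by
    rw [Real.Gamma_add_one (by norm_num), show (9 / 4 : ℝ) + (5 : ℕ) = 9 / 4 + (4 : ℕ) + 1 by norm_num, G5]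
    norm_num
  rw [G2, G3, G4, G5, G6]
  unfold N5
  simp only [Nat.factorial]
  push_cast
  field_simp
  ring

end
end Pool.Agent.Y756.T
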