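import Pool.Agent.Y756.T.IntC

set_option autoImplicit false

/-! Numerical evaluation in the case `k = 5`. -/

namespace Pool.Agent.Y756.T

open Finset Filter Topology MeasureTheory

noncomputable section

lemma Gamma_shift (x : ℝ) (hx : 0 < x) (n : ℕ) :
    Real.Gamma (x + n) = (∏ j ∈ range n, (x + j)) * Real.Gamma x := by
  induction n with
  | zero => simp
  | succ n ih =>
    rw [prod_range_succ, Nat.cast_succ, ← add_assoc, Real.Gamma_add_one (by positivity), ih]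
    ring

lemma Gamma_quarter_low (N : ℕ) :
    ((N.factorial : ℝ)) ^ 4 ≤ Real.Gamma (N + 1 / 4) ^ 4 * ((N : ℝ) + 1 / 4) ^ 3 := by
  have hs : (0 : ℝ) < (N : ℝ) + 1 / 4 := by positivity
  have h := Real.Gamma_mul_add_mul_le_rpow_Gamma_mul_rpow_Gamma (s := (N : ℝ) + 1 / 4)
    (t := (N : ℝ) + 1 / 4 + 1) (a := 1 / 4) (b := 3 / 4) hs (by positivity) (by norm_num)
    (by norm_num) (by norm_num)
  rw [Real.Gamma_add_one hs.ne', show 1 / 4 * ((N : ℝ) + 1 / 4) + 3 / 4 * ((N : ℝ) + 1 / 4 + 1) = N + 1 by ring,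
    Real.Gamma_nat_eq_factorial] at h
  have hG := Real.Gamma_pos_of_pos hs
  set G := Real.Gamma ((N : ℝ) + 1 / 4) with hGd
  set s := (N : ℝ) + 1 / 4 with hsd
  have h2 : ((N.factorial : ℝ)) ^ 4 ≤ (G ^ (1 / 4 : ℝ) * (s * G) ^ (3 / 4 : ℝ)) ^ 4 :=
    pow_le_pow_left₀ (by positivity) h 4
  refine h2.trans (le_of_eq ?_)
  rw [mul_pow, ← Real.rpow_natCast, ← Real.rpow_natCast, ← Real.rpow_mul hG.le,
    ← Real.rpow_mul (by positivity)]
  rw [show (1 / 4 : ℝ) * ((4 : ℕ) : ℝ) = 1 by norm_num,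
    show (3 / 4 : ℝ) * ((4 : ℕ) : ℝ) = ((3 : ℕ) : ℝ) by norm_num, Real.rpow_one, Real.rpow_natCast]
  ring

lemma Gamma29 : (1760078000000 : ℝ) ≤ Real.Gamma (29 / 4) ^ 4 := by
  have h1 := Gamma_quarter_low 30
  have h2 := Gamma_shift (29 / 4) (by norm_num) 23
  rw [show (29 / 4 : ℝ) + (23 : ℕ) = ((30 : ℕ) : ℝ) + 1 / 4 by norm_num] at h2
  rw [h2] at h1
  simp only [prod_range_succ, prod_range_zero] at h1
  have hG := Real.Gamma_pos_of_pos (show (0 : ℝ) < 29 / 4 by norm_num)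
  set G := Real.Gamma (29 / 4) with hGd
  rw [mul_pow] at h1
  have e : (((30 : ℕ).factorial : ℕ) : ℝ) = 265252859812191058636308480000000 := by
    have : (30 : ℕ).factorial = 265252859812191058636308480000000 := by decide +kernel
    rw [this]; norm_num
  rw [e] at h1
  norm_num at h1
  by_contra hlt
  push Not at hlt
  have h3 : 0 ≤ G ^ 4 := by positivity
  nlinarith

lemma Q5_low : (192169 / 10 ^ 7 : ℝ) ≤ Q5 := by unfold Q5; norm_num

lemma N5_up : N5 ≤ (866217 / 10 ^ 8 : ℝ) := by unfold N5; norm_num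

lemma N5_pos : 0 < N5 := by unfold N5; positivity

lemma Q5_pos : 0 < Q5 := by unfold Q5; positivity

/-- choice of the parameters -/
theorem params5 : ∃ p q w ν : ℝ, 0 < p ∧ 0 < q ∧ 0 < ν ∧
    p < ICf (1 / 2) F5 (1999 / 10000) (1 / 10000) ∧ INf (1 / 2) F5 < q ∧
    ((1999 / 10000 : ℝ) ^ (5 / 4 : ℝ) / Real.Gamma (9 / 4)) ^ 5 < w ∧
    337 / 100 / Real.Gamma (29 / 4) < 5 / 4 * ν * (p ^ 2 / q - ν ^ 4 * w / 5) := by
  have hg := Real.Gamma_pos_of_pos (show (0 : ℝ) < 9 / 4 by norm_num)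
  have hG := Real.Gamma_pos_of_pos (show (0 : ℝ) < 29 / 4 by norm_num)
  set g := Real.Gamma (9 / 4) with hgd
  set G := Real.Gamma (29 / 4) with hGd
  set x := (1998 / 10000 : ℝ) ^ (5 / 4 : ℝ) with hx
  set y := (1999 / 10000 : ℝ) ^ (5 / 4 : ℝ) with hy
  set z := (7999 / 10000 : ℝ) ^ (9 / 4 : ℝ) with hz
  have hx0 : 0 < x := by positivity
  have hy0 : 0 < y := by positivity
  have hz0 : 0 < z := by positivity
  have hx4 : x ^ 4 = (1998 / 10000 : ℝ) ^ 5 := by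
    rw [hx, ← Real.rpow_natCast, ← Real.rpow_mul (by norm_num), ← Real.rpow_natCast]; norm_num
  have hy4 : y ^ 4 = (1999 / 10000 : ℝ) ^ 5 := by
    rw [hy, ← Real.rpow_natCast, ← Real.rpow_mul (by norm_num), ← Real.rpow_natCast]; norm_num
  have hz4 : z ^ 4 = (7999 / 10000 : ℝ) ^ 9 := by
    rw [hz, ← Real.rpow_natCast, ← Real.rpow_mul (by norm_num), ← Real.rpow_natCast]; norm_num
  have hQ := Q5_pos
  have hN := N5_pos
  set p := x / g * Q5 * (1 - 1 / 10 ^ 6) with hp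
  set q := z / g * N5 * (1 + 1 / 10 ^ 6) with hq
  set w := (y / g) ^ 5 * (1 + 1 / 10 ^ 6) with hw
  have hp0 : 0 < p := by
    have : (0 : ℝ) < 1 - 1 / 10 ^ 6 := by norm_num
    positivity
  have hq0 : 0 < q := by positivity
  have hw0 : 0 < w := by positivity
  set s := p ^ 2 / q with hs
  have hs0 : 0 < s := by positivity
  set ν := (s / w) ^ (1 / 4 : ℝ) with hν
  have hν0 : 0 < ν := by positivity
  have hν4 : ν ^ 4 = s / w := by
    rw [hν, ← Real.rpow_natCast, ← Real.rpow_mul (by positivity)]; norm_num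
  refine ⟨p, q, w, ν, hp0, hq0, hν0, ?_, ?_, ?_, ?_⟩
  · refine lt_of_lt_of_le ?_ IC_low
    have : 0 < x / g * Q5 := by positivity
    show p < x / g * Q5
    rw [hp]
    linarith
  · refine lt_of_le_of_lt IN_up ?_
    have : 0 < z / g * N5 := by positivity
    show z / g * N5 < q
    rw [hq]
    linarith
  · have : 0 < (y / g) ^ 5 := by positivity
    show (y / g) ^ 5 < w
    rw [hw]
    linarith
  · have e1 : 5 / 4 * ν * (p ^ 2 / q - ν ^ 4 * w / 5) = ν * s := by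
      rw [hν4, ← hs]
      field_simp
      ring
    rw [e1]
    refine lt_of_pow_lt_pow_left₀ 16 (by positivity) ?_
    have e2 : (ν * s) ^ 16 = s ^ 20 / w ^ 4 := by
      rw [mul_pow, show ν ^ 16 = (ν ^ 4) ^ 4 by ring, hν4]
      field_simp
    have e3 : s ^ 20 / w ^ 4 = (x ^ 4) ^ 10 * Q5 ^ 40 * (1 - 1 / 10 ^ 6) ^ 40 /
        ((z ^ 4) ^ 5 * N5 ^ 20 * (y ^ 4) ^ 5 * (1 + 1 / 10 ^ 6) ^ 24) := by
      rw [hs, hp, hq, hw]
      field_simp
    rw [e2, e3, hx4, hy4, hz4]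
    have h29 := Gamma29
    have e4 : (337 / 100 / G) ^ 16 = (337 / 100) ^ 16 / (G ^ 4) ^ 4 := by
      rw [div_pow]; congr 1; ring
    rw [e4]
    have h1 : (337 / 100 : ℝ) ^ 16 / (G ^ 4) ^ 4 ≤ (337 / 100) ^ 16 / (1760078000000 : ℝ) ^ 4 := by
      gcongr
    have h2 : ((1998 / 10000 : ℝ) ^ 5) ^ 10 * (192169 / 10 ^ 7) ^ 40 * (1 - 1 / 10 ^ 6) ^ 40 /
        (((7999 / 10000) ^ 9) ^ 5 * (866217 / 10 ^ 8) ^ 20 * ((1999 / 10000) ^ 5) ^ 5 *
          (1 + 1 / 10 ^ 6) ^ 24) ≤ ((1998 / 10000 : ℝ) ^ 5) ^ 10 * Q5 ^ 40 * (1 - 1 / 10 ^ 6) ^ 40 /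
        (((7999 / 10000) ^ 9) ^ 5 * N5 ^ 20 * ((1999 / 10000) ^ 5) ^ 5 * (1 + 1 / 10 ^ 6) ^ 24) := by
      have q1 := Q5_low
      have q2 := N5_up
      have q3 : (0 : ℝ) ≤ 1 - 1 / 10 ^ 6 := by norm_num
      gcongr
    refine lt_of_le_of_lt h1 (lt_of_lt_of_le ?_ h2)
    rw [div_lt_div_iff₀ (by positivity) (by positivity)]
    norm_num

end
end Pool.Agent.Y756.T
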