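import Pool.Agent.Y756.T.Fun2

set_option autoImplicit false

/-! The twisted second moment of a product of a Dirichlet polynomial and a polynomial with rational
frequencies, in the hyperbolic region (adapted from `Pool.Agent.H133R2.EM_T11`). -/

namespace Pool.Agent.Y756.T

open Finset Filter Topology MeasureTheory Complex
open Pool.Agent.H306R2 Pool.Agent.H306R2.SM Pool.Agent.H223.EM
open Pool.Agent.H133R2.EM11 (Af Cf PG_Af PG_Cf Af_norm Cf_norm z2_bound)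

noncomputable section

/-- admissible twists: hyperbolic region -/
def AdH (ε T : ℝ) (N : ℕ) (b : ℕ × ℕ) : Prop :=
  1 ≤ b.1 ∧ 1 ≤ b.2 ∧ Nat.Coprime b.1 b.2 ∧ (b.1 : ℝ) * b.2 * N ≤ T ^ (1 - ε)

lemma AdH.le {ε T : ℝ} {N : ℕ} (hN : 1 ≤ N) {b : ℕ × ℕ} (hb : AdH ε T N b) :
    (b.1 : ℝ) * b.2 ≤ T ^ (1 - ε) := by
  obtain ⟨h1, h2, h3, h4⟩ := hb
  have hN' : (1 : ℝ) ≤ N := by exact_mod_cast hN
  have : 0 ≤ (b.1 : ℝ) * b.2 := by positivity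
  nlinarith

lemma pow_le_self {ε T : ℝ} (hε : 0 < ε) (hT : 1 < T) : T ^ (1 - ε) ≤ T := by
  conv_rhs => rw [← Real.rpow_one T]
  exact Real.rpow_le_rpow_of_exponent_le hT.le (by linarith)

lemma card_S {T ε : ℝ} (hε : 0 < ε) (hT : 1 < T) {N : ℕ} (hN : 1 ≤ N) (S : Finset (ℕ × ℕ))
    (hS : ∀ b ∈ S, AdH ε T N b) : (S.card : ℝ) ≤ T ^ 2 := by
  have hT0 : 0 < T := by linarith
  have hsub : S ⊆ Icc 1 ⌊T⌋₊ ×ˢ Icc 1 ⌊T⌋₊ := by
    intro b hb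
    have h5 := (hS b hb).le hN
    obtain ⟨h1, h2, -, h4⟩ := hS b hb
    have h6 := pow_le_self hε hT
    have g1 : (1 : ℝ) ≤ b.1 := by exact_mod_cast h1
    have g2 : (1 : ℝ) ≤ b.2 := by exact_mod_cast h2
    rw [mem_product, mem_Icc, mem_Icc]
    refine ⟨⟨h1, Nat.le_floor ?_⟩, ⟨h2, Nat.le_floor ?_⟩⟩ <;> nlinarith
  have h1 := card_le_card hsub
  rw [card_product, Nat.card_Icc, Nat.add_sub_cancel] at h1
  have h2 : (⌊T⌋₊ : ℝ) ≤ T := Nat.floor_le (by positivity)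
  calc (S.card : ℝ) ≤ (⌊T⌋₊ : ℝ) * ⌊T⌋₊ := by exact_mod_cast h1
    _ ≤ T * T := by gcongr
    _ = T ^ 2 := by ring

lemma sum_c_sq {T ε : ℝ} (hε : 0 < ε) (hT : 1 < T) {N : ℕ} (hN : 1 ≤ N) (S : Finset (ℕ × ℕ))
    (hS : ∀ b ∈ S, AdH ε T N b) (c : ℕ × ℕ → ℝ) :
    (∑ b ∈ S, |c b|) ^ 2 ≤ T ^ 2 * ∑ b ∈ S, c b ^ 2 := by
  have h1 := sq_sum_le_card_mul_sum_sq (s := S) (f := fun b => |c b|)
  simp only [sq_abs] at h1
  exact h1.trans (mul_le_mul_of_nonneg_right (card_S hε hT hN S hS)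
    (sum_nonneg fun b _ => sq_nonneg _))

lemma sum_c {T ε : ℝ} (hε : 0 < ε) (hT : 1 < T) {N : ℕ} (hN : 1 ≤ N) (S : Finset (ℕ × ℕ))
    (hS : ∀ b ∈ S, AdH ε T N b) (c : ℕ × ℕ → ℝ) :
    ∑ b ∈ S, |c b| ≤ T * (1 + ∑ b ∈ S, c b ^ 2) := by
  have h1 := sum_c_sq hε hT hN S hS c
  have h0 : 0 ≤ ∑ b ∈ S, |c b| := sum_nonneg fun b _ => abs_nonneg _
  have hQ : 0 ≤ ∑ b ∈ S, c b ^ 2 := sum_nonneg fun b _ => sq_nonneg _
  have hT0 : 0 < T := by linarith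
  refine abs_le_of_sq_le_sq' ?_ (by positivity) |>.2
  refine h1.trans ?_
  rw [mul_pow]
  refine mul_le_mul_of_nonneg_left ?_ (by positivity)
  nlinarith

/-- the norm of the polynomial with rational frequencies -/
lemma int_C {T ε : ℝ} (hε : 0 < ε) (hT : 1 < T) (k : ℕ) (hδ : 0 < (k : ℝ) / T)
    (hp : ((k / T) / (1 / (2 * T ^ (1 - ε)))) ^ (k + 1) ≤ T ^ (-5 : ℝ))
    {N : ℕ} (hN : 1 ≤ N) (S : Finset (ℕ × ℕ)) (hS : ∀ b ∈ S, AdH ε T N b) (c : ℕ × ℕ → ℝ) :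
    ∫ t in Set.Ioi (0 : ℝ), om k (k / T) t * ‖Cf S c t‖ ^ 2 ≤
      (1 + T ^ (-3 : ℝ)) * ∑ b ∈ S, c b ^ 2 := by
  have hT0 : 0 < T := by linarith
  have hsep : ∀ i ∈ S, ∀ j ∈ S, i ≠ j → 1 / (2 * T ^ (1 - ε)) ≤
      |(-Real.log ((i.1 : ℝ) / i.2)) - (-Real.log ((j.1 : ℝ) / j.2))| := by
    intro i hi j hj hij
    have a4 := (hS i hi).le hN
    have b4 := (hS j hj).le hN
    obtain ⟨a1, a2, a3, -⟩ := hS i hi
    obtain ⟨b1, b2, b3, -⟩ := hS j hj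
    have h := rat_sep (T ^ (1 - ε)) i.1 i.2 j.1 j.2 a1 a2 b1 b2 a3 b3 (fun h => hij h) a4 b4
    rwa [neg_sub_neg, abs_sub_comm]
  have h := norm_diag S (fun b => (c b : ℂ)) (fun b => -Real.log ((b.1 : ℝ) / b.2))
    (1 / (2 * T ^ (1 - ε))) (by positivity) hsep k (k / T) hδ
  simp only [neg_neg, Complex.norm_real, Real.norm_eq_abs, sq_abs] at h
  have h2 := (abs_le.1 h).2
  have h3 := sum_c_sq hε hT hN S hS c
  have hQ : 0 ≤ ∑ b ∈ S, c b ^ 2 := sum_nonneg fun b _ => sq_nonneg _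
  have h4 : (∑ b ∈ S, |c b|) ^ 2 * ((k / T) / (1 / (2 * T ^ (1 - ε)))) ^ (k + 1) ≤
      T ^ (-3 : ℝ) * ∑ b ∈ S, c b ^ 2 := by
    calc (∑ b ∈ S, |c b|) ^ 2 * ((k / T) / (1 / (2 * T ^ (1 - ε)))) ^ (k + 1)
        ≤ (T ^ 2 * ∑ b ∈ S, c b ^ 2) * T ^ (-5 : ℝ) := by
          apply mul_le_mul h3 hp (by positivity) (by positivity)
      _ = (T ^ 2 * T ^ (-5 : ℝ)) * ∑ b ∈ S, c b ^ 2 := by ring
      _ = _ := by
          congr 1
          rw [← Real.rpow_natCast, ← Real.rpow_add hT0]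
          norm_num
  have h5 : (fun t : ℝ => om k (k / T) t * ‖Cf S c t‖ ^ 2) = fun t : ℝ => om k (k / T) t *
      ‖∑ i ∈ S, (c i : ℂ) * ef (Real.log ((i.1 : ℝ) / i.2)) t‖ ^ 2 := rfl
  rw [h5]
  linarith

lemma D_est {T : ℝ} (hT : 1 < T) {k : ℕ} {δ : ℝ} (hδ : 0 < δ)
    (ha : ∀ t : ℝ, 0 < t → ‖(om k δ t : ℂ) * Xf (cl t) - Gf k δ (cl t)‖ ≤
        T ^ (-(3 / 4) : ℝ) * om k δ t + T ^ (-20 : ℝ) * (1 + t) ^ (-20 : ℝ))
    (u v : ℝ → ℂ) (hu : Continuous u) (hv : PG v) (MU MV : ℝ) (hMU : ∀ t, ‖u t‖ ≤ MU)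
    (hMV : ∀ t, ‖v t‖ ≤ MV) :
    IntegrableOn (fun t : ℝ => riemannZeta (cl t) ^ 2 *
      ((om k δ t : ℂ) * Xf (cl t) - Gf k δ (cl t)) * (u t * v t)) (Set.Ioi 0) ∧
    ‖∫ t in Set.Ioi (0 : ℝ), riemannZeta (cl t) ^ 2 *
      ((om k δ t : ℂ) * Xf (cl t) - Gf k δ (cl t)) * (u t * v t)‖ ≤
      MU * (T ^ (-(3 / 4) : ℝ) * ∫ t in Set.Ioi (0 : ℝ), om k δ t *
        (‖riemannZeta (cl t)‖ ^ 2 * ‖v t‖)) +
        T ^ (-20 : ℝ) * (576 * MU * MV) := by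
  have hT0 : 0 < T := by linarith
  have hMU0 : 0 ≤ MU := (norm_nonneg _).trans (hMU 0)
  have hMV0 : 0 ≤ MV := (norm_nonneg _).trans (hMV 0)
  have hcz : Continuous (fun t => riemannZeta (cl t)) := PG.zeta.1
  set D : ℝ → ℂ := fun t => riemannZeta (cl t) ^ 2 *
      ((om k δ t : ℂ) * Xf (cl t) - Gf k δ (cl t)) * (u t * v t) with hD
  have hDc : Continuous D := by
    refine ((hcz.pow 2).mul ?_).mul (hu.mul hv.1)
    exact ((continuous_ofReal.comp (om_cont k δ)).mul Xf_continuous).sub (Gf_cont k hδ)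
  set g : ℝ → ℝ := fun t => MU * (T ^ (-(3 / 4) : ℝ) * (om k δ t *
    (‖riemannZeta (cl t)‖ ^ 2 * ‖v t‖))) +
    T ^ (-20 : ℝ) * (576 * MU * MV * (1 + t) ^ (-14 : ℝ)) with hg
  have i2 : IntegrableOn (fun t => om k δ t * (‖riemannZeta (cl t)‖ ^ 2 * ‖v t‖)) (Set.Ioi 0) := by
    have := Pool.Agent.H284R2.EM.PG.intPow (f := fun t => riemannZeta (cl t) ^ 2 * v t)
      (((PG.zeta.pow 2).mul hv)) k hδ
    refine this.congr (Eventually.of_forall fun t => ?_)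
    simp only [norm_mul, norm_pow]
  have q1 : IntegrableOn (fun t : ℝ => MU * (T ^ (-(3 / 4) : ℝ) * (om k δ t *
    (‖riemannZeta (cl t)‖ ^ 2 * ‖v t‖)))) (Set.Ioi 0) := (i2.const_mul _).const_mul _
  have q2 : IntegrableOn (fun t : ℝ => T ^ (-20 : ℝ) * (576 * MU * MV * (1 + t) ^ (-14 : ℝ)))
      (Set.Ioi 0) := (tail_int.1.const_mul _).const_mul _
  have ig : IntegrableOn g (Set.Ioi 0) := q1.add q2
  have hDg : ∀ t ∈ Set.Ioi (0:ℝ), ‖D t‖ ≤ g t := by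
    intro t ht
    have ht0 : (0:ℝ) < t := ht
    have h1 := ha t ht0
    have hn := om_nonneg k hδ ht0.le
    simp only [hD, hg]
    rw [norm_mul, norm_mul, norm_mul]
    have hz := z2_bound ht0.le
    have e14 : (1 + t) ^ 4 * (1 + t) ^ (-20 : ℝ) ≤ (1 + t) ^ (-14 : ℝ) := by
      rw [← Real.rpow_natCast, ← Real.rpow_add (by linarith)]
      exact Real.rpow_le_rpow_of_exponent_le (by linarith) (by norm_num)
    calc ‖riemannZeta (cl t) ^ 2‖ * ‖(om k δ t : ℂ) * Xf (cl t) - Gf k δ (cl t)‖ *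
          (‖u t‖ * ‖v t‖)
        ≤ ‖riemannZeta (cl t) ^ 2‖ * (T ^ (-(3 / 4) : ℝ) * om k δ t +
            T ^ (-20 : ℝ) * (1 + t) ^ (-20 : ℝ)) * (MU * ‖v t‖) := by
          gcongr
          exact hMU t
      _ = MU * (T ^ (-(3 / 4) : ℝ) * (om k δ t * (‖riemannZeta (cl t)‖ ^ 2 * ‖v t‖))) +
            T ^ (-20 : ℝ) * (MU * ‖v t‖ * (‖riemannZeta (cl t) ^ 2‖ * (1 + t) ^ (-20 : ℝ))) := by
          rw [norm_pow]
          ring
      _ ≤ MU * (T ^ (-(3 / 4) : ℝ) * (om k δ t * (‖riemannZeta (cl t)‖ ^ 2 * ‖v t‖))) +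
            T ^ (-20 : ℝ) * (MU * MV * (576 * (1 + t) ^ 4 * (1 + t) ^ (-20 : ℝ))) := by
          gcongr
          exact hMV t
      _ ≤ MU * (T ^ (-(3 / 4) : ℝ) * (om k δ t * (‖riemannZeta (cl t)‖ ^ 2 * ‖v t‖))) +
            T ^ (-20 : ℝ) * (MU * MV * (576 * (1 + t) ^ (-14 : ℝ))) := by
          have : 576 * (1 + t) ^ 4 * (1 + t) ^ (-20 : ℝ) ≤ 576 * (1 + t) ^ (-14 : ℝ) := by
            rw [mul_assoc]
            gcongr
          gcongr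
      _ = _ := by ring
  have iD : IntegrableOn D (Set.Ioi 0) :=
    Integrable.mono' ig hDc.aestronglyMeasurable
      ((ae_restrict_iff' measurableSet_Ioi).mpr (Eventually.of_forall hDg))
  have hDn : ‖∫ t in Set.Ioi (0:ℝ), D t‖ ≤ ∫ t in Set.Ioi (0:ℝ), g t := by
    refine norm_integral_le_of_norm_le ig ?_
    exact (ae_restrict_iff' measurableSet_Ioi).mpr (Eventually.of_forall hDg)
  refine ⟨iD, hDn.trans ?_⟩
  simp only [hg]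
  rw [integral_add q1 q2, integral_const_mul, integral_const_mul, integral_const_mul,
    integral_const_mul]
  have h14 := tail_int.2
  have h3 : T ^ (-20 : ℝ) * (576 * MU * MV * ∫ t in Set.Ioi (0:ℝ), (1 + t) ^ (-14 : ℝ)) ≤
      T ^ (-20 : ℝ) * (576 * MU * MV * 1) := by
    gcongr
  linarith

lemma G_int {T : ℝ} (hT : 1 < T) {k : ℕ} {δ : ℝ} (hδ : 0 < δ)
    (ha : ∀ t : ℝ, 0 < t → ‖(om k δ t : ℂ) * Xf (cl t) - Gf k δ (cl t)‖ ≤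
        T ^ (-(3 / 4) : ℝ) * om k δ t + T ^ (-20 : ℝ) * (1 + t) ^ (-20 : ℝ)) (φ : ℝ) :
    IntegrableOn (fun t : ℝ => riemannZeta (cl t) ^ 2 * Gf k δ (cl t) * ef φ t) (Set.Ioi 0) :=
  Pool.Agent.H133R2.EM11.G_int hT hδ ha φ

lemma hp_mp' {ε T : ℝ} (hε : 0 < ε) (hT : 1 < T) {N : ℕ} {b : ℕ × ℕ} (hb : AdH ε T N b)
    {n : ℕ} (hn : 1 ≤ n) (hnN : n ≤ N) :
    1 ≤ hp b.1 n ∧ 1 ≤ mp b.1 b.2 n ∧ (hp b.1 n : ℝ) ≤ T ∧ (mp b.1 b.2 n : ℝ) ≤ T ∧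
      (b.1 : ℝ) * b.2 * n ≤ T ^ (1 - ε) ∧
      Real.log ((hp b.1 n : ℝ) / mp b.1 b.2 n) = Real.log ((b.1 : ℝ) / b.2) + -(Real.log n) := by
  obtain ⟨h1, h2, h3, h4⟩ := hb
  have hT0 : 0 < T := by linarith
  obtain ⟨a1, a2, a3, a4⟩ := Pool.Agent.H303R2.EMT10.hp_mp b.1 b.2 n h1 h2 h3 hn
  have hb5 : (b.1 : ℝ) * b.2 * n ≤ T ^ (1 - ε) := by
    refine le_trans ?_ h4
    have : (n : ℝ) ≤ N := by exact_mod_cast hnN
    gcongr
  have a4' : (hp b.1 n : ℝ) * mp b.1 b.2 n ≤ T := by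
    have : (hp b.1 n : ℝ) * mp b.1 b.2 n ≤ (b.1 : ℝ) * b.2 * n := by exact_mod_cast a4
    exact (this.trans hb5).trans (pow_le_self hε hT)
  have a1' : (1 : ℝ) ≤ hp b.1 n := by exact_mod_cast a1
  have a2' : (1 : ℝ) ≤ mp b.1 b.2 n := by exact_mod_cast a2
  refine ⟨a1, a2, by nlinarith, by nlinarith, hb5, ?_⟩
  have hg : 0 < Nat.gcd b.1 n := Nat.gcd_pos_of_pos_left _ h1
  obtain ⟨x, hx⟩ := Nat.gcd_dvd_left b.1 n
  obtain ⟨y, hy⟩ := Nat.gcd_dvd_right b.1 n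
  have hxe : hp b.1 n = x := by
    unfold hp
    nth_rewrite 1 [hx]
    exact Nat.mul_div_cancel_left _ hg
  have hye : mp b.1 b.2 n = b.2 * y := by
    unfold mp
    congr 1
    nth_rewrite 1 [hy]
    exact Nat.mul_div_cancel_left _ hg
  have hx1 : 1 ≤ x := by
    rcases Nat.eq_zero_or_pos x with h0 | h0
    · rw [h0, mul_zero] at hx; omega
    · exact h0
  have hy1 : 1 ≤ y := by
    rcases Nat.eq_zero_or_pos y with h0 | h0
    · rw [h0, mul_zero] at hy; omega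
    · exact h0
  rw [hxe, hye]
  have p1 : (0 : ℝ) < b.1 := by exact_mod_cast h1
  have p2 : (0 : ℝ) < b.2 := by exact_mod_cast h2
  have p3 : (0 : ℝ) < n := by exact_mod_cast hn
  have p4 : (0 : ℝ) < x := by exact_mod_cast hx1
  have p5 : (0 : ℝ) < y := by exact_mod_cast hy1
  have p6 : (0 : ℝ) < Nat.gcd b.1 n := by exact_mod_cast hg
  rw [← Real.log_inv, ← Real.log_mul (by positivity) (by positivity)]
  congr 1
  have e1 : (b.1 : ℝ) = Nat.gcd b.1 n * x := by exact_mod_cast hx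
  have e2 : (n : ℝ) = Nat.gcd b.1 n * y := by exact_mod_cast hy
  rw [e1]
  nth_rewrite 1 [e2]
  push_cast
  field_simp

/-- the main sum -/
def Ms (k : ℕ) (Y : ℝ) (N : ℕ) (a : ℕ → ℝ) (S : Finset (ℕ × ℕ)) (c : ℕ × ℕ → ℝ) : ℝ :=
  ∑ b ∈ S, c b * ∑ n ∈ Icc 1 N, a n / Real.sqrt n * Mt k Y b.1 b.2 n

/-- the twisted second moment in the hyperbolic region -/
theorem twr (ε : ℝ) (hε : 0 < ε) (hε1 : ε < 1) : ∀ᶠ T : ℝ in atTop,
    ∀ k : ℕ, kr' T k → ∀ N : ℕ, 1 ≤ N →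
    ∀ a : ℕ → ℝ, ∀ S : Finset (ℕ × ℕ), (∀ b ∈ S, AdH ε T N b) → ∀ c : ℕ × ℕ → ℝ,
    ∀ MU : ℝ, ∑ n ∈ Icc 1 N, |a n / Real.sqrt n| ≤ MU → MU ≤ T →
    ‖(∫ t in Set.Ioi (0 : ℝ), (om k (k / T) t : ℂ) * (riemannZeta (cl t) ^ 2 * Xf (cl t)) *
        Af N a t * Cf S c t) - (Ms k (Yf k T) N a S c : ℂ)‖ ≤
    MU * (T ^ (-(3 / 4) : ℝ) * ∫ t in Set.Ioi (0 : ℝ), om k (k / T) t *
        (‖riemannZeta (cl t)‖ ^ 2 * ‖Cf S c t‖)) + T ^ (-3 : ℝ) * (1 + ∑ b ∈ S, c b ^ 2) := by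
  filter_upwards [Gf_approx, Pool.Agent.H724R2.EM.twist2, tv_near ε hε hε1,
    eventually_gt_atTop (Real.exp 1), eventually_gt_atTop 600] with T ha hm hE hTe hT600
    k hk N hN a S hS c MU hMU hMUT
  have hT : 1 < T := by linarith
  have hT0 : 0 < T := by linarith
  obtain ⟨hk1, hδ⟩ := kr_pos hTe (show kr T k from hk)
  replace ha := ha k hk.1 hk.2
  replace hm := hm k hk
  replace hE := hE k hk
  set Q : ℝ := ∑ b ∈ S, c b ^ 2 with hQ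
  have hQ0 : 0 ≤ Q := sum_nonneg fun b _ => sq_nonneg _
  have hMU0 : 0 ≤ MU := le_trans (sum_nonneg fun n _ => abs_nonneg _) hMU
  set MV : ℝ := ∑ b ∈ S, |c b| with hMV
  have hMV0 : 0 ≤ MV := sum_nonneg fun b _ => abs_nonneg _
  have hMVle : MV ≤ T * (1 + Q) := sum_c hε hT hN S hS c
  obtain ⟨iD, hD⟩ := D_est hT hδ ha (Af N a) (Cf S c) (PG_Af N a).1 (PG_Cf S c) MU MV
    (fun t => (Af_norm N a t).trans hMU) (fun t => Cf_norm S c t)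
  obtain ⟨iG, hG⟩ := Pool.Agent.H133R2.EM11.G_sum hT hδ ha N a S c
  -- the splitting
  have hsplit : (∫ t in Set.Ioi (0 : ℝ), (om k (k / T) t : ℂ) *
        (riemannZeta (cl t) ^ 2 * Xf (cl t)) * Af N a t * Cf S c t) =
      (∫ t in Set.Ioi (0 : ℝ), riemannZeta (cl t) ^ 2 *
      ((om k (k / T) t : ℂ) * Xf (cl t) - Gf k (k / T) (cl t)) * (Af N a t * Cf S c t)) +
      ∫ t in Set.Ioi (0 : ℝ), riemannZeta (cl t) ^ 2 * Gf k (k / T) (cl t) *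
        (Af N a t * Cf S c t) := by
    rw [← integral_add iD iG]
    refine integral_congr_ae (Eventually.of_forall fun t => ?_)
    simp only
    ring
  -- the twisted integrals
  have hJ : ∀ b ∈ S, ∀ n ∈ Icc 1 N, ‖(∫ t in Set.Ioi (0 : ℝ), riemannZeta (cl t) ^ 2 *
      Gf k (k / T) (cl t) * ef (Real.log ((b.1 : ℝ) / b.2) + -(Real.log n)) t) -
      (Mt k (Yf k T) b.1 b.2 n : ℂ)‖ ≤ 2 * T ^ (-6 : ℝ) := by
    intro b hb n hn
    obtain ⟨q1, q2, q3, q4, q6, q5⟩ := hp_mp' hε hT (hS b hb) (mem_Icc.1 hn).1 (mem_Icc.1 hn).2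
    have h := hm (hp b.1 n) (mp b.1 b.2 n) q1 q2 q3 q4
    rw [q5] at h
    have h' : ‖(∫ t in Set.Ioi (0 : ℝ), riemannZeta (cl t) ^ 2 *
      Gf k (k / T) (cl t) * ef (Real.log ((b.1 : ℝ) / b.2) + -(Real.log n)) t) -
      Tv k (Yf k T) b.1 b.2 n‖ ≤ T ^ (-6 : ℝ) := h
    obtain ⟨g1, g2, g3, -⟩ := hS b hb
    have h2 := hE b.1 b.2 n g1 g2 (mem_Icc.1 hn).1 g3 q6
    have h3 := norm_sub_le_norm_sub_add_norm_sub (∫ t in Set.Ioi (0 : ℝ), riemannZeta (cl t) ^ 2 *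
      Gf k (k / T) (cl t) * ef (Real.log ((b.1 : ℝ) / b.2) + -(Real.log n)) t)
      (Tv k (Yf k T) b.1 b.2 n) (Mt k (Yf k T) b.1 b.2 n : ℂ)
    linarith
  have hsum : (∑ b ∈ S, (c b : ℂ) * ∑ n ∈ Icc 1 N, ((a n / Real.sqrt n : ℝ) : ℂ) *
        ∫ t in Set.Ioi (0 : ℝ), riemannZeta (cl t) ^ 2 * Gf k (k / T) (cl t) *
          ef (Real.log ((b.1 : ℝ) / b.2) + -(Real.log n)) t) -
      (Ms k (Yf k T) N a S c : ℂ) =
      ∑ b ∈ S, (c b : ℂ) * ∑ n ∈ Icc 1 N, ((a n / Real.sqrt n : ℝ) : ℂ) *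
        ((∫ t in Set.Ioi (0 : ℝ), riemannZeta (cl t) ^ 2 * Gf k (k / T) (cl t) *
          ef (Real.log ((b.1 : ℝ) / b.2) + -(Real.log n)) t) - (Mt k (Yf k T) b.1 b.2 n : ℂ)) := by
    unfold Ms
    rw [Complex.ofReal_sum, ← Finset.sum_sub_distrib]
    refine sum_congr rfl fun b _ => ?_
    rw [Complex.ofReal_mul, Complex.ofReal_sum, ← mul_sub, ← Finset.sum_sub_distrib]
    congr 1
    refine sum_congr rfl fun n _ => ?_
    rw [Complex.ofReal_mul]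
    ring
  have hb2 : ‖∑ b ∈ S, (c b : ℂ) * ∑ n ∈ Icc 1 N, ((a n / Real.sqrt n : ℝ) : ℂ) *
        ((∫ t in Set.Ioi (0 : ℝ), riemannZeta (cl t) ^ 2 * Gf k (k / T) (cl t) *
          ef (Real.log ((b.1 : ℝ) / b.2) + -(Real.log n)) t) - (Mt k (Yf k T) b.1 b.2 n : ℂ))‖ ≤
      MV * (MU * (2 * T ^ (-6 : ℝ))) := by
    refine (norm_sum_le _ _).trans ?_
    rw [hMV, Finset.sum_mul]
    refine sum_le_sum fun b hb => ?_
    rw [norm_mul, Complex.norm_real, Real.norm_eq_abs]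
    refine mul_le_mul_of_nonneg_left ?_ (abs_nonneg _)
    refine (norm_sum_le _ _).trans ?_
    calc ∑ n ∈ Icc 1 N, ‖((a n / Real.sqrt n : ℝ) : ℂ) *
        ((∫ t in Set.Ioi (0 : ℝ), riemannZeta (cl t) ^ 2 * Gf k (k / T) (cl t) *
          ef (Real.log ((b.1 : ℝ) / b.2) + -(Real.log n)) t) - (Mt k (Yf k T) b.1 b.2 n : ℂ))‖
        ≤ ∑ n ∈ Icc 1 N, |a n / Real.sqrt n| * (2 * T ^ (-6 : ℝ)) := by
          refine sum_le_sum fun n hn => ?_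
          rw [norm_mul, Complex.norm_real, Real.norm_eq_abs]
          exact mul_le_mul_of_nonneg_left (hJ b hb n hn) (abs_nonneg _)
      _ = (∑ n ∈ Icc 1 N, |a n / Real.sqrt n|) * (2 * T ^ (-6 : ℝ)) := by rw [Finset.sum_mul]
      _ ≤ MU * (2 * T ^ (-6 : ℝ)) := mul_le_mul_of_nonneg_right hMU (by positivity)
  -- powers of T
  have f2 : T ^ (-20 : ℝ) * (576 * MU * MV) ≤ T ^ (-16 : ℝ) * (1 + Q) := by
    calc T ^ (-20 : ℝ) * (576 * MU * MV) ≤ T ^ (-20 : ℝ) * (T * T * (T * (1 + Q))) := by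
          have : (576 : ℝ) ≤ T := by linarith
          gcongr
      _ = T ^ (-17 : ℝ) * (1 + Q) := by
          have : T ^ (-17 : ℝ) = T ^ (-20 : ℝ) * (T * T * T) := by
            rw [show T * T * T = T ^ (3 : ℝ) by
              rw [show (3 : ℝ) = ((3 : ℕ) : ℝ) by norm_num, Real.rpow_natCast]; ring]
            rw [← Real.rpow_add hT0]
            norm_num
          rw [this]
          ring
      _ ≤ T ^ (-16 : ℝ) * (1 + Q) := by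
          have : T ^ (-17 : ℝ) ≤ T ^ (-16 : ℝ) :=
            Real.rpow_le_rpow_of_exponent_le hT.le (by norm_num)
          gcongr
  have f3 : MV * (MU * (2 * T ^ (-6 : ℝ))) ≤ 2 * (T ^ (-4 : ℝ) * (1 + Q)) := by
    calc MV * (MU * (2 * T ^ (-6 : ℝ))) ≤ (T * (1 + Q)) * (T * (2 * T ^ (-6 : ℝ))) := by gcongr
      _ = 2 * (T ^ (-4 : ℝ) * (1 + Q)) := by
          have : T ^ (-4 : ℝ) = T ^ (-6 : ℝ) * (T * T) := by
            rw [show T * T = T ^ (2 : ℝ) by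
              rw [show (2 : ℝ) = ((2 : ℕ) : ℝ) by norm_num, Real.rpow_natCast]; ring]
            rw [← Real.rpow_add hT0]
            norm_num
          rw [this]
          ring
  have f4 : T ^ (-16 : ℝ) + 2 * T ^ (-4 : ℝ) ≤ T ^ (-3 : ℝ) := by
    have g1 : T ^ (-16 : ℝ) ≤ T ^ (-4 : ℝ) :=
      Real.rpow_le_rpow_of_exponent_le hT.le (by norm_num)
    have g2 : T ^ (-3 : ℝ) = T * T ^ (-4 : ℝ) := by
      nth_rewrite 2 [← Real.rpow_one T]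
      rw [← Real.rpow_add hT0]
      norm_num
    have g3 : 0 < T ^ (-4 : ℝ) := by positivity
    rw [g2]
    nlinarith
  rw [hsplit, hG, add_sub_assoc, hsum]
  refine (norm_add_le _ _).trans ?_
  have f5 : (T ^ (-16 : ℝ) + 2 * T ^ (-4 : ℝ)) * (1 + Q) ≤ T ^ (-3 : ℝ) * (1 + Q) :=
    mul_le_mul_of_nonneg_right f4 (by positivity)
  linarith

end

end Pool.Agent.Y756.T
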