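import Pool.Agent.Y756.T.Int
import Pool.Agent.Y756.T.Tw2
import Pool.Agent.H989R2.EM_MS3
import Pool.Agent.TH535.Kar

set_option autoImplicit false

/-! The norm sum and the cross sum of the polynomial with rational frequencies. -/

namespace Pool.Agent.Y756.T

open Finset Filter Topology MeasureTheory
open Pool.Agent.H306R2 Pool.Agent.H306R2.SM
open Pool.Agent.H223.EM hiding mw
open Pool.Agent.TH535 (posI GdI kar)
open Pool.Agent.TH535.MA (mw LW)
open Pool.Agent.H989R2.EM3 (cF cG cG_cF gcd_eq cF_cG bk_bound)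

noncomputable section

/-- admissible weight functions -/
structure FW (F : ℝ → ℝ → ℝ) (X : ℝ) : Prop where
  cont : Continuous (fun p : ℝ × ℝ => F p.1 p.2)
  nn : ∀ x y : ℝ, 0 ≤ x → 0 ≤ y → 0 ≤ F x y
  z : ∀ x y : ℝ, X ≤ x + y → F x y = 0

/-- the frequencies -/
def S5 (X T : ℝ) : Finset (ℕ × ℕ) :=
  (Icc 1 ⌊T⌋₊ ×ˢ Icc 1 ⌊T⌋₊).filter (fun b => Nat.Coprime b.1 b.2 ∧ (b.1 : ℝ) * b.2 ≤ T ^ X)

/-- the coefficients -/
def c5 (a : ℝ) (F : ℝ → ℝ → ℝ) (T : ℝ) (b : ℕ × ℕ) : ℝ :=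
  rr (a + 1) b.1 * F (Real.log b.1 / Real.log T) (Real.log b.2 / Real.log T) /
    Real.sqrt ((b.1 : ℝ) * b.2)

lemma S5_prop {X T : ℝ} {b : ℕ × ℕ} (hb : b ∈ S5 X T) :
    1 ≤ b.1 ∧ 1 ≤ b.2 ∧ Nat.Coprime b.1 b.2 ∧ (b.1 : ℝ) * b.2 ≤ T ^ X := by
  unfold S5 at hb
  rw [mem_filter, mem_product, mem_Icc, mem_Icc] at hb
  exact ⟨hb.1.1.1, hb.1.2.1, hb.2.1, hb.2.2⟩

lemma mem_S5 {X T : ℝ} (hX : X ≤ 1) (hT : 1 < T) {h l : ℕ} (hh : 1 ≤ h) (hl : 1 ≤ l)
    (hc : Nat.Coprime h l) (hle : (h : ℝ) * l ≤ T ^ X) : (h, l) ∈ S5 X T := by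
  have hT0 : 0 < T := by linarith
  have h1 : T ^ X ≤ T := by
    conv_rhs => rw [← Real.rpow_one T]
    exact Real.rpow_le_rpow_of_exponent_le hT.le hX
  have g1 : (1 : ℝ) ≤ h := by exact_mod_cast hh
  have g2 : (1 : ℝ) ≤ l := by exact_mod_cast hl
  unfold S5
  rw [mem_filter, mem_product, mem_Icc, mem_Icc]
  refine ⟨⟨⟨hh, Nat.le_floor ?_⟩, ⟨hl, Nat.le_floor ?_⟩⟩, hc, hle⟩ <;> dsimp only <;> nlinarith

lemma not_mem_S5 {X T : ℝ} (hX : X ≤ 1) (hT : 1 < T) {h l : ℕ} (hh : 1 ≤ h) (hl : 1 ≤ l)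
    (hc : Nat.Coprime h l) (hn : (h, l) ∉ S5 X T) :
    X ≤ Real.log h / Real.log T + Real.log l / Real.log T := by
  have hT0 : 0 < T := by linarith
  have hL : 0 < Real.log T := Real.log_pos hT
  have h1 : ¬ (h : ℝ) * l ≤ T ^ X := fun hh' => hn (mem_S5 hX hT hh hl hc hh')
  have g1 : (0 : ℝ) < h := by exact_mod_cast hh
  have g2 : (0 : ℝ) < l := by exact_mod_cast hl
  rw [not_le] at h1
  rw [← add_div, ← Real.log_mul g1.ne' g2.ne', le_div_iff₀ hL, ← Real.log_rpow hT0]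
  exact Real.log_le_log (by positivity) h1.le

/-! ### the norm -/

lemma norm_hasSum {a X T : ℝ} {F : ℝ → ℝ → ℝ} (hF : FW F X) (hX : X ≤ 1) (hT : 1 < T) :
    HasSum (fun b : Fin 2 → ℕ => mw (lam2 (a + 1)) b *
      F (posI (Real.log T) b 0) (posI (Real.log T) b 1) ^ 2)
      (∑ b ∈ S5 X T, c5 a F T b ^ 2) := by
  classical
  set g : Fin 2 → ℕ → ℕ := fun _ n => n with hg
  have hinj : ∀ p ∈ S5 X T, ∀ q ∈ S5 X T, (![p.1, p.2] : Fin 2 → ℕ) = ![q.1, q.2] → p = q := by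
    intro p _ q _ h
    have h0 := congrFun h 0
    have h1 := congrFun h 1
    simp only [Matrix.cons_val_zero, Matrix.cons_val_one, Matrix.cons_val_fin_one] at h0 h1
    exact Prod.ext h0 h1
  have h2 : ∑ p ∈ S5 X T, c5 a F T p ^ 2 =
      ∑ b ∈ (S5 X T).image (fun p : ℕ × ℕ => (![p.1, p.2] : Fin 2 → ℕ)),
        mw (lam2 (a + 1)) b * F (posI (Real.log T) b 0) (posI (Real.log T) b 1) ^ 2 := by
    rw [sum_image hinj]
    refine sum_congr rfl fun p hp => ?_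
    obtain ⟨h1, h2, h3, -⟩ := S5_prop hp
    have g1 : (0 : ℝ) < p.1 := by exact_mod_cast h1
    have g2 : (0 : ℝ) < p.2 := by exact_mod_cast h2
    have hc : (∀ i, (![p.1, p.2] : Fin 2 → ℕ) i ≠ 0) ∧
        Nat.Coprime ((![p.1, p.2] : Fin 2 → ℕ) 0) ((![p.1, p.2] : Fin 2 → ℕ) 1) := by
      refine ⟨?_, h3⟩
      intro i
      fin_cases i
      · exact (show p.1 ≠ 0 by omega)
      · exact (show p.2 ≠ 0 by omega)
    rw [mw_lam2, if_pos hc]
    unfold c5 posI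
    simp only [Matrix.cons_val_zero, Matrix.cons_val_one, Matrix.cons_val_fin_one]
    rw [div_pow, Real.sq_sqrt (by positivity)]
    push_cast
    ring
  rw [h2]
  refine hasSum_sum_of_ne_finset_zero ?_
  intro b hb
  by_cases hw : (∀ i, b i ≠ 0) ∧ Nat.Coprime (b 0) (b 1)
  · obtain ⟨hne, hc⟩ := hw
    have hz : F (posI (Real.log T) b 0) (posI (Real.log T) b 1) = 0 := by
      apply hF.z
      unfold posI
      refine not_mem_S5 hX hT (Nat.pos_of_ne_zero (hne 0)) (Nat.pos_of_ne_zero (hne 1)) hc ?_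
      intro hh
      apply hb
      rw [mem_image]
      refine ⟨(b 0, b 1), hh, ?_⟩
      funext i
      fin_cases i <;> rfl
    rw [hz]; ring
  · rw [mw_lam2, if_neg hw, zero_mul]

/-- the limit of the norm -/
def INf (a : ℝ) (F : ℝ → ℝ → ℝ) : ℝ :=
  ∫ u : Fin 2 → ℝ, GdI ![(a + 1) ^ 2, 1] u * F (u 0) (u 1) ^ 2

lemma FW.vals {F : ℝ → ℝ → ℝ} {X : ℝ} (hF : FW F X) {ι : Type} [Fintype ι] (i j : (ι → ℝ) → ℝ)
    (hi : Continuous i) (hj : Continuous j) : Continuous (fun u : ι → ℝ => F (i u) (j u)) :=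
  hF.cont.comp (hi.prodMk hj)

theorem norm_upper {a X : ℝ} (ha : 0 < a) {F : ℝ → ℝ → ℝ} (hF : FW F X) (hX : X ≤ 1)
    (C : ℝ) (hC : aF (a + 2) * INf a F < C) : ∀ᶠ T : ℝ in atTop,
    ∑ b ∈ S5 X T, c5 a F T b ^ 2 ≤ C * Real.log T ^ ((a + 1) ^ 2 + 1) := by
  have hm : ∀ i, 0 < (![(a + 1) ^ 2, 1] : Fin 2 → ℝ) i := by
    intro i; fin_cases i
    · show 0 < (a + 1) ^ 2; positivity
    · show (0 : ℝ) < 1; norm_num
  have hcont : Continuous (fun u : Fin 2 → ℝ => F (u 0) (u 1) ^ 2) :=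
    (hF.vals (fun u : Fin 2 → ℝ => u 0) (fun u : Fin 2 → ℝ => u 1) (by fun_prop) (by fun_prop)).pow 2
  have hvan : ∀ u : Fin 2 → ℝ, (∀ i, 0 ≤ u i) → (∃ i, (1 : ℝ) ≤ u i) → F (u 0) (u 1) ^ 2 = 0 := by
    rintro u hu ⟨i, hi⟩
    have h0 := hu 0
    have h1 := hu 1
    rw [hF.z, zero_pow (by norm_num)]
    fin_cases i
    · have : 1 ≤ u 0 := hi
      linarith
    · have : 1 ≤ u 1 := hi
      linarith
  have h1a : 1 ≤ a + 1 := by linarith
  have hconst : aF (a + 2) = ∏' p : Nat.Primes,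
      ((1 - 1 / (p : ℝ)) ^ (∑ i, (![(a + 1) ^ 2, 1] : Fin 2 → ℝ) i) *
        ∑' v : Fin 2 → ℕ, lam2 (a + 1) p v) := by
    have := lam2_const h1a
    rw [show a + 1 + 1 = a + 2 by ring] at this
    exact this
  have hk := (kar hm (lam2_LW h1a).1 (aF (a + 2)) hconst (aF_pos (by linarith)).le
    (fun u => F (u 0) (u 1) ^ 2) hcont 1 hvan (by norm_num)).2
  have hlt := (Real.tendsto_log_atTop).eventually (hk.eventually_lt_const hC)
  filter_upwards [hlt, eventually_gt_atTop 1] with T h1 hT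
  have hL : 0 < Real.log T := Real.log_pos hT
  rw [Fin.sum_univ_two] at h1
  simp only [Matrix.cons_val_zero, Matrix.cons_val_one, Matrix.cons_val_fin_one] at h1
  rw [div_lt_iff₀ (by positivity)] at h1
  rw [(norm_hasSum hF hX hT).tsum_eq] at h1
  exact h1.le

/-! ### the cross sum -/

/-- minorant -/
def q1 (F : ℝ → ℝ → ℝ) (β δ : ℝ) (u : Fin 4 → ℝ) : ℝ :=
  F (u 0 + u 1) (u 2) * sc (β - δ) δ (u 1 + u 3) * (1 - u 0 - u 2 - u 3)

/-- majorant -/
def q2 (F : ℝ → ℝ → ℝ) (β δ : ℝ) (u : Fin 4 → ℝ) : ℝ :=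
  F (u 0 + u 1) (u 2) * sc β δ (u 1 + u 3)

lemma q1_cont {F : ℝ → ℝ → ℝ} {X : ℝ} (hF : FW F X) (β δ : ℝ) : Continuous (q1 F β δ) := by
  have h1 := hF.vals (fun u : Fin 4 → ℝ => u 0 + u 1) (fun u : Fin 4 → ℝ => u 2)
    (by fun_prop) (by fun_prop)
  have h2 : Continuous (fun u : Fin 4 → ℝ => sc (β - δ) δ (u 1 + u 3)) :=
    (sc_cont _ _).comp (by fun_prop)
  unfold q1
  exact (h1.mul h2).mul (by fun_prop)

lemma q2_cont {F : ℝ → ℝ → ℝ} {X : ℝ} (hF : FW F X) (β δ : ℝ) : Continuous (q2 F β δ) := by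
  have h1 := hF.vals (fun u : Fin 4 → ℝ => u 0 + u 1) (fun u : Fin 4 → ℝ => u 2)
    (by fun_prop) (by fun_prop)
  have h2 : Continuous (fun u : Fin 4 → ℝ => sc β δ (u 1 + u 3)) :=
    (sc_cont _ _).comp (by fun_prop)
  unfold q2
  exact h1.mul h2

lemma q_zero {F : ℝ → ℝ → ℝ} {X : ℝ} (hF : FW F X) (hX : X ≤ 1) {β' δ : ℝ} (hδ : 0 < δ)
    (hβ : β' + δ ≤ 1) (u : Fin 4 → ℝ) (hu : ∀ i, 0 ≤ u i) (h : ∃ i, 1 ≤ u i) :
    F (u 0 + u 1) (u 2) * sc β' δ (u 1 + u 3) = 0 := by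
  obtain ⟨i, hi⟩ := h
  have h0 := hu 0
  have h1 := hu 1
  have h2 := hu 2
  have h3 := hu 3
  fin_cases i
  · have : 1 ≤ u 0 := hi
    rw [hF.z _ _ (by linarith), zero_mul]
  · have : 1 ≤ u 1 := hi
    rw [hF.z _ _ (by linarith), zero_mul]
  · have : 1 ≤ u 2 := hi
    rw [hF.z _ _ (by linarith), zero_mul]
  · have : 1 ≤ u 3 := hi
    rw [sc_eq_zero hδ (by linarith), mul_zero]

/-- the terms of the finite sum -/
def tm5 (a : ℝ) (F : ℝ → ℝ → ℝ) (T : ℝ) (k : ℕ) (p : (ℕ × ℕ) × ℕ) : ℝ :=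
  c5 a F T p.1 * (dv a p.2 / Real.sqrt p.2 * Mt k (Yf k T) p.1.1 p.1.2 p.2)

lemma tm5_eq {a : ℝ} {F : ℝ → ℝ → ℝ} {T : ℝ} {k : ℕ} (hY : 0 < Yf k T) (b : Fin 4 → ℕ)
    (hne : ∀ i, b i ≠ 0) (h03 : Nat.Coprime (b 0) (b 3)) (h012 : Nat.Coprime (b 0 * b 1) (b 2)) :
    tm5 a F T k (cG b) = mw (lam4 a) b *
      (F (posI (Real.log T) b 0 + posI (Real.log T) b 1) (posI (Real.log T) b 2) *
      (Real.log (Yf k T) + bk k - Real.log (b 0) - Real.log (b 2) - Real.log (b 3))) := by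
  have b0 : (0 : ℝ) < b 0 := by exact_mod_cast Nat.pos_of_ne_zero (hne 0)
  have b1 : (0 : ℝ) < b 1 := by exact_mod_cast Nat.pos_of_ne_zero (hne 1)
  have b2 : (0 : ℝ) < b 2 := by exact_mod_cast Nat.pos_of_ne_zero (hne 2)
  have b3 : (0 : ℝ) < b 3 := by exact_mod_cast Nat.pos_of_ne_zero (hne 3)
  have h1' : 0 < b 1 := Nat.pos_of_ne_zero (hne 1)
  have hhp : hp (b 0 * b 1) (b 1 * b 3) = b 0 := by
    unfold hp
    rw [gcd_eq h03, Nat.mul_div_cancel _ h1']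
  have hmp : mp (b 0 * b 1) (b 2) (b 1 * b 3) = b 2 * b 3 := by
    unfold mp
    rw [gcd_eq h03, Nat.mul_div_cancel_left _ h1']
  rw [mw_lam4, if_pos ⟨hne, h03, h012⟩]
  unfold tm5 cG
  simp only
  unfold c5 Mt
  simp only
  rw [hhp, hmp]
  push_cast
  have hsq : Real.sqrt ((b 0 : ℝ) * b 1 * b 2) * Real.sqrt ((b 1 : ℝ) * b 3) *
      Real.sqrt ((b 0 : ℝ) * (b 2 * b 3)) = (b 0 : ℝ) * b 1 * b 2 * b 3 := by
    rw [← Real.sqrt_mul (by positivity), ← Real.sqrt_mul (by positivity),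
      show (b 0 : ℝ) * b 1 * b 2 * (b 1 * b 3) * (b 0 * (b 2 * b 3)) =
        ((b 0 : ℝ) * b 1 * b 2 * b 3) ^ 2 by ring, Real.sqrt_sq (by positivity)]
  have hlog : Real.log (Yf k T / ((b 0 : ℝ) * (b 2 * b 3))) =
      Real.log (Yf k T) - Real.log (b 0) - Real.log (b 2) - Real.log (b 3) := by
    rw [Real.log_div hY.ne' (by positivity), Real.log_mul b0.ne' (by positivity),
      Real.log_mul b2.ne' b3.ne']
    ring
  have hl1 : Real.log ((b 0 : ℝ) * b 1) / Real.log T =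
      Real.log (b 0) / Real.log T + Real.log (b 1) / Real.log T := by
    rw [Real.log_mul b0.ne' b1.ne', add_div]
  rw [hlog, hl1]
  unfold posI
  have hs0 : 0 < Real.sqrt ((b 0 : ℝ) * b 1 * b 2) := by positivity
  have hs1 : 0 < Real.sqrt ((b 1 : ℝ) * b 3) := by positivity
  have hs2 : 0 < Real.sqrt ((b 0 : ℝ) * (b 2 * b 3)) := by positivity
  rw [← hsq]
  field_simp
  ring

lemma mw4_nonneg {a : ℝ} (ha : 0 < a) (b : Fin 4 → ℕ) : 0 ≤ mw (lam4 a) b := by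
  rw [mw_lam4]
  split_ifs
  · have := rr_nonneg (c := a + 1) (by linarith) (b 0 * b 1)
    have h2 := dv_nonneg ha.le (b 1 * b 3)
    positivity
  · exact le_rfl

lemma cross_ge {a X β δ T : ℝ} (ha : 0 < a) {F : ℝ → ℝ → ℝ} (hF : FW F X) (hX : X ≤ 1)
    (hβ : 0 < β) (hδ : 0 < δ) (hXβ : X + β ≤ 1) (hT : 1 < T) {k : ℕ} (hY : 0 < Yf k T)
    (hD : |Real.log (Yf k T) + bk k - Real.log T| ≤ 6)
    (hs1 : Summable (fun b => mw (lam4 a) b * q1 F β δ (posI (Real.log T) b)))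
    (hs2 : Summable (fun b => mw (lam4 a) b * q2 F β δ (posI (Real.log T) b))) :
    Real.log T * (∑' b, mw (lam4 a) b * q1 F β δ (posI (Real.log T) b)) -
      6 * (∑' b, mw (lam4 a) b * q2 F β δ (posI (Real.log T) b)) ≤
    Ms k (Yf k T) ⌊T ^ β⌋₊ (dv a) (S5 X T) (c5 a F T) := by
  classical
  have hT0 : 0 < T := by linarith
  have hL : 0 < Real.log T := Real.log_pos hT
  set L := Real.log T with hLdef
  have h1 : Ms k (Yf k T) ⌊T ^ β⌋₊ (dv a) (S5 X T) (c5 a F T) =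
      ∑ p ∈ S5 X T ×ˢ Icc 1 ⌊T ^ β⌋₊, tm5 a F T k p := by
    unfold Ms
    rw [sum_product]
    refine sum_congr rfl fun b _ => ?_
    rw [mul_sum]
    rfl
  have hprop : ∀ p ∈ S5 X T ×ˢ Icc 1 ⌊T ^ β⌋₊, (∀ i, cF p i ≠ 0) ∧
      Nat.Coprime (cF p 0) (cF p 3) ∧ Nat.Coprime (cF p 0 * cF p 1) (cF p 2) := by
    rintro ⟨⟨h, l⟩, n⟩ hp
    rw [mem_product, mem_Icc] at hp
    obtain ⟨hb, hn, -⟩ := hp
    obtain ⟨hh, hl, hcop, -⟩ := S5_prop hb
    simp only at hh hl hcop hn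
    have hg : 0 < Nat.gcd h n := Nat.gcd_pos_of_pos_left _ hh
    refine ⟨?_, Nat.coprime_div_gcd_div_gcd hg, ?_⟩
    · intro i
      fin_cases i
      · exact (Nat.div_pos (Nat.le_of_dvd hh (Nat.gcd_dvd_left h n)) hg).ne'
      · exact hg.ne'
      · exact (show 0 < l from hl).ne'
      · exact (Nat.div_pos (Nat.le_of_dvd hn (Nat.gcd_dvd_right h n)) hg).ne'
    · change Nat.Coprime (h / Nat.gcd h n * Nat.gcd h n) l
      rw [Nat.div_mul_cancel (Nat.gcd_dvd_left h n)]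
      exact hcop
  set g : (Fin 4 → ℕ) → ℝ := fun b => L * (mw (lam4 a) b * q1 F β δ (posI L b)) -
    6 * (mw (lam4 a) b * q2 F β δ (posI L b)) with hg
  have hgs : Summable g := (hs1.mul_left L).sub (hs2.mul_left 6)
  have hgt : ∑' b, g b = L * (∑' b, mw (lam4 a) b * q1 F β δ (posI L b)) -
      6 * (∑' b, mw (lam4 a) b * q2 F β δ (posI L b)) := by
    rw [hg, (hs1.mul_left L).tsum_sub (hs2.mul_left 6), tsum_mul_left, tsum_mul_left]
  rw [← hgt, h1]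
  have hpos : ∀ b : Fin 4 → ℕ, (∀ i, b i ≠ 0) → ∀ i, 0 ≤ posI L b i := by
    intro b hb i
    unfold posI
    have : (1 : ℝ) ≤ b i := by exact_mod_cast Nat.pos_of_ne_zero (hb i)
    exact div_nonneg (Real.log_nonneg this) hL.le
  have hlogn : ∀ b : Fin 4 → ℕ, (∀ i, b i ≠ 0) → posI L b 1 + posI L b 3 =
      Real.log ((b 1 * b 3 : ℕ) : ℝ) / L := by
    intro b hb
    have b1 : (0 : ℝ) < b 1 := by exact_mod_cast Nat.pos_of_ne_zero (hb 1)
    have b3 : (0 : ℝ) < b 3 := by exact_mod_cast Nat.pos_of_ne_zero (hb 3)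
    unfold posI
    rw [← add_div, ← Real.log_mul b1.ne' b3.ne', Nat.cast_mul]
  have hlogh : ∀ b : Fin 4 → ℕ, (∀ i, b i ≠ 0) → posI L b 0 + posI L b 1 =
      Real.log ((b 0 * b 1 : ℕ) : ℝ) / L := by
    intro b hb
    have b1 : (0 : ℝ) < b 1 := by exact_mod_cast Nat.pos_of_ne_zero (hb 1)
    have b0 : (0 : ℝ) < b 0 := by exact_mod_cast Nat.pos_of_ne_zero (hb 0)
    unfold posI
    rw [← add_div, ← Real.log_mul b0.ne' b1.ne', Nat.cast_mul]
  -- comparison on the finite set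
  have h2 : ∑ b ∈ (S5 X T ×ˢ Icc 1 ⌊T ^ β⌋₊).image cF, g b ≤
      ∑ p ∈ S5 X T ×ˢ Icc 1 ⌊T ^ β⌋₊, tm5 a F T k p := by
    rw [sum_image (fun p _ q _ hpq => by
      have := congrArg cG hpq
      rwa [cG_cF, cG_cF] at this)]
    refine sum_le_sum fun p hp => ?_
    obtain ⟨a1, a2, a3⟩ := hprop p hp
    have htm := tm5_eq (a := a) (F := F) hY (cF p) a1 a2 a3
    rw [cG_cF, ← hLdef] at htm
    rw [htm]
    set b := cF p with hb
    have hpb : p = cG b := by rw [hb, cG_cF]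
    have hw := mw4_nonneg ha b
    have hu := hpos b a1
    have hx13 : posI L b 1 + posI L b 3 ≤ β := by
      rw [hlogn b a1]
      have hp2 : p.2 = b 1 * b 3 := by rw [hpb]; rfl
      rw [mem_product, mem_Icc] at hp
      obtain ⟨-, hn1, hn2⟩ := hp
      rw [← hp2, div_le_iff₀ hL, ← Real.log_rpow hT0]
      have hn0 : (0 : ℝ) < p.2 := by exact_mod_cast hn1
      exact Real.log_le_log hn0 ((Nat.le_floor_iff (by positivity)).mp hn2)
    have hF0 : 0 ≤ F (posI L b 0 + posI L b 1) (posI L b 2) :=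
      hF.nn _ _ (add_nonneg (hu 0) (hu 1)) (hu 2)
    have e1 : Real.log (Yf k T) + bk k - Real.log (b 0) - Real.log (b 2) - Real.log (b 3) =
        L * (1 - posI L b 0 - posI L b 2 - posI L b 3) + (Real.log (Yf k T) + bk k - L) := by
      unfold posI
      field_simp
      ring
    have hsc : sc β δ (posI L b 1 + posI L b 3) = 1 := sc_eq_one hδ hx13
    have hgb : g b = mw (lam4 a) b * (L * q1 F β δ (posI L b) - 6 * q2 F β δ (posI L b)) := by
      rw [hg]; ring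
    rw [hgb]
    refine mul_le_mul_of_nonneg_left ?_ hw
    rw [e1]
    unfold q1 q2
    rw [hsc]
    have hM : F (posI L b 0 + posI L b 1) (posI L b 2) * sc (β - δ) δ (posI L b 1 + posI L b 3) *
        (1 - posI L b 0 - posI L b 2 - posI L b 3) ≤
        F (posI L b 0 + posI L b 1) (posI L b 2) * (1 - posI L b 0 - posI L b 2 - posI L b 3) := by
      by_cases hz : X ≤ posI L b 0 + posI L b 1 + posI L b 2
      · rw [hF.z _ _ hz]; simp
      · push Not at hz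
        have h0 := hu 0
        have h1 := hu 1
        have h3 : 0 ≤ 1 - posI L b 0 - posI L b 2 - posI L b 3 := by linarith
        have h4 := sc_le_one (β - δ) δ (posI L b 1 + posI L b 3)
        refine mul_le_mul_of_nonneg_right ?_ h3
        nlinarith
    have hD' := (abs_le.1 hD).1
    nlinarith [mul_le_mul_of_nonneg_left hM hL.le]
  refine le_trans ?_ h2
  have h3 := (hgs.neg).sum_le_tsum ((S5 X T ×ˢ Icc 1 ⌊T ^ β⌋₊).image cF) ?_
  · rw [tsum_neg, sum_neg_distrib] at h3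
    linarith
  · intro b hb
    by_cases hv : (∀ i, b i ≠ 0) ∧ Nat.Coprime (b 0) (b 3) ∧ Nat.Coprime (b 0 * b 1) (b 2)
    · obtain ⟨hne, h03, h012⟩ := hv
      have hw := mw4_nonneg ha b
      have hu := hpos b hne
      have hnm : cG b ∉ S5 X T ×ˢ Icc 1 ⌊T ^ β⌋₊ := by
        intro hh
        apply hb
        rw [mem_image]
        exact ⟨cG b, hh, cF_cG h03 (hne 1)⟩
      have n01 : 1 ≤ b 0 * b 1 := Nat.mul_pos (Nat.pos_of_ne_zero (hne 0))
        (Nat.pos_of_ne_zero (hne 1))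
      have n2 : 1 ≤ b 2 := Nat.pos_of_ne_zero (hne 2)
      have n13 : 1 ≤ b 1 * b 3 := Nat.mul_pos (Nat.pos_of_ne_zero (hne 1))
        (Nat.pos_of_ne_zero (hne 3))
      have hF0 : 0 ≤ F (posI L b 0 + posI L b 1) (posI L b 2) :=
        hF.nn _ _ (add_nonneg (hu 0) (hu 1)) (hu 2)
      by_cases m1 : (b 0 * b 1, b 2) ∈ S5 X T
      · have m3 : b 1 * b 3 ∉ Icc 1 ⌊T ^ β⌋₊ := by
          intro m3
          apply hnm
          rw [mem_product]
          exact ⟨m1, m3⟩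
        have h5 : ¬ b 1 * b 3 ≤ ⌊T ^ β⌋₊ := fun hh => m3 (mem_Icc.mpr ⟨n13, hh⟩)
        rw [Nat.le_floor_iff (by positivity), not_le] at h5
        have h6 : β ≤ posI L b 1 + posI L b 3 := by
          rw [hlogn b hne, le_div_iff₀ hL, ← Real.log_rpow hT0]
          exact Real.log_le_log (by positivity) h5.le
        have h7 : q1 F β δ (posI L b) = 0 := by
          unfold q1
          rw [sc_eq_zero hδ (by linarith)]; ring
        have h8 : 0 ≤ q2 F β δ (posI L b) := by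
          unfold q2
          exact mul_nonneg hF0 (sc_nonneg _ _ _)
        have : 0 ≤ mw (lam4 a) b * q2 F β δ (posI L b) := mul_nonneg hw h8
        rw [hg]
        simp only [h7]
        linarith
      · have h6 : X ≤ posI L b 0 + posI L b 1 + posI L b 2 := by
          rw [hlogh b hne]
          exact not_mem_S5 hX hT n01 n2 h012 m1
        have hz : F (posI L b 0 + posI L b 1) (posI L b 2) = 0 := hF.z _ _ h6
        rw [hg]
        simp only [q1, q2, hz]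
        simp
    · have hw : mw (lam4 a) b = 0 := by rw [mw_lam4, if_neg hv]
      rw [hg]
      simp only [hw]
      simp

/-- the limit of the cross sum -/
def ICf (a : ℝ) (F : ℝ → ℝ → ℝ) (β δ : ℝ) : ℝ :=
  ∫ u : Fin 4 → ℝ, GdI (m4 a) u * q1 F β δ u

theorem cross_lower {a X β δ : ℝ} (ha : 0 < a) {F : ℝ → ℝ → ℝ} (hF : FW F X) (hX : X ≤ 1)
    (hβ : 0 < β) (hδ : 0 < δ) (hβδ : β + δ ≤ 1) (hXβ : X + β ≤ 1)
    (c : ℝ) (hc : c < aF (a + 2) * ICf a F β δ) : ∀ᶠ T : ℝ in atTop, ∀ k : ℕ, kr' T k →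
    c * Real.log T ^ (∑ i, m4 a i + 1) ≤
      Ms k (Yf k T) ⌊T ^ β⌋₊ (dv a) (S5 X T) (c5 a F T) := by
  have hm : ∀ i, 0 < m4 a i := by
    intro i; fin_cases i
    · show 0 < a + 1; linarith
    · show 0 < (a + 1) * a; positivity
    · show (0 : ℝ) < 1; norm_num
    · show 0 < a; exact ha
  have v1 : ∀ u : Fin 4 → ℝ, (∀ i, 0 ≤ u i) → (∃ i, 1 ≤ u i) → q1 F β δ u = 0 := by
    intro u hu hi
    unfold q1
    rw [q_zero hF hX hδ (by linarith) u hu hi, zero_mul]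
  have v2 : ∀ u : Fin 4 → ℝ, (∀ i, 0 ≤ u i) → (∃ i, 1 ≤ u i) → q2 F β δ u = 0 :=
    fun u hu hi => q_zero hF hX hδ hβδ u hu hi
  obtain ⟨s1, k1⟩ := kar hm (lam4_LW ha).1 (aF (a + 2)) (lam4_const ha) (aF_pos (by linarith)).le
    (q1 F β δ) (q1_cont hF β δ) 1 v1 (by norm_num)
  obtain ⟨s2, k2⟩ := kar hm (lam4_LW ha).1 (aF (a + 2)) (lam4_const ha) (aF_pos (by linarith)).le
    (q2 F β δ) (q2_cont hF β δ) 1 v2 (by norm_num)
  change Tendsto _ atTop (𝓝 (aF (a + 2) * ICf a F β δ)) at k1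
  set XX := aF (a + 2) * ICf a F β δ with hXX
  set Z := aF (a + 2) * ∫ u : Fin 4 → ℝ, GdI (m4 a) u * q2 F β δ u with hZ
  set d := (XX - c) / 2 with hd
  have hd0 : 0 < d := by rw [hd]; linarith
  have e1 := (Real.tendsto_log_atTop).eventually (k1.eventually_const_lt
    (show c + d < XX by rw [hd]; linarith))
  have e2 := (Real.tendsto_log_atTop).eventually (k2.eventually_lt_const
    (show Z < Z + 1 by linarith))
  have e3 := (Real.tendsto_log_atTop).eventually_ge_atTop (6 * (|Z| + 1) / d)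
  filter_upwards [e1, e2, e3, eventually_gt_atTop (Real.exp 1)] with T h1 h2 h3 hTe k hk
  have hT : 1 < T := lt_trans (by
    have := Real.add_one_lt_exp (show (1 : ℝ) ≠ 0 by norm_num)
    linarith) hTe
  have hT0 : 0 < T := by linarith
  have hL1 : 1 < Real.log T := by
    rw [Real.lt_log_iff_exp_lt hT0]; exact hTe
  have hL0 : 0 < Real.log T := by linarith
  have hk1 : 1 ≤ k := by
    have : (1 : ℝ) ≤ k := by
      refine le_trans ?_ hk.1
      nlinarith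
    exact_mod_cast this
  have hk0 : (0 : ℝ) < k := by exact_mod_cast hk1
  have hY : 0 < Yf k T := by
    unfold Yf
    have := Real.pi_pos
    positivity
  have hD := bk_bound hk1 hT0
  have hmain := cross_ge ha hF hX hβ hδ hXβ hT hY hD (s1 _ hL0) (s2 _ hL0)
  refine le_trans ?_ hmain
  set L := Real.log T with hLd
  have hLm : 0 < L ^ (∑ i, m4 a i) := by positivity
  rw [lt_div_iff₀ hLm] at h1
  rw [div_lt_iff₀ hLm] at h2
  rw [Real.rpow_add_one hL0.ne']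
  have h5 : 6 * (Z + 1) ≤ d * L := by
    rw [div_le_iff₀ hd0] at h3
    have := le_abs_self Z
    linarith
  set P := L ^ (∑ i, m4 a i) with hP
  set S1 := ∑' b, mw (lam4 a) b * q1 F β δ (posI L b) with hS1
  set S2 := ∑' b, mw (lam4 a) b * q2 F β δ (posI L b) with hS2
  have a1 : L * ((c + d) * P) ≤ L * S1 := mul_le_mul_of_nonneg_left h1.le hL0.le
  have a2 : 6 * (Z + 1) * P ≤ d * L * P := mul_le_mul_of_nonneg_right h5 hLm.le
  nlinarith

end

end Pool.Agent.Y756.T
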