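import Pool.Agent.H306R2.KW
import Pool.Agent.H329R2.EM_MS5
import Pool.Agent.Y756.T.Tw2

set_option autoImplicit false

/-! Even moments of the auxiliary Dirichlet polynomial `Σ_{n ≤ Y^{1/q}} d_e(n) n^{-s}`. -/

namespace Pool.Agent.Y756.T

open Finset Filter Topology MeasureTheory Complex
open Pool.Agent.H306R2 Pool.Agent.H306R2.SM Pool.Agent.H223.EM
open Pool.Agent.H133R2.EM11 (Af Cf PG_Af PG_Cf Af_norm Cf_norm z2_bound)

noncomputable section

lemma small_powB (ε : ℝ) (hε : 0 < ε) (B : ℝ) (hB : 0 < B) : ∀ᶠ T : ℝ in atTop, ∀ k : ℕ, kr' T k →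
    ((k / T) / (1 / (2 * T ^ (1 - ε)))) ^ (k + 1) ≤ T ^ (-B) := by
  have h1 : ∀ᶠ T : ℝ in atTop, 8 * Real.log T ^ 2 ≤ T ^ (ε / 2) := by
    have h := (isLittleO_log_rpow_atTop (r := ε / 4) (by positivity)).bound (c := 1 / 3) (by norm_num)
    filter_upwards [h, eventually_gt_atTop 1] with T hT hT1
    have hL : 0 ≤ Real.log T := (Real.log_pos hT1).le
    rw [Real.norm_of_nonneg hL, Real.norm_of_nonneg (by positivity)] at hT
    have e : T ^ (ε / 2) = (T ^ (ε / 4)) ^ 2 := by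
      rw [← Real.rpow_natCast, ← Real.rpow_mul (by linarith)]
      congr 1; push_cast; ring
    rw [e]
    have : (3 * Real.log T) ^ 2 ≤ (T ^ (ε / 4)) ^ 2 := by
      apply pow_le_pow_left₀ (by positivity); linarith
    nlinarith
  have h2 : ∀ᶠ T : ℝ in atTop, 2 * B / ε ≤ Real.log T ^ 2 :=
    (tendsto_pow_atTop (by norm_num)).comp Real.tendsto_log_atTop |>.eventually_ge_atTop _
  filter_upwards [h1, h2, eventually_gt_atTop 1] with T hT1 hT2 hT k hk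
  have hT0 : 0 < T := by linarith
  have e1 : ((k:ℝ) / T) / (1 / (2 * T ^ (1 - ε))) = 2 * k * T ^ (-ε) := by
    rw [show (1 - ε) = 1 + (-ε) by ring, Real.rpow_add hT0, Real.rpow_one]
    field_simp
  rw [e1]
  have e2 : 2 * (k:ℝ) * T ^ (-ε) ≤ T ^ (-(ε / 2)) := by
    have : 2 * (k:ℝ) ≤ T ^ (ε / 2) := by linarith [hk.2]
    calc 2 * (k:ℝ) * T ^ (-ε) ≤ T ^ (ε / 2) * T ^ (-ε) :=
          mul_le_mul_of_nonneg_right this (by positivity)
      _ = T ^ (-(ε / 2)) := by rw [← Real.rpow_add hT0]; congr 1; ring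
  calc (2 * (k:ℝ) * T ^ (-ε)) ^ (k + 1) ≤ (T ^ (-(ε / 2))) ^ (k + 1) :=
        pow_le_pow_left₀ (by positivity) e2 _
    _ = T ^ (-(ε / 2) * ((k + 1 : ℕ) : ℝ)) := by
        rw [← Real.rpow_natCast, ← Real.rpow_mul hT0.le]
    _ ≤ T ^ (-B) := by
        apply Real.rpow_le_rpow_of_exponent_le hT.le
        have h3 : 2 * B / ε ≤ (k:ℝ) := hT2.trans hk.1
        rw [div_le_iff₀ hε] at h3
        push_cast
        nlinarith

lemma ncpow_cl (n : ℕ) (hn : 1 ≤ n) (t : ℝ) :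
    (n : ℂ) ^ (-(cl t)) = ((1 / Real.sqrt n : ℝ) : ℂ) * ef (-(Real.log n)) t := by
  have hn0 : (0 : ℝ) < n := by exact_mod_cast hn
  have e0 : 1 / Real.sqrt n = Real.exp (-(1 / 2) * Real.log n) := by
    rw [neg_mul, Real.exp_neg, one_div]
    congr 1
    rw [← Real.exp_log (Real.sqrt_pos.mpr hn0), Real.log_sqrt hn0.le]
    congr 1; ring
  rw [ncpow_exp n hn, e0, ofReal_exp, ef, ← Complex.exp_add]
  congr 1
  unfold cl
  push_cast
  ring

/-- `Af` is the Dirichlet polynomial on the critical line -/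
lemma Af_eq_Dp (A : ℕ → ℝ) (X : ℝ) (t : ℝ) : Af ⌊X⌋₊ A t = Dp A X (cl t) := by
  unfold Af Dp
  refine sum_congr rfl fun n hn => ?_
  rw [mem_Icc] at hn
  rw [ncpow_cl n hn.1, div_eq_mul_one_div]
  push_cast
  ring

/-- upper bound for the `2q`-th moment -/
theorem Am (e : ℝ) (he : 0 < e) (q : ℕ) (hq : 1 ≤ q) (η : ℝ) (hη : 0 < η) (hη2 : η < 1 / 2)
    (C : ℝ) (hC : aF (q * e) * ((1 / (q : ℝ)) ^ ((q * e) * e) / Real.Gamma ((q * e) * e + 1)) ^ q < C) :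
    ∀ᶠ T : ℝ in atTop, ∀ k : ℕ, kr' T k →
      ∫ t in Set.Ioi (0 : ℝ), om k (k / T) t *
        ‖Af ⌊Yt η T ^ (1 / (q : ℝ))⌋₊ (tr (dA e) (Yt η T ^ (1 / (q : ℝ)))) t‖ ^ (2 * q) ≤
      C * Real.log (Yt η T) ^ ((q * e) ^ 2) := by
  obtain ⟨C', hC1, hC2⟩ := exists_between hC
  have hq0 : (0 : ℝ) < q := by exact_mod_cast hq
  have hK := K_sum e he q hq (1 / (q : ℝ)) (by positivity) C' hC1 η hη2
  set J : ℕ := ⌈(q : ℝ) * e⌉₊ with hJ
  have hJ1 : (q : ℝ) * e ≤ J := Nat.le_ceil _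
  have hsp := small_powB (2 * η) (by linarith) (2 * (J + 1)) (by positivity)
  have h2 : ∀ᶠ T : ℝ in atTop, 1 ≤ (C - C') * Real.log (Yt η T) ^ ((q * e) ^ 2) := by
    have : Tendsto (fun T => (C - C') * Real.log (Yt η T) ^ ((q * e) ^ 2)) atTop atTop :=
      ((tendsto_rpow_atTop (by positivity)).comp (Yt_tendsto hη2)).const_mul_atTop (by linarith)
    exact this.eventually_ge_atTop 1
  filter_upwards [hK, hsp, h2, eventually_gt_atTop (Real.exp 1)] with T hK hsp h2 hT k hkr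
  have hT1 : 1 < T := lt_trans (by
    have := Real.add_one_lt_exp (show (1 : ℝ) ≠ 0 by norm_num)
    linarith) hT
  have hT0 : 0 < T := by linarith
  have hL : 1 < Real.log T := by
    rw [Real.lt_log_iff_exp_lt hT0]; exact hT
  have hk1 : (1 : ℝ) < k := by nlinarith [hkr.1]
  have hδ : 0 < (k : ℝ) / T := by positivity
  set Y := Yt η T with hY
  have hY1 : 1 ≤ Y := one_le_Yt hη2 hT1.le
  have hYT : Y ≤ T := Yt_le hη hT1.le
  set X := Y ^ (1 / (q : ℝ)) with hX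
  have hX1 : 1 ≤ X := Real.one_le_rpow hY1 (by positivity)
  have hXq : X ^ q = Y := by
    rw [hX, ← Real.rpow_natCast, ← Real.rpow_mul (by linarith), one_div,
      inv_mul_cancel₀ hq0.ne', Real.rpow_one]
  set A := tr (dA e) X with hA
  set B : ArithmeticFunction ℝ := A ^ q with hB
  have hAsupp : ∀ n : ℕ, X < n → A n = 0 := fun n hn => tr_supp _ _ n hn
  have hBn : ∀ m, 0 ≤ B m := fun m => tr_pow_nonneg he.le X q m
  have hBle : ∀ m, B m ≤ (m : ℝ) ^ J := by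
    intro m
    refine (tr_pow_le he.le X q m).trans ?_
    have := PB_dA (α := (q : ℝ) * e) (by positivity) (J := J) hJ1 m
    exact (le_abs_self _).trans this
  have hpow : ∀ t : ℝ, Af ⌊X⌋₊ A t ^ q = Af ⌊Y⌋₊ B t := by
    intro t
    rw [Af_eq_Dp, Af_eq_Dp, ← (Dp_pow A X hX1 hAsupp (cl t) q).2, hXq]
  set N := ⌊Y⌋₊ with hN
  have hNY : (N : ℝ) ≤ Y := Nat.floor_le (by linarith)
  have hG : 0 < 1 / (2 * T ^ (1 - 2 * η)) := by positivity
  have hnd := norm_diag (Icc 1 N) (fun m => ((B m / Real.sqrt m : ℝ) : ℂ)) (fun m => Real.log m)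
    (1 / (2 * T ^ (1 - 2 * η))) hG (by
      intro i hi j hj hij
      rw [mem_Icc] at hi hj
      exact Pool.Agent.H329R2.MS5.log_sep hi.1 hj.1 hij
        (le_trans (by exact_mod_cast hi.2) hNY) (le_trans (by exact_mod_cast hj.2) hNY))
      k (k / T) hδ
  have e1 : (∫ t in Set.Ioi (0 : ℝ), om k (k / T) t * ‖Af ⌊X⌋₊ A t‖ ^ (2 * q)) =
      ∫ t in Set.Ioi (0 : ℝ), om k (k / T) t *
        ‖∑ i ∈ Icc 1 N, ((B i / Real.sqrt i : ℝ) : ℂ) * ef (-(Real.log i)) t‖ ^ 2 := by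
    refine integral_congr_ae (Eventually.of_forall fun t => ?_)
    simp only
    rw [mul_comm 2 q, pow_mul, ← norm_pow, hpow t]
    rfl
  rw [e1]
  have h4 := (abs_le.mp hnd).2
  have e2 : ∑ i ∈ Icc 1 N, ‖((B i / Real.sqrt i : ℝ) : ℂ)‖ ^ 2 = ∑ m ∈ Icc 1 N, B m * B m / m := by
    refine sum_congr rfl fun m hm => ?_
    rw [Complex.norm_real, Real.norm_eq_abs, sq_abs, div_pow, Real.sq_sqrt (Nat.cast_nonneg _), sq]
  rw [e2] at h4
  have h5 : ∑ i ∈ Icc 1 N, ‖((B i / Real.sqrt i : ℝ) : ℂ)‖ ≤ T ^ ((J : ℝ) + 1) := by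
    have h6 : ∀ i ∈ Icc 1 N, ‖((B i / Real.sqrt i : ℝ) : ℂ)‖ ≤ Y ^ J := by
      intro i hi
      rw [mem_Icc] at hi
      have hi1 : (1 : ℝ) ≤ i := by exact_mod_cast hi.1
      have hiY : (i : ℝ) ≤ Y := le_trans (by exact_mod_cast hi.2) hNY
      rw [Complex.norm_real, Real.norm_of_nonneg (div_nonneg (hBn i) (Real.sqrt_nonneg _))]
      have hs : 1 ≤ Real.sqrt i := by rw [Real.one_le_sqrt]; exact hi1
      calc B i / Real.sqrt i ≤ B i := div_le_self (hBn i) hs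
        _ ≤ (i : ℝ) ^ J := hBle i
        _ ≤ Y ^ J := pow_le_pow_left₀ (by positivity) hiY J
    refine (sum_le_card_nsmul _ _ _ h6).trans ?_
    rw [nsmul_eq_mul, Nat.card_Icc, Nat.add_sub_cancel, Real.rpow_add hT0, Real.rpow_one,
      Real.rpow_natCast, mul_comm]
    have h7 : Y ^ J ≤ T ^ J := pow_le_pow_left₀ (by linarith) hYT J
    have h8 : (N : ℝ) ≤ T := hNY.trans hYT
    exact mul_le_mul h7 h8 (by positivity) (by positivity)
  have h9 : (∑ i ∈ Icc 1 N, ‖((B i / Real.sqrt i : ℝ) : ℂ)‖) ^ 2 *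
      ((k / T) / (1 / (2 * T ^ (1 - 2 * η)))) ^ (k + 1) ≤ 1 := by
    have h0 : 0 ≤ ∑ i ∈ Icc 1 N, ‖((B i / Real.sqrt i : ℝ) : ℂ)‖ :=
      sum_nonneg fun _ _ => norm_nonneg _
    calc _ ≤ (T ^ ((J : ℝ) + 1)) ^ 2 * T ^ (-(2 * ((J : ℝ) + 1))) :=
          mul_le_mul (pow_le_pow_left₀ h0 h5 2) (hsp k hkr) (by positivity) (by positivity)
      _ = 1 := by
          rw [← Real.rpow_natCast, ← Real.rpow_mul hT0.le, ← Real.rpow_add hT0]
          push_cast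
          rw [show ((J : ℝ) + 1) * 2 + -(2 * ((J : ℝ) + 1)) = 0 by ring, Real.rpow_zero]
  have hK' : ∑ m ∈ Icc 1 N, B m * B m / m ≤ C' * Real.log Y ^ ((q * e) ^ 2) := hK
  linarith

end

end Pool.Agent.Y756.T
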