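import Pool.Agent.H223.EM.FinalA

set_option autoImplicit false

/-! The twisted second moment: individual twists in the hyperbolic region. -/

namespace Pool.Agent.Y756.T

open Finset Filter Topology MeasureTheory Complex
open Pool.Agent.H306R2 Pool.Agent.H306R2.SM Pool.Agent.H223.EM
open Pool.Agent.H303R2.EMT10 (tv_sub zc_nonneg tail_bd Zc log_bd)

noncomputable section

/-- pointwise bound for the error of the twisted second moment -/
theorem tv_near (ε : ℝ) (hε : 0 < ε) (hε1 : ε < 1) : ∀ᶠ T : ℝ in atTop, ∀ k : ℕ, kr' T k →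
    ∀ h l n : ℕ, 1 ≤ h → 1 ≤ l → 1 ≤ n → Nat.Coprime h l → (h : ℝ) * l * n ≤ T ^ (1 - ε) →
    ‖Tv k (Yf k T) h l n - (Mt k (Yf k T) h l n : ℂ)‖ ≤ T ^ (-6 : ℝ) := by
  obtain ⟨B, hB⟩ : ∃ B : ℕ, B = ⌈24 / ε⌉₊ + 2 := ⟨_, rfl⟩
  obtain ⟨C, A, hC, hK⟩ := Pool.Agent.H61R2.EM.Kc_tail B
  have evl : ∀ᶠ T : ℝ in atTop, (B : ℝ) + 1 ≤ Real.log T :=
    Real.tendsto_log_atTop.eventually_ge_atTop _
  filter_upwards [eventually_ge_atTop 6, log_bd (2 * Real.pi) 1 (ε / 2) (by positivity),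
    log_bd (2 * C * Zc) A 1 one_pos, evl] with T hT6 e1 e3 el
  intro k hk h l n hh hl hn hc hhl
  have hT0 : 0 < T := by linarith
  have hT1 : 1 ≤ T := by linarith
  obtain ⟨hk1, hk2⟩ := hk
  have hB0 : (0:ℝ) ≤ B := Nat.cast_nonneg _
  have hlog1 : 1 ≤ Real.log T := by linarith
  have hkB : B + 1 ≤ k := by
    have : (B : ℝ) + 1 ≤ k := by nlinarith
    exact_mod_cast this
  have hk0 : (1:ℝ) ≤ k := by
    have : 1 ≤ k := by omega
    exact_mod_cast this
  have hkpos : (0:ℝ) < k := by linarith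
  have hpi := Real.pi_pos
  have hpi3 := Real.pi_gt_three
  have hkA : (k : ℝ) ^ A ≤ (4 * Real.log T ^ 2) ^ A := pow_le_pow_left₀ hkpos.le hk2 A
  have hYdef : Yf k T = T / (2 * Real.pi * k) := rfl
  set U : ℝ := T ^ (ε / 2) with hU
  have hUpos : 0 < U := by rw [hU]; exact Real.rpow_pos_of_pos hT0 _
  have h2pk : 2 * Real.pi * k ≤ U := by
    refine le_trans ?_ e1
    rw [pow_one]
    exact mul_le_mul_of_nonneg_left hk2 (by positivity)
  have hTY : T ≤ U * Yf k T := by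
    rw [hYdef, mul_div_assoc', le_div_iff₀ (by positivity), mul_comm]
    exact mul_le_mul_of_nonneg_right h2pk hT0.le
  have hUle : U ≤ T := by
    conv_rhs => rw [← Real.rpow_one T]
    exact Real.rpow_le_rpow_of_exponent_le hT1 (by linarith)
  have hY1 : 1 ≤ Yf k T := by
    by_contra hcon
    push Not at hcon
    have : U * Yf k T < U * 1 := mul_lt_mul_of_pos_left hcon hUpos
    linarith
  have hY0 : 0 < Yf k T := by linarith
  obtain ⟨a1, a2, a3, a4⟩ := Pool.Agent.H303R2.EMT10.hp_mp h l n hh hl hc hn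
  have a4' : (hp h n : ℝ) * mp h l n ≤ T ^ (1 - ε) := by
    have : (hp h n : ℝ) * mp h l n ≤ (h : ℝ) * l * n := by exact_mod_cast a4
    linarith
  have a1' : (1 : ℝ) ≤ hp h n := by exact_mod_cast a1
  have a2' : (1 : ℝ) ≤ mp h l n := by exact_mod_cast a2
  have b0 : 0 < (mp h l n : ℝ) * (hp h n : ℝ) := by positivity
  have hTT : T ^ (1 - ε) ≤ T := by
    conv_rhs => rw [← Real.rpow_one T]
    exact Real.rpow_le_rpow_of_exponent_le hT1 (by linarith)
  have hkey : U * ((mp h l n : ℝ) * hp h n) ≤ Yf k T := by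
    have s1 : U * (U * T ^ (1 - ε)) = T := by
      rw [hU, ← Real.rpow_add hT0, ← Real.rpow_add hT0]
      conv_rhs => rw [← Real.rpow_one T]
      congr 1; ring
    have s2 : U * (U * ((mp h l n : ℝ) * hp h n)) ≤ U * Yf k T := by
      refine le_trans ?_ hTY
      rw [← s1]
      gcongr
      rw [mul_comm]
      exact a4'
    exact le_of_mul_le_mul_left s2 hUpos
  have hRb : ∀ i : Fin 2, ‖∑' j : ℕ, Dt i k (hp h n) (mp h l n) (-(1 / 4)) (Yf k T) j‖ ≤
      C * (k : ℝ) ^ A * (k.factorial : ℝ) * ((U ^ (B - 2))⁻¹ * T ^ 2) * Zc := by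
    intro i
    have h0 := tail_bd (fun i k σ σ' x h1 h2 h3 h4 hx =>
        Pool.Agent.H75R2.EM.Kc_shift i k σ σ' x h1 h2 h3 h4 hx) (by omega : 2 ≤ B) hC hK i k hkB
        (hp h n) (mp h l n) a1 a2 (Yf k T) T U hY0 hT0 hUpos 0 ?_ ?_ ?_
    · simpa using h0
    · intro j hj
      rw [le_div_iff₀ b0]
      have hj1 : (1 : ℝ) ≤ j := by exact_mod_cast hj
      have : Yf k T ≤ 4 * Real.pi ^ 2 * Yf k T * j := by
        have h9 : 1 ≤ 4 * Real.pi ^ 2 * j := by nlinarith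
        nlinarith
      linarith
    · intro j
      rw [div_le_div_iff₀ hT0 b0]
      have hj0 : (0:ℝ) ≤ j := Nat.cast_nonneg _
      have : (mp h l n : ℝ) * hp h n ≤ 4 * Real.pi ^ 2 * Yf k T * T := by
        have h8 : (mp h l n : ℝ) * hp h n ≤ T := by rw [mul_comm]; linarith
        have h9 : 1 ≤ 4 * Real.pi ^ 2 * Yf k T := by nlinarith
        nlinarith
      calc (j : ℝ) * ((mp h l n : ℝ) * hp h n) ≤ j * (4 * Real.pi ^ 2 * Yf k T * T) :=
            mul_le_mul_of_nonneg_left this hj0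
        _ = _ := by ring
    · obtain ⟨s0, s1, _⟩ := voronoi2 k (hp h n) (mp h l n) (by omega) a1 a2 a3 (Yf k T) hY0
      fin_cases i
      · exact s0
      · exact s1
  rw [tv_sub (fun k h m hk hh hm hc Y hY => voronoi2 k h m hk hh hm hc Y hY) k (by omega)
    (Yf k T) hY0 h l n hh hl hc hn, norm_mul, Complex.norm_real, Real.norm_eq_abs]
  have hkf : (0:ℝ) < (k.factorial : ℝ) := by exact_mod_cast Nat.factorial_pos k
  have c2 : |Pool.Agent.H303R2.EMT10.cf k (Yf k T) h l n| ≤ T / (k.factorial : ℝ) := by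
    unfold Pool.Agent.H303R2.EMT10.cf
    have hsq : Real.sqrt ((mp h l n : ℝ) * hp h n) ≤ T := by
      rw [Real.sqrt_le_left hT0.le, mul_comm]
      nlinarith
    rw [abs_of_nonneg (by positivity)]
    rw [div_le_div_iff₀ (by positivity) hkf]
    have e1 : (k.factorial : ℝ) ≤ 2 * Real.pi ^ 2 * (k.factorial : ℝ) * Yf k T := by
      have : 1 ≤ 2 * Real.pi ^ 2 * Yf k T := by nlinarith
      nlinarith
    exact mul_le_mul hsq e1 hkf.le hT0.le
  have c3 := norm_add_le (∑' j : ℕ, Dt 0 k (hp h n) (mp h l n) (-(1 / 4)) (Yf k T) j)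
    (∑' j : ℕ, Dt 1 k (hp h n) (mp h l n) (-(1 / 4)) (Yf k T) j)
  have c4 := hRb 0
  have c5 := hRb 1
  have hz := zc_nonneg
  set G : ℝ := C * (k : ℝ) ^ A * ((U ^ (B - 2))⁻¹ * T ^ 2) * Zc with hG
  have hG0 : 0 ≤ G := by positivity
  have c6 : ‖(∑' j : ℕ, Dt 0 k (hp h n) (mp h l n) (-(1 / 4)) (Yf k T) j) +
      ∑' j : ℕ, Dt 1 k (hp h n) (mp h l n) (-(1 / 4)) (Yf k T) j‖ ≤ 2 * ((k.factorial : ℝ) * G) := by
    refine c3.trans ?_
    have : C * (k : ℝ) ^ A * (k.factorial : ℝ) * ((U ^ (B - 2))⁻¹ * T ^ 2) * Zc =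
        (k.factorial : ℝ) * G := by rw [hG]; ring
    rw [this] at c4 c5
    linarith
  have q1 : 2 * C * Zc * (k : ℝ) ^ A ≤ T := by
    have := (mul_le_mul_of_nonneg_left hkA (by positivity : 0 ≤ 2 * C * Zc)).trans e3
    rwa [Real.rpow_one] at this
  have q2 : T ^ (12 : ℝ) ≤ U ^ (B - 2) := by
    rw [hU, ← Real.rpow_natCast, ← Real.rpow_mul hT0.le]
    apply Real.rpow_le_rpow_of_exponent_le hT1
    have : B - 2 = ⌈24 / ε⌉₊ := by omega
    rw [this]
    have h1 := Nat.le_ceil (24 / ε)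
    have h2 := mul_le_mul_of_nonneg_left h1 (by positivity : 0 ≤ ε / 2)
    refine le_trans (le_of_eq ?_) h2
    field_simp
    norm_num
  have hT8 : 0 < T ^ (12 : ℝ) := Real.rpow_pos_of_pos hT0 _
  calc |Pool.Agent.H303R2.EMT10.cf k (Yf k T) h l n| * ‖(∑' j : ℕ, Dt 0 k (hp h n) (mp h l n) (-(1 / 4)) (Yf k T) j) +
      ∑' j : ℕ, Dt 1 k (hp h n) (mp h l n) (-(1 / 4)) (Yf k T) j‖
      ≤ T / (k.factorial : ℝ) * (2 * ((k.factorial : ℝ) * G)) := by gcongr
    _ = T * ((2 * C * Zc * (k : ℝ) ^ A) * ((U ^ (B - 2))⁻¹ * T ^ 2)) := by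
        rw [hG]; field_simp
    _ ≤ T * (T * ((T ^ (12 : ℝ))⁻¹ * T ^ 2)) := by gcongr
    _ = T ^ (-8 : ℝ) := by
        rw [← Real.rpow_neg hT0.le]
        have e4 : T * (T * (T ^ (-12 : ℝ) * T ^ 2)) = T ^ (4 : ℝ) * T ^ (-12 : ℝ) := by
          rw [show (4 : ℝ) = ((4 : ℕ) : ℝ) by norm_num, Real.rpow_natCast]; ring
        rw [e4, ← Real.rpow_add hT0]
        norm_num
    _ ≤ T ^ (-6 : ℝ) := Real.rpow_le_rpow_of_exponent_le hT1 (by norm_num)

end

end Pool.Agent.Y756.T
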