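import Pool.Agent.Y756.T.Am
import Pool.Agent.Y756.T.IntC
import Pool.Agent.H306R2.SM.Asm6
import Pool.Agent.H284R2.EM_MH

set_option autoImplicit false

/-! Hölder's inequality and the functional lower bound for the fifth moment. -/

namespace Pool.Agent.Y756.T

open Finset Filter Topology MeasureTheory Complex
open Pool.Agent.H306R2 Pool.Agent.H306R2.SM
open Pool.Agent.H223.EM hiding mw
open Pool.Agent.H133R2.EM11 (Af Cf PG_Af PG_Cf Af_norm Cf_norm z2_bound)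

noncomputable section

lemma young5 {x y ν : ℝ} (hx : 0 ≤ x) (hν : 0 < ν) :
    x ^ 4 * y ^ 2 ≤ (4 * ν⁻¹ * x ^ 5 + ν ^ 4 * y ^ 10) / 5 := by
  set b := ν * y ^ 2 with hb
  have hb0 : 0 ≤ b := by positivity
  have h1 : 0 ≤ (x - b) ^ 2 * (4 * x ^ 3 + 3 * x ^ 2 * b + 2 * x * b ^ 2 + b ^ 3) := by positivity
  have h2 : (x - b) ^ 2 * (4 * x ^ 3 + 3 * x ^ 2 * b + 2 * x * b ^ 2 + b ^ 3) =
      4 * x ^ 5 - 5 * x ^ 4 * b + b ^ 5 := by ring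
  rw [h2] at h1
  have h3 : x ^ 4 * y ^ 2 * ν ≤ (4 * x ^ 5 + ν ^ 5 * y ^ 10) / 5 := by
    have : b ^ 5 = ν ^ 5 * y ^ 10 := by rw [hb]; ring
    rw [this] at h1
    have h4 : x ^ 4 * b = x ^ 4 * y ^ 2 * ν := by rw [hb]; ring
    linarith
  have h5 : (4 * ν⁻¹ * x ^ 5 + ν ^ 4 * y ^ 10) / 5 = (4 * x ^ 5 + ν ^ 5 * y ^ 10) / 5 / ν := by
    field_simp
  rw [h5, le_div_iff₀ hν]
  exact h3

/-- integrability helper -/
lemma ipow {f : ℝ → ℂ} (hf : Pool.Agent.H284R2.EM.PG f) (k : ℕ) {δ : ℝ} (hδ : 0 < δ) (n : ℕ) :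
    IntegrableOn (fun t : ℝ => om k δ t * ‖f t‖ ^ n) (Set.Ioi 0) := by
  simpa [norm_pow] using (hf.pow n).intPow k hδ

lemma hold5 {k : ℕ} {δ : ℝ} (hδ : 0 < δ) {A C : ℝ → ℂ} (pA : Pool.Agent.H284R2.EM.PG A)
    (pC : Pool.Agent.H284R2.EM.PG C) {ν : ℝ} (hν : 0 < ν) :
    ‖∫ t in Set.Ioi (0 : ℝ), (om k δ t : ℂ) * (riemannZeta (cl t) ^ 2 * Xf (cl t)) * A t * C t‖ ^ 2 ≤
      ((4 * ν⁻¹ * (∫ t in Set.Ioi (0 : ℝ), om k δ t * ‖riemannZeta (cl t)‖ ^ 5) +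
        ν ^ 4 * (∫ t in Set.Ioi (0 : ℝ), om k δ t * ‖A t‖ ^ 10)) / 5) *
      (∫ t in Set.Ioi (0 : ℝ), om k δ t * ‖C t‖ ^ 2) := by
  have pz := Pool.Agent.H284R2.EM.PG.zeta
  have pzA : Pool.Agent.H284R2.EM.PG (fun t => riemannZeta (cl t) ^ 2 * A t) := (pz.pow 2).mul pA
  have h1 : ‖∫ t in Set.Ioi (0 : ℝ), (om k δ t : ℂ) * (riemannZeta (cl t) ^ 2 * Xf (cl t)) * A t * C t‖ ≤
      ∫ t in Set.Ioi (0 : ℝ), om k δ t * (‖riemannZeta (cl t) ^ 2 * A t‖ * ‖C t‖) := by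
    refine (norm_integral_le_integral_norm _).trans (le_of_eq ?_)
    refine setIntegral_congr_fun measurableSet_Ioi fun t ht => ?_
    simp only [norm_mul, Complex.norm_real, Real.norm_of_nonneg (om_nonneg k hδ (le_of_lt ht)),
      Pool.Agent.H768R2.SM_T0c.Xf_line]
    ring
  have h2 := Pool.Agent.H284R2.EM.cs k hδ pzA pC
  have h3 : ∫ t in Set.Ioi (0 : ℝ), om k δ t * ‖riemannZeta (cl t) ^ 2 * A t‖ ^ 2 ≤
      (4 * ν⁻¹ * (∫ t in Set.Ioi (0 : ℝ), om k δ t * ‖riemannZeta (cl t)‖ ^ 5) +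
        ν ^ 4 * (∫ t in Set.Ioi (0 : ℝ), om k δ t * ‖A t‖ ^ 10)) / 5 := by
    have i1 := ipow pz k hδ 5
    have i2 := ipow pA k hδ 10
    have e : (4 * ν⁻¹ * (∫ t in Set.Ioi (0 : ℝ), om k δ t * ‖riemannZeta (cl t)‖ ^ 5) +
        ν ^ 4 * (∫ t in Set.Ioi (0 : ℝ), om k δ t * ‖A t‖ ^ 10)) / 5 =
        ∫ t in Set.Ioi (0 : ℝ), (4 * ν⁻¹ / 5 * (om k δ t * ‖riemannZeta (cl t)‖ ^ 5) +
          ν ^ 4 / 5 * (om k δ t * ‖A t‖ ^ 10)) := by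
      rw [integral_add (i1.const_mul _) (i2.const_mul _), integral_const_mul, integral_const_mul]
      ring
    rw [e]
    refine setIntegral_mono_on (ipow pzA k hδ 2) ((i1.const_mul _).add (i2.const_mul _))
      measurableSet_Ioi fun t ht => ?_
    have hn := om_nonneg k hδ (le_of_lt ht)
    have hy := young5 (x := ‖riemannZeta (cl t)‖) (y := ‖A t‖) (norm_nonneg _) hν
    rw [norm_mul, norm_pow, mul_pow, ← pow_mul]
    calc om k δ t * (‖riemannZeta (cl t)‖ ^ (2 * 2) * ‖A t‖ ^ 2)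
        ≤ om k δ t * ((4 * ν⁻¹ * ‖riemannZeta (cl t)‖ ^ 5 + ν ^ 4 * ‖A t‖ ^ 10) / 5) :=
          mul_le_mul_of_nonneg_left hy hn
      _ = _ := by ring
  have hC0 : 0 ≤ ∫ t in Set.Ioi (0 : ℝ), om k δ t * ‖C t‖ ^ 2 :=
    setIntegral_nonneg measurableSet_Ioi fun t ht =>
      mul_nonneg (om_nonneg k hδ (le_of_lt ht)) (by positivity)
  refine (pow_le_pow_left₀ (norm_nonneg _) h1 2).trans (h2.trans ?_)
  exact mul_le_mul_of_nonneg_right h3 hC0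

/-- crude bound for the error integral -/
lemma err_int {k : ℕ} {δ : ℝ} (hδ : 0 < δ) {C : ℝ → ℂ} (pC : Pool.Agent.H284R2.EM.PG C) :
    ∫ t in Set.Ioi (0 : ℝ), om k δ t * (‖riemannZeta (cl t)‖ ^ 2 * ‖C t‖) ≤
      1 + (∫ t in Set.Ioi (0 : ℝ), om k δ t * ‖riemannZeta (cl t)‖ ^ 5) +
        ∫ t in Set.Ioi (0 : ℝ), om k δ t * ‖C t‖ ^ 2 := by
  have pz := Pool.Agent.H284R2.EM.PG.zeta
  have i0 : IntegrableOn (fun t : ℝ => om k δ t) (Set.Ioi 0) := by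
    have := ipow pz k hδ 0
    simpa using this
  have i1 := ipow pz k hδ 5
  have i2 := ipow pC k hδ 2
  have i3 : IntegrableOn (fun t : ℝ => om k δ t * (‖riemannZeta (cl t)‖ ^ 2 * ‖C t‖)) (Set.Ioi 0) := by
    have := ((pz.pow 2).mul pC).intPow k hδ
    refine this.congr (Eventually.of_forall fun t => ?_)
    simp only [norm_mul, norm_pow]
  have i01 : IntegrableOn (fun t : ℝ => om k δ t + om k δ t * ‖riemannZeta (cl t)‖ ^ 5)
    (Set.Ioi 0) := i0.add i1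
  rw [← om_mass k hδ, ← integral_add i0 i1, ← integral_add i01 i2]
  refine setIntegral_mono_on i3 (i01.add i2) measurableSet_Ioi fun t ht => ?_
  have hn := om_nonneg k hδ (le_of_lt ht)
  have hx : 0 ≤ ‖riemannZeta (cl t)‖ := norm_nonneg _
  have hy : 0 ≤ ‖C t‖ := norm_nonneg _
  set x := ‖riemannZeta (cl t)‖
  set y := ‖C t‖
  have h1 : x ^ 4 ≤ 1 + x ^ 5 := by
    by_cases h : x ≤ 1
    · have : x ^ 4 ≤ 1 := pow_le_one₀ hx h
      have : 0 ≤ x ^ 5 := by positivity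
      linarith
    · push Not at h
      have : x ^ 4 ≤ x ^ 5 := pow_le_pow_right₀ h.le (by norm_num)
      linarith
  have h2 : x ^ 2 * y ≤ 1 + x ^ 5 + y ^ 2 := by
    nlinarith [sq_nonneg (x ^ 2 - y), sq_nonneg y]
  calc om k δ t * (x ^ 2 * y) ≤ om k δ t * (1 + x ^ 5 + y ^ 2) := mul_le_mul_of_nonneg_left h2 hn
    _ = _ := by ring

/-- the tenth moment of the polynomial -/
theorem Am5 (κ : ℝ) (hκ : aF (5 / 2) * ((1999 / 10000 : ℝ) ^ (5 / 4 : ℝ) / Real.Gamma (9 / 4)) ^ 5 < κ) :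
    ∀ᶠ T : ℝ in atTop, ∀ k : ℕ, kr' T k →
      ∫ t in Set.Ioi (0 : ℝ), om k (k / T) t *
        ‖Af ⌊T ^ (1999 / 10000 : ℝ)⌋₊ (dv (1 / 2)) t‖ ^ 10 ≤ κ * Real.log T ^ (25 / 4 : ℝ) := by
  have h := Am (1 / 2) (by norm_num) 5 (by norm_num) (1 / 4000) (by norm_num) (by norm_num)
    (κ / (9995 / 10000 : ℝ) ^ (25 / 4 : ℝ)) (by
      rw [lt_div_iff₀ (by positivity)]
      refine lt_of_eq_of_lt ?_ hκ
      have e1 : ((5 : ℕ) : ℝ) * (1 / 2) = 5 / 2 := by norm_num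
      have e2 : (5 / 2 : ℝ) * (1 / 2) = 5 / 4 := by norm_num
      have e3 : (5 / 4 : ℝ) + 1 = 9 / 4 := by norm_num
      rw [e1, e2, e3]
      have e4 : (1999 / 10000 : ℝ) = 1 / ((5 : ℕ) : ℝ) * (9995 / 10000) := by norm_num
      have e5 : (9995 / 10000 : ℝ) ^ (25 / 4 : ℝ) = ((9995 / 10000 : ℝ) ^ (5 / 4 : ℝ)) ^ 5 := by
        rw [← Real.rpow_natCast, ← Real.rpow_mul (by norm_num)]
        norm_num
      rw [e4, Real.mul_rpow (by norm_num) (by norm_num), e5]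
      ring)
  filter_upwards [h, eventually_gt_atTop 1] with T h hT k hk
  have hT0 : 0 < T := by linarith
  have hL : 0 < Real.log T := Real.log_pos hT
  have h1 := h k hk
  have eY : Yt (1 / 4000) T = T ^ (9995 / 10000 : ℝ) := by
    unfold Yt; norm_num
  have eX : Yt (1 / 4000) T ^ (1 / ((5 : ℕ) : ℝ)) = T ^ (1999 / 10000 : ℝ) := by
    rw [eY, ← Real.rpow_mul hT0.le]; norm_num
  rw [eX] at h1
  have eA : ∀ t, Af ⌊T ^ (1999 / 10000 : ℝ)⌋₊ (tr (dA (1 / 2)) (T ^ (1999 / 10000 : ℝ))) t =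
      Af ⌊T ^ (1999 / 10000 : ℝ)⌋₊ (dv (1 / 2)) t := by
    intro t
    unfold Af
    refine sum_congr rfl fun n hn => ?_
    rw [mem_Icc] at hn
    rw [tr_apply, if_pos ((Nat.le_floor_iff (by positivity)).mp hn.2), dA_apply]
  simp only [eA] at h1
  refine h1.trans (le_of_eq ?_)
  rw [eY, Real.log_rpow hT0, Real.mul_rpow (by norm_num) hL.le]
  have e6 : ((5 : ℕ) : ℝ) * (1 / 2) = 5 / 2 := by norm_num
  have e7 : ((5 / 2 : ℝ)) ^ 2 = 25 / 4 := by norm_num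
  rw [e6, e7]
  have : (0 : ℝ) < (9995 / 10000 : ℝ) ^ (25 / 4 : ℝ) := by positivity
  field_simp

end
end Pool.Agent.Y756.T
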