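import Pool.Agent.Y756.T.LocT
import Pool.Agent.TH535.WtInt

set_option autoImplicit false

/-! The weights as functions of integers. -/

namespace Pool.Agent.Y756.T

open Finset Filter Topology Pool.Agent.H306R2 Pool.Agent.TH535.MA
open Pool.Agent.TH535 (dv_eq inv_eq)

noncomputable section

/-- the multiplicative function with local values `rl` -/
def rr (c : ℝ) (n : ℕ) : ℝ :=
  if n = 0 then 0 else n.factorization.prod fun p e => rl c (1 / (p : ℝ)) e

lemma rr_eq (c : ℝ) {P : Finset ℕ} {n : ℕ} (hn : n ≠ 0) (hPp : ∀ p ∈ P, p.Prime)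
    (hP : n.primeFactors ⊆ P) :
    rr c n = ∏ p ∈ P, rl c (1 / (p : ℝ)) (n.factorization p) := by
  unfold rr
  rw [if_neg hn]
  unfold Finsupp.prod
  rw [Nat.support_factorization]
  refine prod_subset hP fun p hp hp' => ?_
  have : n.factorization p = 0 := by
    rw [← Finsupp.notMem_support_iff, Nat.support_factorization]; exact hp'
  rw [this]
  obtain ⟨h0, h1, -⟩ := prime_lt (hPp p hp)
  exact rl_zero h0 h1

lemma rr_nonneg {c : ℝ} (hc : 0 ≤ c) (n : ℕ) : 0 ≤ rr c n := by
  unfold rr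
  split_ifs
  · exact le_rfl
  · unfold Finsupp.prod
    refine prod_nonneg fun p hp => ?_
    rw [Nat.support_factorization] at hp
    obtain ⟨h0, h1, -⟩ := prime_lt (Nat.prime_of_mem_primeFactors hp)
    exact rl_nonneg hc h0.le h1 _

lemma rr_zero (c : ℝ) : rr c 0 = 0 := by simp [rr]

lemma fact_zero_of_coprime {x y p : ℕ} (h : Nat.Coprime x y) :
    x.factorization p = 0 ∨ y.factorization p = 0 := by
  by_contra hcon
  push Not at hcon
  have h1 : p ∈ x.primeFactors := by
    rw [← Nat.support_factorization, Finsupp.mem_support_iff]; exact hcon.1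
  have h2 : p ∈ y.primeFactors := by
    rw [← Nat.support_factorization, Finsupp.mem_support_iff]; exact hcon.2
  exact (Finset.disjoint_left.1 h.disjoint_primeFactors h1) h2

lemma exists_prime_of_not_coprime {x y : ℕ} (hx : x ≠ 0) (hy : y ≠ 0) (h : ¬ Nat.Coprime x y) :
    ∃ p : ℕ, p.Prime ∧ p ∣ x ∧ x.factorization p ≠ 0 ∧ y.factorization p ≠ 0 := by
  obtain ⟨p, hp, h4, h5⟩ := Nat.Prime.not_coprime_iff_dvd.1 h
  exact ⟨p, hp, h4, (hp.factorization_pos_of_dvd hx h4).ne', (hp.factorization_pos_of_dvd hy h5).ne'⟩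

open Classical in
theorem mw_lam2 (c : ℝ) (b : Fin 2 → ℕ) :
    mw (lam2 c) b = if (∀ i, b i ≠ 0) ∧ Nat.Coprime (b 0) (b 1) then
      rr c (b 0) ^ 2 * (1 / ((b 0 * b 1 : ℕ) : ℝ)) else 0 := by
  unfold mw
  by_cases hb : ∀ x, b x ≠ 0
  · rw [if_pos hb]
    set P := (∏ x, b x).primeFactors with hPdef
    have hprod : (∏ x, b x) ≠ 0 := prod_ne_zero_iff.2 fun x _ => hb x
    have hsub : ∀ x, (b x).primeFactors ⊆ P := fun x =>
      Nat.primeFactors_mono (dvd_prod_of_mem b (mem_univ x)) hprod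
    have hPp : ∀ p ∈ P, p.Prime := fun p hp => Nat.prime_of_mem_primeFactors hp
    have h01 : b 0 * b 1 ≠ 0 := mul_ne_zero (hb 0) (hb 1)
    by_cases hc : Nat.Coprime (b 0) (b 1)
    · rw [if_pos ⟨hb, hc⟩]
      have hloc : ∀ p ∈ P, lam2 c p (fun x => (b x).factorization p) =
          rl c (1 / (p : ℝ)) ((b 0).factorization p) ^ 2 *
            (1 / (p : ℝ)) ^ ((b 0 * b 1).factorization p) := by
        intro p _
        unfold lam2
        rw [if_pos (fact_zero_of_coprime hc), Nat.factorization_mul (hb 0) (hb 1), Finsupp.add_apply]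
      rw [prod_congr rfl hloc, prod_mul_distrib, prod_pow, ← rr_eq c (hb 0) hPp (hsub 0),
        ← inv_eq h01 (by
          rw [Nat.primeFactors_mul (hb 0) (hb 1)]; exact union_subset (hsub 0) (hsub 1))]
    · rw [if_neg (fun h => hc h.2)]
      obtain ⟨p, hp, h1, h2, h3⟩ := exists_prime_of_not_coprime (hb 0) (hb 1) hc
      refine prod_eq_zero (i := p) ?_ ?_
      · rw [hPdef, Nat.mem_primeFactors]
        exact ⟨hp, h1.trans (dvd_prod_of_mem b (mem_univ 0)), hprod⟩
      · unfold lam2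
        rw [if_neg]
        rintro (h | h)
        · exact h2 h
        · exact h3 h
  · rw [if_neg hb, if_neg (fun h => hb h.1)]

open Classical in
theorem mw_lam4 (a : ℝ) (b : Fin 4 → ℕ) :
    mw (lam4 a) b = if (∀ i, b i ≠ 0) ∧ Nat.Coprime (b 0) (b 3) ∧ Nat.Coprime (b 0 * b 1) (b 2) then
      rr (a + 1) (b 0 * b 1) * dv a (b 1 * b 3) * (1 / ((b 0 * b 1 * b 2 * b 3 : ℕ) : ℝ)) else 0 := by
  unfold mw
  by_cases hb : ∀ x, b x ≠ 0
  · rw [if_pos hb]
    set P := (∏ x, b x).primeFactors with hPdef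
    have hprod : (∏ x, b x) ≠ 0 := prod_ne_zero_iff.2 fun x _ => hb x
    have hsub : ∀ x, (b x).primeFactors ⊆ P := fun x =>
      Nat.primeFactors_mono (dvd_prod_of_mem b (mem_univ x)) hprod
    have hPp : ∀ p ∈ P, p.Prime := fun p hp => Nat.prime_of_mem_primeFactors hp
    have h01 : b 0 * b 1 ≠ 0 := mul_ne_zero (hb 0) (hb 1)
    have h13 : b 1 * b 3 ≠ 0 := mul_ne_zero (hb 1) (hb 3)
    have h012 : b 0 * b 1 * b 2 ≠ 0 := mul_ne_zero h01 (hb 2)
    have h0123 : b 0 * b 1 * b 2 * b 3 ≠ 0 := mul_ne_zero h012 (hb 3)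
    have hmul : ∀ x y : ℕ, x ≠ 0 → y ≠ 0 → x.primeFactors ⊆ P → y.primeFactors ⊆ P →
        (x * y).primeFactors ⊆ P := by
      intro x y hx hy h1 h2
      rw [Nat.primeFactors_mul hx hy]
      exact union_subset h1 h2
    have s01 := hmul _ _ (hb 0) (hb 1) (hsub 0) (hsub 1)
    have s13 := hmul _ _ (hb 1) (hb 3) (hsub 1) (hsub 3)
    have s012 := hmul _ _ h01 (hb 2) s01 (hsub 2)
    have s0123 := hmul _ _ h012 (hb 3) s012 (hsub 3)
    by_cases hc : Nat.Coprime (b 0) (b 3) ∧ Nat.Coprime (b 0 * b 1) (b 2)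
    · rw [if_pos ⟨hb, hc⟩]
      have hloc : ∀ p ∈ P, lam4 a p (fun x => (b x).factorization p) =
          rl (a + 1) (1 / (p : ℝ)) ((b 0 * b 1).factorization p) *
            lc a ((b 1 * b 3).factorization p) *
            (1 / (p : ℝ)) ^ ((b 0 * b 1 * b 2 * b 3).factorization p) := by
        intro p _
        unfold lam4
        have e01 : (b 0 * b 1).factorization p = (b 0).factorization p + (b 1).factorization p := by
          rw [Nat.factorization_mul (hb 0) (hb 1), Finsupp.add_apply]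
        have e13 : (b 1 * b 3).factorization p = (b 1).factorization p + (b 3).factorization p := by
          rw [Nat.factorization_mul (hb 1) (hb 3), Finsupp.add_apply]
        have e0 : (b 0 * b 1 * b 2 * b 3).factorization p = (b 0).factorization p +
            (b 1).factorization p + (b 2).factorization p + (b 3).factorization p := by
          rw [Nat.factorization_mul h012 (hb 3), Nat.factorization_mul h01 (hb 2), Finsupp.add_apply,
            Finsupp.add_apply, e01]
        have c2 := fact_zero_of_coprime (p := p) hc.2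
        rw [e01] at c2
        rw [if_pos ⟨fact_zero_of_coprime hc.1, c2⟩, e01, e13, e0]
      rw [prod_congr rfl hloc, prod_mul_distrib, prod_mul_distrib, ← rr_eq (a + 1) h01 hPp s01,
        ← dv_eq a h13 s13, ← inv_eq h0123 s0123]
    · rw [if_neg (fun h => hc h.2)]
      by_cases c1 : Nat.Coprime (b 0) (b 3)
      · have c2 : ¬ Nat.Coprime (b 0 * b 1) (b 2) := fun h => hc ⟨c1, h⟩
        obtain ⟨p, hp, h1, h2, h3⟩ := exists_prime_of_not_coprime h01 (hb 2) c2
        refine prod_eq_zero (i := p) ?_ ?_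
        · rw [hPdef, Nat.mem_primeFactors]
          refine ⟨hp, ?_, hprod⟩
          rw [Fin.prod_univ_four]
          exact (h1.trans (Nat.dvd_mul_right _ _)).trans (Nat.dvd_mul_right _ _)
        · unfold lam4
          rw [if_neg]
          rintro ⟨-, h | h⟩
          · rw [Nat.factorization_mul (hb 0) (hb 1), Finsupp.add_apply] at h2
            exact h2 h
          · exact h3 h
      · obtain ⟨p, hp, h1, h2, h3⟩ := exists_prime_of_not_coprime (hb 0) (hb 3) c1
        refine prod_eq_zero (i := p) ?_ ?_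
        · rw [hPdef, Nat.mem_primeFactors]
          exact ⟨hp, h1.trans (dvd_prod_of_mem b (mem_univ 0)), hprod⟩
        · unfold lam4
          rw [if_neg]
          rintro ⟨h | h, -⟩
          · exact h2 h
          · exact h3 h
  · rw [if_neg hb, if_neg (fun h => hb h.1)]

open Classical in
theorem mw_lam3 (a : ℝ) (b : Fin 3 → ℕ) :
    mw (lam3 a) b = if (∀ i, b i ≠ 0) ∧ Nat.Coprime (b 0) (b 1) then
      dv a (b 0 * b 2) * dv a (b 1 * b 2) * (1 / ((b 0 * b 1 * b 2 : ℕ) : ℝ)) else 0 := by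
  unfold mw
  by_cases hb : ∀ x, b x ≠ 0
  · rw [if_pos hb]
    set P := (∏ x, b x).primeFactors with hPdef
    have hprod : (∏ x, b x) ≠ 0 := prod_ne_zero_iff.2 fun x _ => hb x
    have hsub : ∀ x, (b x).primeFactors ⊆ P := fun x =>
      Nat.primeFactors_mono (dvd_prod_of_mem b (mem_univ x)) hprod
    have h01 : b 0 * b 1 ≠ 0 := mul_ne_zero (hb 0) (hb 1)
    have h02 : b 0 * b 2 ≠ 0 := mul_ne_zero (hb 0) (hb 2)
    have h12 : b 1 * b 2 ≠ 0 := mul_ne_zero (hb 1) (hb 2)
    have h012 : b 0 * b 1 * b 2 ≠ 0 := mul_ne_zero h01 (hb 2)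
    have hmul : ∀ x y : ℕ, x ≠ 0 → y ≠ 0 → x.primeFactors ⊆ P → y.primeFactors ⊆ P →
        (x * y).primeFactors ⊆ P := by
      intro x y hx hy h1 h2
      rw [Nat.primeFactors_mul hx hy]
      exact union_subset h1 h2
    have s01 := hmul _ _ (hb 0) (hb 1) (hsub 0) (hsub 1)
    have s02 := hmul _ _ (hb 0) (hb 2) (hsub 0) (hsub 2)
    have s12 := hmul _ _ (hb 1) (hb 2) (hsub 1) (hsub 2)
    have s012 := hmul _ _ h01 (hb 2) s01 (hsub 2)
    by_cases hc : Nat.Coprime (b 0) (b 1)
    · rw [if_pos ⟨hb, hc⟩]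
      have hloc : ∀ p ∈ P, lam3 a p (fun x => (b x).factorization p) =
          lc a ((b 0 * b 2).factorization p) * lc a ((b 1 * b 2).factorization p) *
            (1 / (p : ℝ)) ^ ((b 0 * b 1 * b 2).factorization p) := by
        intro p _
        unfold lam3
        rw [if_pos (fact_zero_of_coprime hc), Nat.factorization_mul h01 (hb 2),
          Nat.factorization_mul (hb 0) (hb 1), Nat.factorization_mul (hb 0) (hb 2),
          Nat.factorization_mul (hb 1) (hb 2)]
        simp only [Finsupp.add_apply]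
      rw [prod_congr rfl hloc, prod_mul_distrib, prod_mul_distrib, ← dv_eq a h02 s02,
        ← dv_eq a h12 s12, ← inv_eq h012 s012]
    · rw [if_neg (fun h => hc h.2)]
      obtain ⟨p, hp, h1, h2, h3⟩ := exists_prime_of_not_coprime (hb 0) (hb 1) hc
      refine prod_eq_zero (i := p) ?_ ?_
      · rw [hPdef, Nat.mem_primeFactors]
        exact ⟨hp, h1.trans (dvd_prod_of_mem b (mem_univ 0)), hprod⟩
      · unfold lam3
        rw [if_neg]
        rintro (h | h)
        · exact h2 h
        · exact h3 h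
  · rw [if_neg hb, if_neg (fun h => hb h.1)]

end

end Pool.Agent.Y756.T
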