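import Pool.Agent.Y756.T.SumS
import Pool.Agent.TH535.Vol

set_option autoImplicit false

namespace Pool.Agent.Y756.T

open Finset Filter Topology MeasureTheory Pool.Agent.H306R2
open Pool.Agent.TH535 (posI GdI kar lint_gd_ct lint_beta)
open scoped ENNReal

noncomputable section

lemma fubS {n : ℕ} (i : Fin (n + 1)) (f : (Fin (n + 1) → ℝ) → ℝ≥0∞) (hf : Measurable f) :
    ∫⁻ x, f x = ∫⁻ a : ℝ, ∫⁻ y : Fin n → ℝ, f (i.insertNth a y) := by
  have h := (volume_preserving_piFinSuccAbove (fun _ : Fin (n+1) => ℝ) i).symm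
  rw [← h.lintegral_comp_emb (MeasurableEquiv.measurableEmbedding _)]
  rw [Measure.volume_eq_prod, lintegral_prod
    (fun x : ℝ × (Fin n → ℝ) => f ((MeasurableEquiv.piFinSuccAbove (fun _ : Fin (n+1) => ℝ) i).symm x))
    (hf.comp (MeasurableEquiv.piFinSuccAbove (fun _ : Fin (n+1) => ℝ) i).symm.measurable).aemeasurable]
  rfl

lemma ins_meas {n : ℕ} (i : Fin (n + 1)) (a : ℝ) :
    Measurable (fun y : Fin n → ℝ => (i.insertNth a y : Fin (n + 1) → ℝ)) :=
  (MeasurableEquiv.piFinSuccAbove (fun _ : Fin (n+1) => ℝ) i).symm.measurable.comp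
    measurable_prodMk_left

lemma fub0 (f : (Fin 0 → ℝ) → ℝ≥0∞) : ∫⁻ y, f y = f ![] := by
  rw [volume_pi, Measure.pi_of_empty, lintegral_dirac]
  congr 1

lemma fub1 (f : (Fin 1 → ℝ) → ℝ≥0∞) (hf : Measurable f) : ∫⁻ y, f y = ∫⁻ a : ℝ, f ![a] := by
  rw [fubS 0 f hf]
  refine lintegral_congr fun a => ?_
  rw [fub0]
  congr 1
  funext i
  fin_cases i
  rfl

lemma fub2 (f : (Fin 2 → ℝ) → ℝ≥0∞) (hf : Measurable f) :
    ∫⁻ y, f y = ∫⁻ a : ℝ, ∫⁻ b : ℝ, f ![a, b] := by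
  rw [fubS 0 f hf]
  refine lintegral_congr fun a => ?_
  rw [fub1 (fun y => f (Fin.insertNth 0 a y)) (hf.comp (ins_meas 0 a))]
  refine lintegral_congr fun b => ?_
  congr 1
  funext i
  fin_cases i <;> rfl

lemma fub3 (f : (Fin 3 → ℝ) → ℝ≥0∞) (hf : Measurable f) :
    ∫⁻ y, f y = ∫⁻ a : ℝ, ∫⁻ b : ℝ, ∫⁻ c : ℝ, f ![a, b, c] := by
  rw [fubS 0 f hf]
  refine lintegral_congr fun a => ?_
  rw [fub2 (fun y => f (Fin.insertNth 0 a y)) (hf.comp (ins_meas 0 a))]
  refine lintegral_congr fun b => lintegral_congr fun c => ?_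
  congr 1
  funext i
  fin_cases i <;> rfl

/-- iterated integral with the second variable outermost -/
lemma fub4 (f : (Fin 4 → ℝ) → ℝ≥0∞) (hf : Measurable f) :
    ∫⁻ y, f y = ∫⁻ b : ℝ, ∫⁻ u : ℝ, ∫⁻ y : ℝ, ∫⁻ z : ℝ, f ![u, b, y, z] := by
  rw [fubS 1 f hf]
  refine lintegral_congr fun b => ?_
  rw [fub3 (fun y => f (Fin.insertNth 1 b y)) (hf.comp (ins_meas 1 b))]
  refine lintegral_congr fun u => lintegral_congr fun y => lintegral_congr fun z => ?_
  congr 1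
  funext i
  fin_cases i <;> rfl


/-! ### one-dimensional integrals -/

lemma gdm_nonneg {a b B : ℝ} (ha : 0 < a) (u : ℝ) : 0 ≤ gd a u * (max (B - u) 0) ^ b :=
  mul_nonneg (gd_nonneg ha u) (by positivity)

lemma gdm_meas (a b B : ℝ) : Measurable (fun u => gd a u * (max (B - u) 0) ^ b) := by
  have := gd_meas a
  fun_prop

lemma beta_int {a b B : ℝ} (ha : 0 < a) (hb : 0 < b) (hB : 0 < B) :
    Integrable (fun u => gd a u * (max (B - u) 0) ^ b) ∧
    ∫ u, gd a u * (max (B - u) 0) ^ b =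
      B ^ (a + b) * Real.Gamma (b + 1) / Real.Gamma (a + b + 1) := by
  have h := lint_beta ha hb hB
  have h0 : ∀ u, 0 ≤ gd a u * (max (B - u) 0) ^ b := fun u => gdm_nonneg ha u
  have hi : Integrable (fun u => gd a u * (max (B - u) 0) ^ b) := by
    rw [← lintegral_ofReal_ne_top_iff_integrable (gdm_meas a b B).aestronglyMeasurable
      (Eventually.of_forall h0), h]
    exact ENNReal.ofReal_ne_top
  refine ⟨hi, ?_⟩
  have h2 := ofReal_integral_eq_lintegral_ofReal hi (Eventually.of_forall h0)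
  rw [h] at h2
  have g1 := Real.Gamma_pos_of_pos (show 0 < b + 1 by linarith)
  have g2 := Real.Gamma_pos_of_pos (show 0 < a + b + 1 by linarith)
  exact (ENNReal.ofReal_eq_ofReal_iff (integral_nonneg h0) (by positivity)).1 h2

/-- the `z`-integral -/
lemma z_int {r A0 : ℝ} (hr : 0 < r) :
    Integrable (fun z => gd (1 / 2) z * ct r z * (A0 - z)) ∧
    ∫ z, gd (1 / 2) z * ct r z * (A0 - z) = r ^ (1 / 2 : ℝ) / Real.Gamma (3 / 2) * (A0 - r / 3) := by
  have i1 := (gd_ct_integrable (m := 1 / 2) (by norm_num) r).const_mul A0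
  have i2 := id_gd_ct_integrable (m := 1 / 2) (by norm_num) r
  have e : (fun z => gd (1 / 2) z * ct r z * (A0 - z)) =
      fun z => A0 * (gd (1 / 2) z * ct r z) - z * (gd (1 / 2) z * ct r z) := by
    funext z; ring
  rw [e]
  refine ⟨i1.sub i2, ?_⟩
  rw [integral_sub i1 i2, integral_const_mul, gd_ct_integral (by norm_num),
    id_gd_ct_integral (by norm_num) hr, max_eq_left hr.le]
  rw [show (1 / 2 : ℝ) + 1 = 3 / 2 by norm_num]
  have := Real.Gamma_pos_of_pos (show (0 : ℝ) < 3 / 2 by norm_num)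
  field_simp

lemma gd1 {y : ℝ} (hy : 0 < y) : gd 1 y = 1 := by
  unfold gd
  rw [if_pos hy, Real.Gamma_one]
  norm_num

lemma gd1_ct_pow {W : ℝ} (hW : 0 < W) :
    (Integrable (fun y => gd 1 y * ct W y) ∧ ∫ y, gd 1 y * ct W y = W) ∧
    (Integrable (fun y => y * (gd 1 y * ct W y)) ∧ ∫ y, y * (gd 1 y * ct W y) = W ^ 2 / 2) ∧
    (Integrable (fun y => y ^ 2 * (gd 1 y * ct W y)) ∧ ∫ y, y ^ 2 * (gd 1 y * ct W y) = W ^ 3 / 3) := by
  refine ⟨⟨gd_ct_integrable one_pos W, ?_⟩, ⟨id_gd_ct_integrable one_pos W, ?_⟩, ?_⟩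
  · rw [gd_ct_integral one_pos, max_eq_left hW.le, Real.rpow_one]
    norm_num
  · rw [id_gd_ct_integral one_pos hW, Real.rpow_one]
    norm_num
    ring
  · have e : (fun y => y ^ 2 * (gd 1 y * ct W y)) = fun y => y * (gd 2 y * ct W y) := by
      funext y
      have := id_gd one_pos y
      rw [show (1 : ℝ) + 1 = 2 by norm_num, one_mul] at this
      calc y ^ 2 * (gd 1 y * ct W y) = y * ((y * gd 1 y) * ct W y) := by ring
        _ = _ := by rw [this]
    rw [e]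
    refine ⟨id_gd_ct_integrable two_pos W, ?_⟩
    rw [id_gd_ct_integral two_pos hW, show (2 : ℝ) + 1 = 3 by norm_num]
    have g3 : Real.Gamma 3 = 2 := by
      rw [show (3 : ℝ) = 2 + 1 by norm_num, Real.Gamma_add_one (by norm_num), Real.Gamma_two]
      norm_num
    rw [g3, show (2 : ℝ) = ((2 : ℕ) : ℝ) by norm_num, Real.rpow_natCast]
    push_cast
    ring

/-- the `y`-integral -/
lemma y_int {W A κ : ℝ} (hW : 0 < W) :
    Integrable (fun y => gd 1 y * ct W y * ((A - y) * (A - y + κ))) ∧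
    ∫ y, gd 1 y * ct W y * ((A - y) * (A - y + κ)) =
      A * (A + κ) * W - (2 * A + κ) * (W ^ 2 / 2) + W ^ 3 / 3 := by
  obtain ⟨⟨i0, v0⟩, ⟨i1, v1⟩, i2, v2⟩ := gd1_ct_pow hW
  have e : (fun y => gd 1 y * ct W y * ((A - y) * (A - y + κ))) =
      fun y => A * (A + κ) * (gd 1 y * ct W y) - (2 * A + κ) * (y * (gd 1 y * ct W y)) +
        y ^ 2 * (gd 1 y * ct W y) := by
    funext y; ring
  rw [e]
  have j0 : Integrable (fun y => A * (A + κ) * (gd 1 y * ct W y)) := i0.const_mul _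
  have j1 : Integrable (fun y => (2 * A + κ) * (y * (gd 1 y * ct W y))) := i1.const_mul _
  have j2 : Integrable (fun y => A * (A + κ) * (gd 1 y * ct W y) -
      (2 * A + κ) * (y * (gd 1 y * ct W y))) := j0.sub j1
  refine ⟨j2.add i2, ?_⟩
  rw [integral_add j2 i2, integral_sub j0 j1, integral_const_mul, integral_const_mul, v0, v1, v2]

lemma Gam_half : Real.Gamma (3 / 2) = Real.sqrt Real.pi / 2 ∧
    Real.Gamma (7 / 2) = 15 / 8 * Real.sqrt Real.pi ∧
    Real.Gamma (9 / 2) = 105 / 16 * Real.sqrt Real.pi ∧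
    Real.Gamma (11 / 2) = 945 / 32 * Real.sqrt Real.pi ∧
    Real.Gamma (13 / 2) = 10395 / 64 * Real.sqrt Real.pi := by
  have h0 : Real.Gamma (1 / 2) = Real.sqrt Real.pi := Real.Gamma_one_half_eq
  have h1 : Real.Gamma (3 / 2) = Real.sqrt Real.pi / 2 := by
    rw [show (3 / 2 : ℝ) = 1 / 2 + 1 by norm_num, Real.Gamma_add_one (by norm_num), h0]; ring
  have h2 : Real.Gamma (5 / 2) = 3 / 4 * Real.sqrt Real.pi := by
    rw [show (5 / 2 : ℝ) = 3 / 2 + 1 by norm_num, Real.Gamma_add_one (by norm_num), h1]; ring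
  have h3 : Real.Gamma (7 / 2) = 15 / 8 * Real.sqrt Real.pi := by
    rw [show (7 / 2 : ℝ) = 5 / 2 + 1 by norm_num, Real.Gamma_add_one (by norm_num), h2]; ring
  have h4 : Real.Gamma (9 / 2) = 105 / 16 * Real.sqrt Real.pi := by
    rw [show (9 / 2 : ℝ) = 7 / 2 + 1 by norm_num, Real.Gamma_add_one (by norm_num), h3]; ring
  have h5 : Real.Gamma (11 / 2) = 945 / 32 * Real.sqrt Real.pi := by
    rw [show (11 / 2 : ℝ) = 9 / 2 + 1 by norm_num, Real.Gamma_add_one (by norm_num), h4]; ring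
  have h6 : Real.Gamma (13 / 2) = 10395 / 64 * Real.sqrt Real.pi := by
    rw [show (13 / 2 : ℝ) = 11 / 2 + 1 by norm_num, Real.Gamma_add_one (by norm_num), h5]; ring
  exact ⟨h1, h3, h4, h5, h6⟩

/-- the `u`-integral -/
lemma u_int {X p1 p2 p3 p4 : ℝ} (hX : 0 < X) :
    Integrable (fun u => gd (3 / 2) u * (p1 * max (X - u) 0 + p2 * (max (X - u) 0) ^ 2 +
      p3 * (max (X - u) 0) ^ 3 + p4 * (max (X - u) 0) ^ 4)) ∧
    ∫ u, gd (3 / 2) u * (p1 * max (X - u) 0 + p2 * (max (X - u) 0) ^ 2 +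
      p3 * (max (X - u) 0) ^ 3 + p4 * (max (X - u) 0) ^ 4) =
      X * Real.sqrt X * (p1 * (8 / 15) * X + p2 * (32 / 105) * X ^ 2 + p3 * (64 / 315) * X ^ 3 +
        p4 * (512 / 3465) * X ^ 4) / Real.sqrt Real.pi := by
  obtain ⟨h3, h7, h9, h11, h13⟩ := Gam_half
  have hsp : 0 < Real.sqrt Real.pi := Real.sqrt_pos.mpr Real.pi_pos
  have hp : ∀ j : ℕ, 1 ≤ j → Integrable (fun u => gd (3 / 2) u * (max (X - u) 0) ^ j) ∧
      ∫ u, gd (3 / 2) u * (max (X - u) 0) ^ j =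
        X * Real.sqrt X * X ^ j * (j.factorial : ℝ) / Real.Gamma (3 / 2 + j + 1) := by
    intro j hj
    have hj0 : (0 : ℝ) < j := by exact_mod_cast hj
    have h := beta_int (a := 3 / 2) (b := (j : ℝ)) (by norm_num) hj0 hX
    simp only [Real.rpow_natCast] at h
    refine ⟨h.1, ?_⟩
    rw [h.2, Real.Gamma_nat_eq_factorial, Real.rpow_add hX, Real.rpow_natCast,
      show (3 / 2 : ℝ) = 1 + 1 / 2 by norm_num, Real.rpow_add hX, Real.rpow_one, Real.sqrt_eq_rpow]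
  have h1 := hp 1 le_rfl
  have h2 := hp 2 (by norm_num)
  have h3' := hp 3 (by norm_num)
  have h4 := hp 4 (by norm_num)
  simp only [pow_one] at h1
  have e : (fun u => gd (3 / 2) u * (p1 * max (X - u) 0 + p2 * (max (X - u) 0) ^ 2 +
      p3 * (max (X - u) 0) ^ 3 + p4 * (max (X - u) 0) ^ 4)) =
      fun u => ((p1 * (gd (3 / 2) u * max (X - u) 0) + p2 * (gd (3 / 2) u * (max (X - u) 0) ^ 2)) +
      p3 * (gd (3 / 2) u * (max (X - u) 0) ^ 3)) + p4 * (gd (3 / 2) u * (max (X - u) 0) ^ 4) := by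
    funext u; ring
  rw [e]
  have k1 : Integrable (fun u => p1 * (gd (3 / 2) u * max (X - u) 0)) := h1.1.const_mul p1
  have k2 : Integrable (fun u => p2 * (gd (3 / 2) u * (max (X - u) 0) ^ 2)) := h2.1.const_mul p2
  have k3 : Integrable (fun u => p3 * (gd (3 / 2) u * (max (X - u) 0) ^ 3)) := h3'.1.const_mul p3
  have k4 : Integrable (fun u => p4 * (gd (3 / 2) u * (max (X - u) 0) ^ 4)) := h4.1.const_mul p4
  have j1 : Integrable (fun u => p1 * (gd (3 / 2) u * max (X - u) 0) +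
      p2 * (gd (3 / 2) u * (max (X - u) 0) ^ 2)) := k1.add k2
  have j2 : Integrable (fun u => p1 * (gd (3 / 2) u * max (X - u) 0) +
      p2 * (gd (3 / 2) u * (max (X - u) 0) ^ 2) + p3 * (gd (3 / 2) u * (max (X - u) 0) ^ 3)) :=
    j1.add k3
  refine ⟨j2.add k4, ?_⟩
  rw [integral_add j2 k4, integral_add j1 k3,
    integral_add k1 k2, integral_const_mul, integral_const_mul,
    integral_const_mul, integral_const_mul, h1.2, h2.2, h3'.2, h4.2]
  rw [show (3 / 2 : ℝ) + (1 : ℕ) + 1 = 7 / 2 by norm_num, show (3 / 2 : ℝ) + (2 : ℕ) + 1 = 9 / 2 by norm_num,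
    show (3 / 2 : ℝ) + (3 : ℕ) + 1 = 11 / 2 by norm_num, show (3 / 2 : ℝ) + (4 : ℕ) + 1 = 13 / 2 by norm_num,
    h7, h9, h11, h13]
  simp only [Nat.factorial]
  push_cast
  field_simp
  ring

end
end Pool.Agent.Y756.T
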