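import Pool.Agent.Y756.T.IntA

set_option autoImplicit false

/-! Lower bound for the limit of the cross sum in the case `k = 5`. -/

namespace Pool.Agent.Y756.T

open Finset Filter Topology MeasureTheory Pool.Agent.H306R2
open Pool.Agent.TH535 (posI GdI GdI_nonneg int_able)
open scoped ENNReal

noncomputable section

/-- the weight for `k = 5` -/
def F5 (x y : ℝ) : ℝ := (1 - x) * (1 - x - y) * sc (7998 / 10000) (1 / 10000) (x + y)

lemma F5_FW : FW F5 (7999 / 10000) where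
  cont := by
    have := sc_cont (7998 / 10000) (1 / 10000)
    unfold F5
    fun_prop
  nn x y hx hy := by
    unfold F5
    by_cases h : x + y ≤ 7999 / 10000
    · have h1 : 0 ≤ 1 - x := by linarith
      have h2 : 0 ≤ 1 - x - y := by linarith
      have h3 := sc_nonneg (7998 / 10000) (1 / 10000) (x + y)
      positivity
    · rw [sc_eq_zero (by norm_num) (by push Not at h; linarith), mul_zero]
  z x y h := by
    unfold F5
    rw [sc_eq_zero (by norm_num) (by linarith), mul_zero]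

lemma q1_nonneg {F : ℝ → ℝ → ℝ} {X : ℝ} (hF : FW F X) {β δ : ℝ} (hδ : 0 < δ) (hXβ : X + β ≤ 1)
    (u : Fin 4 → ℝ) (hu : ∀ i, 0 ≤ u i) : 0 ≤ q1 F β δ u := by
  have h0 := hu 0
  have h1 := hu 1
  have h2 := hu 2
  have h3 := hu 3
  unfold q1
  by_cases hz : X ≤ u 0 + u 1 + u 2
  · rw [hF.z _ _ hz]; simp
  by_cases hy : β ≤ u 1 + u 3
  · rw [sc_eq_zero hδ (by linarith)]; simp
  · push Not at hz hy
    have := hF.nn (u 0 + u 1) (u 2) (by linarith) h2
    have h4 := sc_nonneg (β - δ) δ (u 1 + u 3)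
    have h5 : 0 ≤ 1 - u 0 - u 2 - u 3 := by linarith
    positivity

lemma gd_pos_of {m u : ℝ} (h : gd m u ≠ 0) : 0 < u := by
  by_contra h'
  apply h
  unfold gd
  rw [if_neg h']

lemma G_nonneg {F : ℝ → ℝ → ℝ} {X : ℝ} (hF : FW F X) {β δ : ℝ} (hδ : 0 < δ) (hXβ : X + β ≤ 1)
    (u : Fin 4 → ℝ) : 0 ≤ GdI (m4 (1 / 2)) u * q1 F β δ u := by
  have hm : ∀ i, 0 < m4 (1 / 2) i := by
    intro i; fin_cases i
    · show (0 : ℝ) < 1 / 2 + 1; norm_num
    · show (0 : ℝ) < (1 / 2 + 1) * (1 / 2); norm_num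
    · show (0 : ℝ) < 1; norm_num
    · show (0 : ℝ) < 1 / 2; norm_num
  by_cases h : ∀ i, 0 ≤ u i
  · exact mul_nonneg (GdI_nonneg hm u) (q1_nonneg hF hδ hXβ u h)
  · push Not at h
    obtain ⟨i, hi⟩ := h
    have : GdI (m4 (1 / 2)) u = 0 := by
      unfold GdI
      refine prod_eq_zero (mem_univ i) ?_
      unfold gd
      rw [if_neg (by linarith)]
    rw [this, zero_mul]

lemma GdI4 (u b y z : ℝ) : GdI (m4 (1 / 2)) ![u, b, y, z] =
    gd (3 / 2) u * gd (3 / 4) b * gd 1 y * gd (1 / 2) z := by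
  unfold GdI m4
  rw [Fin.prod_univ_four]
  simp only [Matrix.cons_val_zero, Matrix.cons_val_one, Matrix.cons_val_fin_one, Matrix.cons_val]
  rw [show (1 / 2 + 1 : ℝ) = 3 / 2 by norm_num, show (3 / 2 * (1 / 2) : ℝ) = 3 / 4 by norm_num]

/-- the integrand -/
def GG5 (u b y z : ℝ) : ℝ :=
  GdI (m4 (1 / 2)) ![u, b, y, z] * q1 F5 (1999 / 10000) (1 / 10000) ![u, b, y, z]

lemma GG5_nonneg (u b y z : ℝ) : 0 ≤ GG5 u b y z :=
  G_nonneg F5_FW (by norm_num) (by norm_num) _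

lemma GG5_eq {u b y z : ℝ} (hs : b + u + y ≤ 7998 / 10000) (hbz : b + z ≤ 1998 / 10000) :
    GG5 u b y z = gd (3 / 2) u * gd (3 / 4) b * gd 1 y * gd (1 / 2) z *
      ((1 - u - b) * (1 - u - b - y) * (1 - u - y - z)) := by
  unfold GG5
  rw [GdI4]
  unfold q1 F5
  simp only [Matrix.cons_val_zero, Matrix.cons_val_one, Matrix.cons_val_fin_one, Matrix.cons_val]
  rw [sc_eq_one (by norm_num) (show u + b + y ≤ 7998 / 10000 by linarith),
    sc_eq_one (by norm_num) (show b + z ≤ 1999 / 10000 - 1 / 10000 by linarith)]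
  ring

lemma zlev {u b y : ℝ} (hu : 0 < u) (hb : 0 < b) (hy : 0 < y) (hb1 : b < 1998 / 10000)
    (hs : b + u + y ≤ 7998 / 10000) :
    ENNReal.ofReal (gd (3 / 2) u * gd (3 / 4) b * ((1 - u - b) * (1 - u - b - y)) *
      ((1998 / 10000 - b) ^ (1 / 2 : ℝ) / Real.Gamma (3 / 2) *
        (1 - u - y - (1998 / 10000 - b) / 3))) ≤
    ∫⁻ z, ENNReal.ofReal (GG5 u b y z) := by
  set r : ℝ := 1998 / 10000 - b with hr
  have hr0 : 0 < r := by rw [hr]; linarith
  set K := gd (3 / 2) u * gd (3 / 4) b * ((1 - u - b) * (1 - u - b - y)) with hK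
  have hK0 : 0 ≤ K := by
    have h1 := gd_nonneg (m := 3 / 2) (by norm_num) u
    have h2 := gd_nonneg (m := 3 / 4) (by norm_num) b
    have h3 : 0 ≤ 1 - u - b := by linarith
    have h4 : 0 ≤ 1 - u - b - y := by linarith
    positivity
  obtain ⟨hi, hv⟩ := z_int (A0 := 1 - u - y) hr0
  have hnn : ∀ z, 0 ≤ K * (gd (1 / 2) z * ct r z * (1 - u - y - z)) := by
    intro z
    refine mul_nonneg hK0 ?_
    by_cases hz : z ≤ r
    · exact mul_nonneg (mul_nonneg (gd_nonneg (by norm_num) z) (ct_nonneg _ _)) (by linarith)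
    · unfold ct; rw [if_neg hz]; simp
  have hle : ∀ z, K * (gd (1 / 2) z * ct r z * (1 - u - y - z)) ≤ GG5 u b y z := by
    intro z
    by_cases hz : z ≤ r
    · rw [GG5_eq hs (by linarith), gd1 hy]
      unfold ct
      rw [if_pos hz, hK]
      apply le_of_eq
      ring
    · unfold ct
      rw [if_neg hz]
      simp only [mul_zero, zero_mul]
      exact GG5_nonneg u b y z
  have hI := ofReal_integral_eq_lintegral_ofReal (hi.const_mul K) (Eventually.of_forall hnn)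
  rw [integral_const_mul, hv] at hI
  rw [hI]
  exact lintegral_mono fun z => ENNReal.ofReal_le_ofReal (hle z)

lemma ylev {u b : ℝ} (hu : 0 < u) (hb : 0 < b) (hb1 : b < 1998 / 10000)
    (hs : b + u < 7998 / 10000) :
    ENNReal.ofReal (gd (3 / 4) b * ((1998 / 10000 - b) ^ (1 / 2 : ℝ) / Real.Gamma (3 / 2)) *
      (gd (3 / 2) u *
      ((2002 / 10000) ^ 2 * (2002 / 10000 + (b - (1998 / 10000 - b) / 3)) * (7998 / 10000 - b - u) +
       (2002 / 10000) * (2 * (2002 / 10000) + 3 / 2 * (b - (1998 / 10000 - b) / 3)) *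
         (7998 / 10000 - b - u) ^ 2 +
       (4 / 3 * (2002 / 10000) + 1 / 2 * (b - (1998 / 10000 - b) / 3)) * (7998 / 10000 - b - u) ^ 3 +
       1 / 3 * (7998 / 10000 - b - u) ^ 4))) ≤
    ∫⁻ y, ∫⁻ z, ENNReal.ofReal (GG5 u b y z) := by
  set W : ℝ := 7998 / 10000 - b - u with hW
  have hW0 : 0 < W := by rw [hW]; linarith
  set A : ℝ := 1 - u - b with hA
  set κ : ℝ := b - (1998 / 10000 - b) / 3 with hκ
  set K := gd (3 / 2) u * gd (3 / 4) b * A *
    ((1998 / 10000 - b) ^ (1 / 2 : ℝ) / Real.Gamma (3 / 2)) with hK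
  have hG := Real.Gamma_pos_of_pos (show (0 : ℝ) < 3 / 2 by norm_num)
  have hK0 : 0 ≤ K := by
    have h1 := gd_nonneg (m := 3 / 2) (by norm_num) u
    have h2 := gd_nonneg (m := 3 / 4) (by norm_num) b
    have h3 : 0 ≤ A := by rw [hA]; linarith
    have h4 : 0 ≤ 1998 / 10000 - b := by linarith
    positivity
  obtain ⟨hi, hv⟩ := y_int (A := A) (κ := κ) hW0
  have hAW : A = 2002 / 10000 + W := by rw [hA, hW]; ring
  have hnn : ∀ y, 0 ≤ K * (gd 1 y * ct W y * ((A - y) * (A - y + κ))) := by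
    intro y
    refine mul_nonneg hK0 ?_
    by_cases hz : y ≤ W
    · have h1 : 0 ≤ A - y := by linarith
      have h2 : 0 ≤ A - y + κ := by rw [hκ]; linarith
      exact mul_nonneg (mul_nonneg (gd_nonneg (by norm_num) y) (ct_nonneg _ _)) (mul_nonneg h1 h2)
    · unfold ct; rw [if_neg hz]; simp
  have hI := ofReal_integral_eq_lintegral_ofReal (hi.const_mul K) (Eventually.of_forall hnn)
  rw [integral_const_mul, hv] at hI
  have e : gd (3 / 4) b * ((1998 / 10000 - b) ^ (1 / 2 : ℝ) / Real.Gamma (3 / 2)) *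
      (gd (3 / 2) u *
      ((2002 / 10000) ^ 2 * (2002 / 10000 + κ) * W +
       (2002 / 10000) * (2 * (2002 / 10000) + 3 / 2 * κ) * W ^ 2 +
       (4 / 3 * (2002 / 10000) + 1 / 2 * κ) * W ^ 3 + 1 / 3 * W ^ 4)) =
      K * (A * (A + κ) * W - (2 * A + κ) * (W ^ 2 / 2) + W ^ 3 / 3) := by
    rw [hK, hAW]; ring
  rw [e, hI]
  refine lintegral_mono fun y => ?_
  by_cases hy : 0 < y
  · by_cases hyW : y ≤ W
    · refine le_trans ?_ (zlev hu hb hy hb1 (by linarith))
      refine ENNReal.ofReal_le_ofReal (le_of_eq ?_)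
      unfold ct
      rw [if_pos hyW, gd1 hy, hK, hA, hκ]
      ring
    · unfold ct
      rw [if_neg hyW]
      simp
  · have : gd 1 y = 0 := by unfold gd; rw [if_neg hy]
    simp only [this]
    simp

lemma ulev {b : ℝ} (hb : 0 < b) (hb1 : b < 1998 / 10000) :
    ENNReal.ofReal (gd (3 / 4) b * ((1998 / 10000 - b) ^ (1 / 2 : ℝ) / Real.Gamma (3 / 2)) *
      ((7998 / 10000 - b) * Real.sqrt (7998 / 10000 - b) *
      (((2002 / 10000) ^ 2 * (2002 / 10000 + (b - (1998 / 10000 - b) / 3))) * (8 / 15) *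
        (7998 / 10000 - b) +
       ((2002 / 10000) * (2 * (2002 / 10000) + 3 / 2 * (b - (1998 / 10000 - b) / 3))) * (32 / 105) *
         (7998 / 10000 - b) ^ 2 +
       (4 / 3 * (2002 / 10000) + 1 / 2 * (b - (1998 / 10000 - b) / 3)) * (64 / 315) *
         (7998 / 10000 - b) ^ 3 +
       1 / 3 * (512 / 3465) * (7998 / 10000 - b) ^ 4) / Real.sqrt Real.pi)) ≤
    ∫⁻ u, ∫⁻ y, ∫⁻ z, ENNReal.ofReal (GG5 u b y z) := by
  set X : ℝ := 7998 / 10000 - b with hX
  have hX0 : 0 < X := by rw [hX]; linarith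
  set κ : ℝ := b - (1998 / 10000 - b) / 3 with hκ
  have hκ0 : -(1 / 15) ≤ κ := by rw [hκ]; linarith
  set K := gd (3 / 4) b * ((1998 / 10000 - b) ^ (1 / 2 : ℝ) / Real.Gamma (3 / 2)) with hK
  have hG := Real.Gamma_pos_of_pos (show (0 : ℝ) < 3 / 2 by norm_num)
  have hK0 : 0 ≤ K := by
    have h2 := gd_nonneg (m := 3 / 4) (by norm_num) b
    have h4 : 0 ≤ 1998 / 10000 - b := by linarith
    positivity
  obtain ⟨hi, hv⟩ := u_int (X := X) (p1 := (2002 / 10000) ^ 2 * (2002 / 10000 + κ))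
    (p2 := (2002 / 10000) * (2 * (2002 / 10000) + 3 / 2 * κ))
    (p3 := 4 / 3 * (2002 / 10000) + 1 / 2 * κ) (p4 := 1 / 3) hX0
  have hp1 : 0 ≤ (2002 / 10000 : ℝ) ^ 2 * (2002 / 10000 + κ) :=
    mul_nonneg (by norm_num) (by linarith)
  have hp2 : 0 ≤ (2002 / 10000 : ℝ) * (2 * (2002 / 10000) + 3 / 2 * κ) :=
    mul_nonneg (by norm_num) (by linarith)
  have hp3 : 0 ≤ 4 / 3 * (2002 / 10000 : ℝ) + 1 / 2 * κ := by linarith
  rw [← hv]
  have hnn : ∀ u, 0 ≤ K * (gd (3 / 2) u * ((2002 / 10000) ^ 2 * (2002 / 10000 + κ) * max (X - u) 0 +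
      2002 / 10000 * (2 * (2002 / 10000) + 3 / 2 * κ) * (max (X - u) 0) ^ 2 +
      (4 / 3 * (2002 / 10000) + 1 / 2 * κ) * (max (X - u) 0) ^ 3 +
      1 / 3 * (max (X - u) 0) ^ 4)) := by
    intro u
    have h1 := gd_nonneg (m := 3 / 2) (by norm_num) u
    have h2 : 0 ≤ max (X - u) 0 := le_max_right _ _
    positivity
  have hI := ofReal_integral_eq_lintegral_ofReal (hi.const_mul K) (Eventually.of_forall hnn)
  rw [integral_const_mul] at hI
  rw [hI]
  refine lintegral_mono fun u => ?_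
  by_cases hu : 0 < u
  · by_cases huX : u < X
    · refine le_trans ?_ (ylev hu hb hb1 (by linarith))
      refine ENNReal.ofReal_le_ofReal (le_of_eq ?_)
      rw [max_eq_left (by linarith : (0 : ℝ) ≤ X - u)]
    · rw [max_eq_right (by linarith : X - u ≤ 0)]
      simp
  · have : gd (3 / 2) u = 0 := by unfold gd; rw [if_neg hu]
    simp only [this]
    simp

lemma sqrt_low {r : ℝ} (h0 : 0 ≤ r) (h1 : r ≤ 1998 / 10000) :
    38729 / 50000 + 799 / 1250 * r - 201 / 1000 * r ^ 2 ≤ Real.sqrt (6 / 10 + r) := by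
  apply Real.le_sqrt_of_sq_le
  obtain ⟨s, hs⟩ : ∃ s : ℝ, s = 1998 / 10000 - r := ⟨_, rfl⟩
  have hs0 : 0 ≤ s := by rw [hs]; linarith
  have e : 6 / 10 + r - (38729 / 50000 + 799 / 1250 * r - 201 / 1000 * r ^ 2) ^ 2 =
      (16139750000 / 996005996001) * (r ^ 0 * s ^ 4) + (1285452884000 / 996005996001) * (r ^ 1 * s ^ 3) + (444830165371 / 332001998667) * (r ^ 2 * s ^ 2) + (19765352164651 / 124500749500125) * (r ^ 3 * s ^ 1) + (52705816959771599 / 996005996001000000) * (r ^ 4 * s ^ 0) := by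
    rw [hs]; ring
  have : 0 ≤ 6 / 10 + r - (38729 / 50000 + 799 / 1250 * r - 201 / 1000 * r ^ 2) ^ 2 := by
    rw [e]; positivity
  linarith

lemma poly_low {r : ℝ} (h0 : 0 ≤ r) (h1 : r ≤ 1998 / 10000) :
    (11 / 1000 + 58 / 1000 * r + 24 / 1000 * r ^ 2) * (177246 / 100000) ≤
    (6 / 10 + r) * (38729 / 50000 + 799 / 1250 * r - 201 / 1000 * r ^ 2) *
      (((2002 / 10000) ^ 2 * (2002 / 10000 + (1998 / 10000 - 4 / 3 * r))) * (8 / 15) *
        (6 / 10 + r) +
       ((2002 / 10000) * (2 * (2002 / 10000) + 3 / 2 * (1998 / 10000 - 4 / 3 * r))) * (32 / 105) *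
         (6 / 10 + r) ^ 2 +
       (4 / 3 * (2002 / 10000) + 1 / 2 * (1998 / 10000 - 4 / 3 * r)) * (64 / 315) *
         (6 / 10 + r) ^ 3 +
       1 / 3 * (512 / 3465) * (6 / 10 + r) ^ 4) := by
  obtain ⟨s, hs⟩ : ∃ s : ℝ, s = 1998 / 10000 - r := ⟨_, rfl⟩
  have hs0 : 0 ≤ s := by rw [hs]; linarith
  have e : (6 / 10 + r) * (38729 / 50000 + 799 / 1250 * r - 201 / 1000 * r ^ 2) *
      (((2002 / 10000) ^ 2 * (2002 / 10000 + (1998 / 10000 - 4 / 3 * r))) * (8 / 15) *
        (6 / 10 + r) +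
       ((2002 / 10000) * (2 * (2002 / 10000) + 3 / 2 * (1998 / 10000 - 4 / 3 * r))) * (32 / 105) *
         (6 / 10 + r) ^ 2 +
       (4 / 3 * (2002 / 10000) + 1 / 2 * (1998 / 10000 - 4 / 3 * r)) * (64 / 315) *
         (6 / 10 + r) ^ 3 +
       1 / 3 * (512 / 3465) * (6 / 10 + r) ^ 4) -
      (11 / 1000 + 58 / 1000 * r + 24 / 1000 * r ^ 2) * (177246 / 100000) =
      (537417937780000000000000000 / 2829116729384655190940151) * (r ^ 0 * s ^ 8) + (691640108087392000000000000 / 943038909794885063646717) * (r ^ 1 * s ^ 7) + (232684182994520608000000000 / 257192429944059562812741) * (r ^ 2 * s ^ 6) + (1123644239570543093288000000 / 2829116729384655190940151) * (r ^ 3 * s ^ 5) + (577772084529923995635520000 / 943038909794885063646717) * (r ^ 4 * s ^ 4) + (4295994374931753452798634448 / 2829116729384655190940151) * (r ^ 5 * s ^ 3) + (3856560115322517933685956688 / 2829116729384655190940151) * (r ^ 6 * s ^ 2) + (141387061503245119603646512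 / 314346303264961687882239) * (r ^ 7 * s ^ 1) + (80222172661662013926936368 / 2829116729384655190940151) * (r ^ 8 * s ^ 0) := by
    rw [hs]; ring
  have : 0 ≤ (6 / 10 + r) * (38729 / 50000 + 799 / 1250 * r - 201 / 1000 * r ^ 2) *
      (((2002 / 10000) ^ 2 * (2002 / 10000 + (1998 / 10000 - 4 / 3 * r))) * (8 / 15) *
        (6 / 10 + r) +
       ((2002 / 10000) * (2 * (2002 / 10000) + 3 / 2 * (1998 / 10000 - 4 / 3 * r))) * (32 / 105) *
         (6 / 10 + r) ^ 2 +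
       (4 / 3 * (2002 / 10000) + 1 / 2 * (1998 / 10000 - 4 / 3 * r)) * (64 / 315) *
         (6 / 10 + r) ^ 3 +
       1 / 3 * (512 / 3465) * (6 / 10 + r) ^ 4) -
      (11 / 1000 + 58 / 1000 * r + 24 / 1000 * r ^ 2) * (177246 / 100000) := by
    rw [e]; positivity
  linarith

end
end Pool.Agent.Y756.T
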