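import Pool.Agent.H306R2.Loc

set_option autoImplicit false

/-! Local identities for the coefficients of `ζ^c conj ζ`. -/

namespace Pool.Agent.Y756.T

open Finset Filter Topology Pool.Agent.H306R2

noncomputable section

lemma lc_choose (α : ℝ) (n : ℕ) : Ring.choose (α + n - 1) n = lc α n := by
  induction n with
  | zero => simp [lc_zero]
  | succ n ih =>
    have h1 := lc_succ' α n
    have h2 : ((n : ℝ) + 1) * Ring.choose (α + (n + 1 : ℕ) - 1) (n + 1) =
        (α + n) * Ring.choose (α + n - 1) n := by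
      rw [Ring.choose_eq_smul, Ring.choose_eq_smul]
      simp only [smul_eq_mul]
      rw [Polynomial.descPochhammer_smeval_eq_ascPochhammer,
        Polynomial.descPochhammer_smeval_eq_ascPochhammer]
      have e1 : α + ((n + 1 : ℕ) : ℝ) - 1 - ((n + 1 : ℕ) : ℝ) + 1 = α := by push_cast; ring
      have e2 : α + (n : ℝ) - 1 - (n : ℝ) + 1 = α := by ring
      rw [e1, e2, Polynomial.ascPochhammer_smeval_cast, Polynomial.ascPochhammer_smeval_cast,
        Polynomial.ascPochhammer_smeval_eq_eval, Polynomial.ascPochhammer_smeval_eq_eval,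
        ascPochhammer_succ_eval, Nat.factorial_succ]
      have hf : ((n.factorial : ℕ) : ℝ) ≠ 0 := by exact_mod_cast n.factorial_ne_zero
      push_cast
      field_simp
    have h3 : ((n : ℝ) + 1) ≠ 0 := by positivity
    rw [ih, ← h1] at h2
    exact mul_left_cancel₀ h3 h2

lemma lc_hasSum (α : ℝ) {x : ℝ} (h0 : 0 ≤ x) (h1 : x < 1) :
    HasSum (fun m : ℕ => lc α m * x ^ m) ((1 - x) ^ (-α)) := by
  have h := (Real.one_div_one_sub_rpow_hasFPowerSeriesOnBall_zero α).hasSum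
    (y := x) (by
      rw [← ENNReal.ofReal_one, Metric.eball_ofReal]
      simpa [abs_of_nonneg h0] using h1)
  simp only [zero_add] at h
  rw [Real.rpow_neg (by linarith), ← one_div]
  refine h.congr_fun fun m => ?_
  rw [FormalMultilinearSeries.ofScalars_apply_eq, smul_eq_mul, lc_choose]

/-- `Σ_m lc c (α+m) x^m` -/
def Sg (c x : ℝ) (α : ℕ) : ℝ := ∑' m : ℕ, lc c (α + m) * x ^ m

lemma shift_summable {c x : ℝ} (h0 : 0 < x) (h1 : x < 1) (α : ℕ) :
    Summable (fun m : ℕ => lc c (α + m) * x ^ m) := by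
  have h := (lc_hasSum c h0.le h1).summable
  have h2 := (summable_nat_add_iff (f := fun m : ℕ => lc c m * x ^ m) α).2 h
  refine (h2.mul_left (x ^ α)⁻¹).congr fun m => ?_
  have hx : x ^ α ≠ 0 := by positivity
  rw [add_comm m α, pow_add]
  field_simp

lemma Sg_zero {c x : ℝ} (h0 : 0 < x) (h1 : x < 1) : Sg c x 0 = (1 - x) ^ (-c) := by
  unfold Sg
  simp only [zero_add]
  exact (lc_hasSum c h0.le h1).tsum_eq

lemma Sg_step {c x : ℝ} (h0 : 0 < x) (h1 : x < 1) (α : ℕ) :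
    Sg c x α = lc c α + x * Sg c x (α + 1) := by
  unfold Sg
  rw [(shift_summable h0 h1 α).tsum_eq_zero_add, add_zero, pow_zero, mul_one, ← tsum_mul_left]
  congr 1
  refine tsum_congr fun m => ?_
  rw [show α + (m + 1) = α + 1 + m by ring, pow_succ]
  ring

lemma Sg_nonneg {c x : ℝ} (hc : 0 ≤ c) (h0 : 0 ≤ x) (α : ℕ) : 0 ≤ Sg c x α :=
  tsum_nonneg fun m => mul_nonneg (lc_nonneg hc _) (by positivity)

lemma lc_diff (b : ℝ) (n : ℕ) : lc (b + 1) (n + 1) = lc (b + 1) n + lc b (n + 1) := by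
  have h1 := lc_conv b 1 (n + 1)
  have h2 := lc_conv b 1 n
  simp only [lc_one_left, mul_one] at h1 h2
  rw [← h1, ← h2, Finset.Nat.sum_antidiagonal_eq_sum_range_succ_mk,
    Finset.Nat.sum_antidiagonal_eq_sum_range_succ_mk, sum_range_succ]

lemma lc_cum (b : ℝ) (n : ℕ) : ∑ i ∈ range (n + 1), lc b i = lc (b + 1) n := by
  induction n with
  | zero => simp [lc_zero]
  | succ n ih => rw [sum_range_succ, ih, lc_diff]

lemma Sg_rec {b x : ℝ} (h0 : 0 < x) (h1 : x < 1) (α : ℕ) :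
    (1 - x) * Sg (b + 1) x α = ∑ i ∈ range α, lc b i + Sg b x α := by
  have e1 : ∑ i ∈ range α, lc b i = lc (b + 1) α - lc b α := by
    rw [← lc_cum, sum_range_succ]; ring
  have h2 := Sg_step (c := b) h0 h1 α
  have h3 := Sg_step (c := b + 1) h0 h1 α
  have e2 : Sg (b + 1) x (α + 1) = Sg (b + 1) x α + Sg b x (α + 1) := by
    unfold Sg
    rw [← (shift_summable h0 h1 α).tsum_add (shift_summable h0 h1 (α + 1))]
    refine tsum_congr fun m => ?_
    rw [show α + 1 + m = α + m + 1 by ring, lc_diff]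
    ring
  rw [e1]
  rw [e2] at h3
  linarith

lemma sub_mul' {α : ℝ} (hα : 1 ≤ α) (a b : ℕ) : lc α (a + b) ≤ lc α a * lc α b := by
  induction b with
  | zero => rw [lc_zero, mul_one, add_zero]
  | succ b ih =>
    rw [← add_assoc, lc_succ, lc_succ, ← mul_assoc]
    have h0 : 0 ≤ lc α a * lc α b :=
      mul_nonneg (lc_nonneg (by linarith) a) (lc_nonneg (by linarith) b)
    refine mul_le_mul ih ?_ (by positivity) h0
    rw [div_le_div_iff₀ (by positivity) (by positivity)]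
    push_cast
    have ha : (0 : ℝ) ≤ a := Nat.cast_nonneg a
    nlinarith

lemma Sg_le {c A x : ℝ} (hc : 0 ≤ c) (hcA : c ≤ A) (hA : 1 ≤ A) (h0 : 0 < x) (h1 : x < 1) (α : ℕ) :
    Sg c x α ≤ lc A α * (1 - x) ^ (-A) := by
  rw [← (lc_hasSum A h0.le h1).tsum_eq, ← tsum_mul_left]
  refine (shift_summable h0 h1 α).tsum_le_tsum (fun m => ?_)
    ((lc_hasSum A h0.le h1).summable.mul_left _)
  rw [← mul_assoc]
  exact mul_le_mul_of_nonneg_right ((lc_mono hc hcA _).trans (sub_mul' hA _ _)) (by positivity)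

lemma sq_summable {A x : ℝ} (hA : 0 < A) (h0 : 0 < x) (h1 : x < 1) :
    Summable (fun m : ℕ => lc A m ^ 2 * x ^ m) := by
  refine Summable.of_nonneg_of_le (fun n => by positivity) (fun n => ?_)
    (lc_summable (α := A ^ 2) (by positivity) h0 h1)
  exact mul_le_mul_of_nonneg_right (lc_sq_le hA.le n) (by positivity)

lemma Sg_sq_summable {c x : ℝ} (hc : 0 < c) (h0 : 0 < x) (h1 : x < 1) :
    Summable (fun α : ℕ => Sg c x α ^ 2 * x ^ α) := by
  have hA : (1:ℝ) ≤ 1 + c := by linarith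
  refine Summable.of_nonneg_of_le (fun n => by positivity) (fun n => ?_)
    ((sq_summable (A := 1 + c) (by linarith) h0 h1).mul_left (((1 - x) ^ (-(1 + c))) ^ 2))
  have h2 := Sg_le hc.le (by linarith : c ≤ 1 + c) hA h0 h1 n
  have h3 := Sg_nonneg (c := c) (x := x) hc.le h0.le n
  calc Sg c x n ^ 2 * x ^ n ≤ (lc (1 + c) n * (1 - x) ^ (-(1 + c))) ^ 2 * x ^ n := by gcongr
    _ = _ := by ring

/-- the telescoping quantity -/
lemma tele {c x : ℝ} (h0 : 0 < x) (h1 : x < 1) (N : ℕ) :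
    ∑ α ∈ range N, (lc (c + 1) α ^ 2 * x ^ α - Sg c x α ^ 2 * x ^ α) =
      x * Sg c x 0 ^ 2 / (1 - x) - x ^ N / (1 - x) *
        ((∑ i ∈ range N, lc c i + Sg c x N) ^ 2 - (1 - x) * Sg c x N ^ 2) := by
  have hx : (1 - x) ≠ 0 := by linarith
  induction N with
  | zero =>
    simp
    field_simp
    ring
  | succ N ih =>
    rw [sum_range_succ, ih, sum_range_succ _ N]
    have h2 := Sg_step (c := c) h0 h1 N
    have h3 : lc (c + 1) N = ∑ i ∈ range N, lc c i + lc c N := by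
      rw [← lc_cum, sum_range_succ]
    rw [h3]
    set E := ∑ i ∈ range N, lc c i
    set D := lc c N
    set S' := Sg c x (N + 1)
    rw [h2, pow_succ]
    field_simp
    ring

theorem parseval {c x : ℝ} (hc : 0 < c) (h0 : 0 < x) (h1 : x < 1) :
    ∑' α : ℕ, Sg c x α ^ 2 * x ^ α + x * Sg c x 0 ^ 2 / (1 - x) =
      ∑' m : ℕ, lc (c + 1) m ^ 2 * x ^ m := by
  have s1 := sq_summable (A := c + 1) (by linarith) h0 h1
  have s2 := Sg_sq_summable hc h0 h1
  have h2 := (s1.sub s2).hasSum.tendsto_sum_nat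
  simp only [tele h0 h1] at h2
  have s3 : Summable (fun α : ℕ => ((1 - x) * Sg (c + 1) x α) ^ 2 * x ^ α) := by
    refine ((Sg_sq_summable (c := c + 1) (by linarith) h0 h1).mul_left ((1 - x) ^ 2)).congr fun α => ?_
    ring
  have h3 : Tendsto (fun N : ℕ => x ^ N / (1 - x) *
        ((∑ i ∈ range N, lc c i + Sg c x N) ^ 2 - (1 - x) * Sg c x N ^ 2)) atTop (𝓝 0) := by
    have t1 := s3.tendsto_atTop_zero.div_const (1 - x)
    have t2 := s2.tendsto_atTop_zero
    have t3 := t1.sub t2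
    rw [zero_div, sub_zero] at t3
    refine t3.congr fun N => ?_
    rw [Sg_rec h0 h1]
    have hx : (1 - x) ≠ 0 := by linarith
    field_simp
  have h4 := (tendsto_const_nhds (x := x * Sg c x 0 ^ 2 / (1 - x))).sub h3
  rw [sub_zero] at h4
  have h5 := tendsto_nhds_unique h2 h4
  rw [s1.tsum_sub s2] at h5
  linarith

/-- normalised coefficients -/
def rl (c x : ℝ) (α : ℕ) : ℝ := Sg c x α * (1 - x) ^ c

lemma rl_zero {c x : ℝ} (h0 : 0 < x) (h1 : x < 1) : rl c x 0 = 1 := by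
  unfold rl
  rw [Sg_zero h0 h1, ← Real.rpow_add (by linarith)]
  simp

lemma rl_nonneg {c x : ℝ} (hc : 0 ≤ c) (h0 : 0 ≤ x) (h1 : x < 1) (α : ℕ) : 0 ≤ rl c x α :=
  mul_nonneg (Sg_nonneg hc h0 α) (Real.rpow_nonneg (by linarith) _)

/-- the sum of the squares -/
theorem rl_sq {c x : ℝ} (hc : 0 < c) (h0 : 0 < x) (h1 : x < 1) :
    ∑' α : ℕ, rl c x α ^ 2 * x ^ α + x / (1 - x) =
      (1 - x) ^ (2 * c) * ∑' m : ℕ, lc (c + 1) m ^ 2 * x ^ m := by
  have h := parseval hc h0 h1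
  have hx : 0 < 1 - x := by linarith
  have e0 : ((1 - x) ^ c) ^ 2 = (1 - x) ^ (2 * c) := by
    rw [← Real.rpow_natCast, ← Real.rpow_mul hx.le]
    congr 1
    push_cast; ring
  have e1 : ∑' α : ℕ, rl c x α ^ 2 * x ^ α = (1 - x) ^ (2 * c) * ∑' α : ℕ, Sg c x α ^ 2 * x ^ α := by
    rw [← tsum_mul_left]
    refine tsum_congr fun α => ?_
    unfold rl
    rw [mul_pow, e0]
    ring
  have e2 : x / (1 - x) = (1 - x) ^ (2 * c) * (x * Sg c x 0 ^ 2 / (1 - x)) := by
    rw [Sg_zero h0 h1]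
    have : (1 - x) ^ (2 * c) * ((1 - x) ^ (-c)) ^ 2 = 1 := by
      rw [← e0, ← mul_pow, ← Real.rpow_add hx]
      simp
    calc x / (1 - x) = ((1 - x) ^ (2 * c) * ((1 - x) ^ (-c)) ^ 2) * (x / (1 - x)) := by
          rw [this, one_mul]
      _ = _ := by ring
  rw [e1]
  conv_lhs => rw [e2]
  rw [← mul_add, h]

/-- the cross sums, `s = 0` -/
theorem cross0 {a x : ℝ} (h0 : 0 < x) (h1 : x < 1) (α : ℕ) :
    ∑ i ∈ range α, lc a i + Sg a x α = (1 - x) * Sg (a + 1) x α := (Sg_rec h0 h1 α).symm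

lemma lc_cum2 (a : ℝ) (α : ℕ) : ∑ i ∈ range α, ((α : ℝ) - i) * lc a i =
    ∑ i ∈ range α, lc (a + 1) i := by
  induction α with
  | zero => simp
  | succ n ih =>
    rw [sum_range_succ, sum_range_succ (fun i => lc (a + 1) i) n, ← ih, ← lc_cum a n, sum_range_succ]
    push_cast
    have : ∑ i ∈ range n, ((n : ℝ) + 1 - i) * lc a i =
        ∑ i ∈ range n, ((n : ℝ) - i) * lc a i + ∑ i ∈ range n, lc a i := by
      rw [← sum_add_distrib]
      exact sum_congr rfl fun i _ => by ring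
    rw [this]
    ring

/-- the cross sums, `s = 1` -/
theorem cross1 {a x : ℝ} (h0 : 0 < x) (h1 : x < 1) (α : ℕ) :
    ∑ i ∈ range α, lc a i * (1 + ((α : ℝ) - i) * (1 - x)) + Sg a x α =
      (1 - x) ^ 2 * Sg (a + 2) x α := by
  have h2 := Sg_rec (b := a) h0 h1 α
  have h3 := Sg_rec (b := a + 1) h0 h1 α
  have e : a + 1 + 1 = a + 2 := by ring
  rw [e] at h3
  have h4 : ∑ i ∈ range α, lc a i * (1 + ((α : ℝ) - i) * (1 - x)) =
      ∑ i ∈ range α, lc a i + (1 - x) * ∑ i ∈ range α, ((α : ℝ) - i) * lc a i := by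
    rw [mul_sum, ← sum_add_distrib]
    exact sum_congr rfl fun i _ => by ring
  rw [h4, lc_cum2]
  calc _ = (1 - x) * (∑ i ∈ range α, lc (a + 1) i + Sg (a + 1) x α) := by rw [mul_add, h2]; ring
    _ = _ := by rw [← h3]; ring

end

end Pool.Agent.Y756.T
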