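import Pool.Agent.Y756.T.Wt

set_option autoImplicit false

/-! The local sums of the weights. -/

namespace Pool.Agent.Y756.T

open Finset Filter Topology Pool.Agent.H306R2 Pool.Agent.TH535.MA

noncomputable section

lemma tsum_anti (f : ℕ × ℕ → ℝ) (hf : Summable f) :
    ∑' x, f x = ∑' n : ℕ, ∑ x ∈ antidiagonal n, f x := by
  have hs : Summable (f ∘ (HasAntidiagonal.sigmaAntidiagonalEquivProd : (Σ n : ℕ, antidiagonal n) ≃ ℕ × ℕ)) :=
    (Equiv.summable_iff _).2 hf
  rw [← (HasAntidiagonal.sigmaAntidiagonalEquivProd : (Σ n : ℕ, antidiagonal n) ≃ ℕ × ℕ).tsum_eq f]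
  have h1 := hs.tsum_sigma
  refine h1.trans (tsum_congr fun n => ?_)
  rw [tsum_fintype]
  exact Finset.sum_coe_sort (antidiagonal n) f

/-- four variables as two pairs -/
def e4 : (ℕ × ℕ) × (ℕ × ℕ) ≃ (Fin 4 → ℕ) where
  toFun x := ![x.1.1, x.1.2, x.2.1, x.2.2]
  invFun v := ((v 0, v 1), (v 2, v 3))
  left_inv x := rfl
  right_inv v := by
    funext i
    fin_cases i <;> rfl

/-- three variables -/
def e3 : (ℕ × ℕ) × ℕ ≃ (Fin 3 → ℕ) where
  toFun x := ![x.1.1, x.2, x.1.2]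
  invFun v := ((v 0, v 2), v 1)
  left_inv x := rfl
  right_inv v := by
    funext i
    fin_cases i <;> rfl

/-- two variables -/
def e2 : ℕ × ℕ ≃ (Fin 2 → ℕ) where
  toFun x := ![x.1, x.2]
  invFun v := (v 0, v 1)
  left_inv x := rfl
  right_inv v := by
    funext i
    fin_cases i <;> rfl

lemma geo {x : ℝ} (h0 : 0 < x) (h1 : x < 1) : HasSum (fun n : ℕ => x ^ n) (1 - x)⁻¹ :=
  hasSum_geometric_of_lt_one h0.le h1

lemma hasSum_if_zero {P : Prop} [Decidable P] (f : ℕ → ℝ) (s : ℝ) (hs : HasSum f s) :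
    HasSum (fun n => if P ∨ n = 0 then f n else 0) (if P then s else f 0) := by
  by_cases hP : P
  · simp only [hP, true_or, if_true]; exact hs
  · simp only [hP, false_or, if_false]
    have := hasSum_ite_eq (0 : ℕ) (f 0)
    refine this.congr_fun fun n => ?_
    by_cases hn : n = 0
    · subst hn; simp
    · simp [hn]

/-- the local sum of the norm -/
theorem lam2_tsum {c : ℝ} (hc : 1 ≤ c) {p : ℕ} (hp : p.Prime) :
    ∑' v, lam2 c p v = (1 - 1 / (p : ℝ)) ^ (2 * c) * ∑' m : ℕ, lc (c + 1) m ^ 2 * (1 / (p : ℝ)) ^ m := by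
  obtain ⟨h0, h1, -⟩ := prime_lt hp
  set x := 1 / (p : ℝ) with hx
  have hS := (lam2_LW hc).2 p hp
  have hcs : 0 < c := by linarith
  have hsq : Summable (fun α : ℕ => rl c x α ^ 2 * x ^ α) := by
    refine ((Sg_sq_summable hcs h0 h1).mul_left (((1 - x) ^ c) ^ 2)).congr fun α => ?_
    unfold rl; ring
  rw [← rl_sq hcs h0 h1]
  have hS2 : Summable (lam2 c p ∘ e2) := (Equiv.summable_iff e2 (f := lam2 c p)).2 hS
  have key : ∑' v, lam2 c p v = ∑' i : ℕ, ∑' j : ℕ, lam2 c p (e2 (i, j)) := by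
    have h1 := Equiv.tsum_eq e2 (lam2 c p)
    have h2 := hS2.tsum_prod
    rw [← h1]
    exact h2
  rw [key]
  have hin : ∀ i : ℕ, ∑' j : ℕ, lam2 c p (e2 (i, j)) =
      rl c x i ^ 2 * x ^ i + (if i = 0 then x / (1 - x) else 0) := by
    intro i
    have h2 := hasSum_if_zero (P := i = 0) (fun n : ℕ => x ^ n) _ (geo h0 h1)
    have h3 := h2.mul_left (rl c x i ^ 2 * x ^ i)
    have h4 : (fun j : ℕ => lam2 c p (e2 (i, j))) = fun n : ℕ => rl c x i ^ 2 * x ^ i *
        (if i = 0 ∨ n = 0 then x ^ n else 0) := by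
      funext n
      unfold lam2 e2
      simp only [Equiv.coe_fn_mk, Matrix.cons_val_zero, Matrix.cons_val_one, Matrix.cons_val_fin_one]
      split_ifs
      · rw [pow_add, ← hx]; ring
      · ring
    rw [h4, h3.tsum_eq]
    by_cases hi : i = 0
    · subst hi
      rw [if_pos rfl, if_pos rfl, rl_zero h0 h1]
      have : (1 - x) ≠ 0 := by linarith
      field_simp
      ring
    · rw [if_neg hi, if_neg hi]; ring
  rw [tsum_congr hin, hsq.tsum_add (hasSum_ite_eq 0 _).summable, tsum_ite_eq]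

/-- the local sum of the correlation -/
theorem lam4_tsum {a : ℝ} (ha : 0 < a) {p : ℕ} (hp : p.Prime) :
    ∑' v, lam4 a p v = (1 - 1 / (p : ℝ)) ^ (a + 2) * ∑' m : ℕ, lc (a + 2) m ^ 2 * (1 / (p : ℝ)) ^ m := by
  obtain ⟨h0, h1, -⟩ := prime_lt hp
  set x := 1 / (p : ℝ) with hx
  have hS := (lam4_LW ha).2 p hp
  have hcs : 0 < a + 1 := by linarith
  have hx1 : 0 < 1 - x := by linarith
  have hsq : Summable (fun α : ℕ => rl (a + 1) x α ^ 2 * x ^ α) := by
    refine ((Sg_sq_summable hcs h0 h1).mul_left (((1 - x) ^ (a + 1)) ^ 2)).congr fun α => ?_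
    unfold rl; ring
  have hS4 : Summable (lam4 a p ∘ e4) := (Equiv.summable_iff e4 (f := lam4 a p)).2 hS
  have key : ∑' v, lam4 a p v = ∑' y : ℕ × ℕ, ∑' z : ℕ × ℕ, lam4 a p (e4 (y, z)) := by
    have h1 := Equiv.tsum_eq e4 (lam4 a p)
    have h2 := hS4.tsum_prod
    rw [← h1]
    exact h2
  rw [key]
  set g : ℕ × ℕ → ℝ := fun y => rl (a + 1) x (y.1 + y.2) * x ^ (y.1 + y.2) *
    ((if y.1 + y.2 = 0 then (1 - x)⁻¹ else 1) * (if y.1 = 0 then Sg a x y.2 else lc a y.2)) with hg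
  have hin : ∀ y : ℕ × ℕ, HasSum (fun z : ℕ × ℕ => lam4 a p (e4 (y, z))) (g y) := by
    intro y
    have hA := hasSum_if_zero (P := y.1 + y.2 = 0) (fun n : ℕ => x ^ n) _ (geo h0 h1)
    have hB := hasSum_if_zero (P := y.1 = 0) (fun n : ℕ => lc a (y.2 + n) * x ^ n) _
      (shift_summable h0 h1 y.2).hasSum
    simp only [pow_zero, mul_one, add_zero] at hA hB
    have hAB := HasSum.mul hA hB (hA.summable.mul_of_nonneg hB.summable (fun n => by
      simp only [Pi.zero_apply]; split_ifs <;> positivity) (fun n => by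
      simp only [Pi.zero_apply]
      split_ifs
      · exact mul_nonneg (lc_nonneg ha.le _) (by positivity)
      · exact le_rfl))
    have h3 := hAB.mul_left (rl (a + 1) x (y.1 + y.2) * x ^ (y.1 + y.2))
    refine h3.congr_fun fun z => ?_
    unfold lam4 e4
    simp only [Equiv.coe_fn_mk, Matrix.cons_val_zero, Matrix.cons_val_one, Matrix.cons_val]
    rw [← hx]
    by_cases c1 : y.1 = 0 ∨ z.2 = 0
    · by_cases c2 : y.1 + y.2 = 0 ∨ z.1 = 0
      · rw [if_pos ⟨c1, c2⟩, if_pos c2, if_pos c1, pow_add, pow_add x (y.1 + y.2) z.1]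
        ring
      · rw [if_neg (fun h => c2 h.2), if_neg c2]; ring
    · rw [if_neg (fun h => c1 h.1), if_neg c1]; ring
  rw [tsum_congr fun y => (hin y).tsum_eq]
  have hgs : Summable g := by
    refine hS4.prod.congr fun y => ?_
    exact (hin y).tsum_eq
  rw [tsum_anti g hgs]
  have hout : ∀ α : ℕ, ∑ y ∈ antidiagonal α, g y =
      (1 - x) ^ (-a) * (rl (a + 1) x α ^ 2 * x ^ α + (if α = 0 then x / (1 - x) else 0)) := by
    intro α
    have e1 : ∑ y ∈ antidiagonal α, g y = rl (a + 1) x α * x ^ α *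
        ((if α = 0 then (1 - x)⁻¹ else 1) *
          ∑ y ∈ antidiagonal α, (if y.1 = 0 then Sg a x y.2 else lc a y.2)) := by
      rw [mul_sum, mul_sum]
      refine sum_congr rfl fun y hy => ?_
      rw [HasAntidiagonal.mem_antidiagonal] at hy
      simp only [hg]
      rw [hy]
    have e2 : ∑ y ∈ antidiagonal α, (if y.1 = 0 then Sg a x y.2 else lc a y.2) =
        ∑ i ∈ range α, lc a i + Sg a x α := by
      rw [Finset.Nat.sum_antidiagonal_eq_sum_range_succ_mk, sum_range_succ']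
      simp only [Nat.succ_ne_zero, if_false, if_true, tsub_zero]
      congr 1
      rw [← Finset.sum_range_reflect]
      refine sum_congr rfl fun i hi => ?_
      rw [mem_range] at hi
      congr 1
      omega
    have e3 : (1 - x) * Sg (a + 1) x α = (1 - x) ^ (-a) * rl (a + 1) x α := by
      unfold rl
      have : (1 - x) ^ (-a) * (1 - x) ^ (a + 1) = 1 - x := by
        rw [← Real.rpow_add hx1]; simp
      calc (1 - x) * Sg (a + 1) x α = ((1 - x) ^ (-a) * (1 - x) ^ (a + 1)) * Sg (a + 1) x α := by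
            rw [this]
        _ = _ := by ring
    rw [e1, e2, cross0 h0 h1, e3]
    by_cases hα : α = 0
    · subst hα
      rw [if_pos rfl, if_pos rfl, rl_zero h0 h1]
      have : (1 - x) ≠ 0 := by linarith
      field_simp
      ring
    · rw [if_neg hα, if_neg hα]; ring
  rw [tsum_congr hout, tsum_mul_left, hsq.tsum_add (hasSum_ite_eq 0 _).summable, tsum_ite_eq,
    rl_sq hcs h0 h1, ← mul_assoc, ← Real.rpow_add hx1]
  have e5 : -a + 2 * (a + 1) = a + 2 := by ring
  have e6 : a + 1 + 1 = a + 2 := by ring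
  rw [e5, e6]

/-- the local sum for the third moment -/
theorem lam3_tsum {a : ℝ} (ha : 0 < a) {p : ℕ} (hp : p.Prime) :
    ∑' v, lam3 a p v = (1 - 1 / (p : ℝ)) * ∑' m : ℕ, lc (a + 1) m ^ 2 * (1 / (p : ℝ)) ^ m := by
  obtain ⟨h0, h1, -⟩ := prime_lt hp
  set x := 1 / (p : ℝ) with hx
  have hS := (lam3_LW ha).2 p hp
  have hx1 : 0 < 1 - x := by linarith
  have hS3 : Summable (lam3 a p ∘ e3) := (Equiv.summable_iff e3 (f := lam3 a p)).2 hS
  have key : ∑' v, lam3 a p v = ∑' y : ℕ × ℕ, ∑' z : ℕ, lam3 a p (e3 (y, z)) := by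
    have h1 := Equiv.tsum_eq e3 (lam3 a p)
    have h2 := hS3.tsum_prod
    rw [← h1]
    exact h2
  rw [key]
  set g : ℕ × ℕ → ℝ := fun y => lc a (y.1 + y.2) * x ^ (y.1 + y.2) *
    (if y.1 = 0 then Sg a x y.2 else lc a y.2) with hg
  have hin : ∀ y : ℕ × ℕ, HasSum (fun z : ℕ => lam3 a p (e3 (y, z))) (g y) := by
    intro y
    have hB := hasSum_if_zero (P := y.1 = 0) (fun n : ℕ => lc a (y.2 + n) * x ^ n) _
      (shift_summable h0 h1 y.2).hasSum
    simp only [pow_zero, mul_one, add_zero] at hB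
    have h3 := hB.mul_left (lc a (y.1 + y.2) * x ^ (y.1 + y.2))
    refine h3.congr_fun fun z => ?_
    unfold lam3 e3
    simp only [Equiv.coe_fn_mk, Matrix.cons_val_zero, Matrix.cons_val_one, Matrix.cons_val]
    rw [← hx]
    by_cases c1 : y.1 = 0 ∨ z = 0
    · rw [if_pos c1, if_pos c1, show y.1 + z + y.2 = y.1 + y.2 + z by ring,
        pow_add x (y.1 + y.2) z, add_comm z y.2]
      ring
    · rw [if_neg c1, if_neg c1]; ring
  rw [tsum_congr fun y => (hin y).tsum_eq]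
  have hgs : Summable g := by
    refine hS3.prod.congr fun y => ?_
    exact (hin y).tsum_eq
  rw [tsum_anti g hgs]
  set F : ℕ × ℕ → ℝ := fun y => lc a y.1 * x ^ y.1 * (lc (a + 1) (y.1 + y.2) * x ^ y.2) with hF
  have hFs : Summable F := by
    have q1 : Summable (fun n : ℕ => lc (a + 1) n ^ 2 * x ^ n) :=
      sq_summable (A := a + 1) (by linarith) h0 h1
    have q2 := q1.mul_of_nonneg q1 (fun n => by simp only [Pi.zero_apply]; positivity)
      (fun n => by simp only [Pi.zero_apply]; positivity)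
    refine Summable.of_nonneg_of_le (fun y => ?_) (fun y => ?_) q2
    · exact mul_nonneg (mul_nonneg (lc_nonneg ha.le _) (by positivity))
        (mul_nonneg (lc_nonneg (by linarith) _) (by positivity))
    · have k1 := lc_mono ha.le (by linarith : a ≤ a + 1) y.1
      have k2 := sub_mul' (by linarith : 1 ≤ a + 1) y.1 y.2
      have k3 := one_le_lc (by linarith : 1 ≤ a + 1) y.1
      have k4 := one_le_lc (by linarith : 1 ≤ a + 1) y.2
      have k5 := lc_nonneg ha.le y.1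
      have k7 := lc_nonneg (by linarith : 0 ≤ a + 1) (y.1 + y.2)
      have k6 : lc (a + 1) (y.1 + y.2) ≤ lc (a + 1) y.1 * lc (a + 1) y.2 ^ 2 := by
        refine k2.trans ?_
        gcongr
        nlinarith
      calc F y ≤ lc (a + 1) y.1 * x ^ y.1 * ((lc (a + 1) y.1 * lc (a + 1) y.2 ^ 2) * x ^ y.2) := by
            simp only [hF]
            gcongr
        _ = _ := by ring
  have hout : ∀ α : ℕ, ∑ y ∈ antidiagonal α, g y = (1 - x) * ∑' m : ℕ, F (α, m) := by
    intro α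
    have e1 : ∑ y ∈ antidiagonal α, g y = lc a α * x ^ α *
        ∑ y ∈ antidiagonal α, (if y.1 = 0 then Sg a x y.2 else lc a y.2) := by
      rw [mul_sum]
      refine sum_congr rfl fun y hy => ?_
      rw [HasAntidiagonal.mem_antidiagonal] at hy
      simp only [hg]
      rw [hy]
    have e2 : ∑ y ∈ antidiagonal α, (if y.1 = 0 then Sg a x y.2 else lc a y.2) =
        ∑ i ∈ range α, lc a i + Sg a x α := by
      rw [Finset.Nat.sum_antidiagonal_eq_sum_range_succ_mk, sum_range_succ']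
      simp only [Nat.succ_ne_zero, if_false, if_true, tsub_zero]
      congr 1
      rw [← Finset.sum_range_reflect]
      refine sum_congr rfl fun i hi => ?_
      rw [mem_range] at hi
      congr 1
      omega
    rw [e1, e2, cross0 h0 h1]
    simp only [hF]
    rw [tsum_mul_left]
    unfold Sg
    ring
  rw [tsum_congr hout, tsum_mul_left, ← hFs.tsum_prod, tsum_anti F hFs]
  congr 1
  refine tsum_congr fun n => ?_
  have e1 : ∑ y ∈ antidiagonal n, F y = ∑ y ∈ antidiagonal n, lc (a + 1) n * x ^ n * lc a y.1 := by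
    refine sum_congr rfl fun y hy => ?_
    rw [HasAntidiagonal.mem_antidiagonal] at hy
    simp only [hF]
    rw [hy, ← hy, pow_add]
    ring
  rw [e1, ← mul_sum, Finset.Nat.sum_antidiagonal_eq_sum_range_succ_mk]
  have h9 : ∑ k ∈ range n.succ, lc a k = lc (a + 1) n := lc_cum a n
  rw [h9]
  ring

/-- the constants -/
lemma prod_aF {κ s : ℝ} {S : ℕ → ℝ}
    (h : ∀ p : ℕ, p.Prime → (1 - 1 / (p : ℝ)) ^ s * S p =
      (1 - 1 / (p : ℝ)) ^ (κ ^ 2) * ∑' m : ℕ, lc κ m ^ 2 * (1 / (p : ℝ)) ^ m) :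
    aF κ = ∏' p : Nat.Primes, ((1 - 1 / (p : ℝ)) ^ s * S p) := by
  unfold aF
  exact (tprod_congr fun p : Nat.Primes => h p p.2).symm

theorem lam2_const {c : ℝ} (hc : 1 ≤ c) : aF (c + 1) = ∏' p : Nat.Primes,
    ((1 - 1 / (p : ℝ)) ^ (∑ i, (![c ^ 2, 1] : Fin 2 → ℝ) i) * ∑' v : Fin 2 → ℕ, lam2 c p v) := by
  refine prod_aF (κ := c + 1) (S := fun p => ∑' v : Fin 2 → ℕ, lam2 c p v) ?_
  intro p hp
  obtain ⟨h0, h1, -⟩ := prime_lt hp
  rw [lam2_tsum hc hp, ← mul_assoc, ← Real.rpow_add (by linarith), Fin.sum_univ_two]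
  simp only [Matrix.cons_val_zero, Matrix.cons_val_one, Matrix.cons_val_fin_one]
  congr 2
  ring

theorem lam4_const {a : ℝ} (ha : 0 < a) : aF (a + 2) = ∏' p : Nat.Primes,
    ((1 - 1 / (p : ℝ)) ^ (∑ i, m4 a i) * ∑' v : Fin 4 → ℕ, lam4 a p v) := by
  refine prod_aF (κ := a + 2) (S := fun p => ∑' v : Fin 4 → ℕ, lam4 a p v) ?_
  intro p hp
  obtain ⟨h0, h1, -⟩ := prime_lt hp
  have e5 : ∑ i, m4 a i = a + 1 + (a + 1) * a + 1 + a := by
    rw [Fin.sum_univ_four]; rfl
  rw [lam4_tsum ha hp, ← mul_assoc, ← Real.rpow_add (by linarith), e5]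
  congr 2
  ring

theorem lam3_const {a : ℝ} (ha : 0 < a) : aF (a + 1) = ∏' p : Nat.Primes,
    ((1 - 1 / (p : ℝ)) ^ (∑ i, m3 a i) * ∑' v : Fin 3 → ℕ, lam3 a p v) := by
  refine prod_aF (κ := a + 1) (S := fun p => ∑' v : Fin 3 → ℕ, lam3 a p v) ?_
  intro p hp
  obtain ⟨h0, h1, -⟩ := prime_lt hp
  have e5 : ∑ i, m3 a i = a + a + a ^ 2 := by
    rw [Fin.sum_univ_three]; rfl
  have e6 : (1 - 1 / (p : ℝ)) ^ (∑ i, m3 a i) * (1 - 1 / (p : ℝ)) = (1 - 1 / (p : ℝ)) ^ ((a + 1) ^ 2) := by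
    rw [e5, show (a + 1) ^ 2 = a + a + a ^ 2 + 1 by ring, Real.rpow_add (by linarith) (a + a + a ^ 2) 1,
      Real.rpow_one]
  rw [lam3_tsum ha hp, ← mul_assoc, e6]

end

end Pool.Agent.Y756.T
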