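import Pool.Agent.Y756.T.Loc
import Pool.Agent.TH535.Wt

set_option autoImplicit false

/-! Multiplicative weights: definitions and the conditions on the local weights. -/

namespace Pool.Agent.Y756.T

open Finset Filter Topology Pool.Agent.H306R2 Pool.Agent.TH535.MA
open Pool.Agent.TH535 (pi_summable g_summable prime_x)

noncomputable section

lemma one_le_lc {A : ℝ} (hA : 1 ≤ A) (m : ℕ) : 1 ≤ lc A m := by
  have := lc_mono (by norm_num : (0:ℝ) ≤ 1) hA m
  rwa [lc_one_left] at this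

/-- the conditions from a crude majorant -/
theorem LW_of {ι : Type} [Fintype ι] [DecidableEq ι] (m : ι → ℝ) (lam : ℕ → (ι → ℕ) → ℝ)
    (hm : ∀ i, 0 ≤ m i) (hn : ∀ p : ℕ, p.Prime → ∀ v, 0 ≤ lam p v)
    (hz : ∀ p : ℕ, p.Prime → lam p 0 = 1)
    (hf : ∃ C : ℝ, ∀ p : ℕ, p.Prime → ∀ i, |lam p (Pi.single i 1) - (m i : ℝ) / p| ≤ C / (p : ℝ) ^ 2)
    {A K : ℝ} (hA : 1 ≤ A) (hK : 0 ≤ K)
    (maj : ∀ p : ℕ, p.Prime → ∀ v, lam p v ≤ K * ∏ i, (lc A (v i) ^ 2 * (1 / (p : ℝ)) ^ (v i))) :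
    LW m lam ∧ ∀ p : ℕ, p.Prime → Summable (lam p) := by
  have hsum : ∀ p : ℕ, p.Prime → Summable (lam p) := by
    intro p hp
    obtain ⟨h0, h1⟩ := prime_x hp
    refine Summable.of_nonneg_of_le (hn p hp) (fun v => maj p hp v) (Summable.mul_left K ?_)
    exact pi_summable (fun n : ℕ => lc A n ^ 2 * (1 / (p : ℝ)) ^ n) (fun n => by positivity)
      (g_summable hA h0 (by linarith))
  have hmaj : ∀ {p : ℕ}, p.Prime → ∀ v : ι → ℕ, (if 2 ≤ ∑ i, v i then lam p v else 0) ≤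
      4 / (p : ℝ) ^ 2 * (K * ∏ i, (lc A (v i) ^ 2 * (1 / 2 : ℝ) ^ (v i))) := by
    intro p hp v
    obtain ⟨h0, h1⟩ := prime_x hp
    have hpos : (0 : ℝ) < p := by exact_mod_cast hp.pos
    split_ifs with h
    · refine (maj p hp v).trans ?_
      rw [prod_mul_distrib, prod_mul_distrib, prod_pow_eq_pow_sum, prod_pow_eq_pow_sum]
      obtain ⟨k, hk⟩ := Nat.exists_eq_add_of_le h
      rw [hk, pow_add, pow_add]
      have h3 : (1 / (p : ℝ)) ^ k ≤ (1 / 2 : ℝ) ^ k := pow_le_pow_left₀ h0.le h1 k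
      have h4 : (0 : ℝ) ≤ ∏ i, lc A (v i) ^ 2 := prod_nonneg fun i _ => by positivity
      calc K * ((∏ i, lc A (v i) ^ 2) * ((1 / (p : ℝ)) ^ 2 * (1 / (p : ℝ)) ^ k))
          ≤ K * ((∏ i, lc A (v i) ^ 2) * ((1 / (p : ℝ)) ^ 2 * (1 / 2 : ℝ) ^ k)) := by gcongr
        _ = 4 / (p : ℝ) ^ 2 * (K * ((∏ i, lc A (v i) ^ 2) * ((1 / 2 : ℝ) ^ 2 * (1 / 2 : ℝ) ^ k))) := by
          field_simp
          ring
    · have h4 : (0 : ℝ) ≤ ∏ i, (lc A (v i) ^ 2 * (1 / 2 : ℝ) ^ (v i)) :=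
        prod_nonneg fun i _ => by positivity
      positivity
  refine ⟨?_, hsum⟩
  exact
  { mnn := hm
    nonneg := hn
    zero := hz
    sum := hsum
    first := hf
    second := ⟨4 * (K * ∑' v : ι → ℕ, ∏ i, (lc A (v i) ^ 2 * (1 / 2 : ℝ) ^ (v i))), fun p hp => by
      have hs : Summable (fun v : ι → ℕ => ∏ i, (lc A (v i) ^ 2 * (1 / 2 : ℝ) ^ (v i))) :=
        pi_summable (fun n : ℕ => lc A n ^ 2 * (1 / 2 : ℝ) ^ n) (fun n => by positivity)
          (g_summable hA (by norm_num) (by norm_num))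
      have hs' := (hs.mul_left K).mul_left (4 / (p : ℝ) ^ 2)
      have hl : Summable (fun v : ι → ℕ => if 2 ≤ ∑ i, v i then lam p v else 0) := by
        refine Summable.of_nonneg_of_le (fun v => ?_) (fun v => hmaj hp v) hs'
        split_ifs
        · exact hn p hp v
        · exact le_rfl
      refine (hl.tsum_le_tsum (fun v => hmaj hp v) hs').trans ?_
      rw [tsum_mul_left, tsum_mul_left]
      apply le_of_eq; ring⟩ }

/-! bounds for `rl` -/

lemma x_rl_one {c x : ℝ} (h0 : 0 < x) (h1 : x < 1) : x * rl c x 1 = 1 - (1 - x) ^ c := by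
  have h := Sg_step (c := c) h0 h1 0
  rw [Sg_zero h0 h1, lc_zero, zero_add] at h
  unfold rl
  have h2 : (1 - x) ^ (-c) * (1 - x) ^ c = 1 := by
    rw [← Real.rpow_add (by linarith)]; simp
  calc x * (Sg c x 1 * (1 - x) ^ c) = ((1 - x) ^ (-c) - 1) * (1 - x) ^ c := by rw [h]; ring
    _ = _ := by rw [sub_mul, h2, one_mul]

lemma rl_one_le {c x : ℝ} (hc : 1 ≤ c) (h0 : 0 < x) (h1 : x < 1) : rl c x 1 ≤ c := by
  have h := x_rl_one (c := c) h0 h1
  have h2 := one_add_mul_self_le_rpow_one_add (s := -x) (by linarith) hc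
  rw [← sub_eq_add_neg] at h2
  have h3 : x * rl c x 1 ≤ x * c := by rw [h]; linarith
  exact le_of_mul_le_mul_left h3 h0

lemma rl_one_ge {c x : ℝ} (hc : 1 ≤ c) (h0 : 0 < x) (h1 : x < 1) : c - c ^ 2 * x ≤ rl c x 1 := by
  have h2 := one_add_mul_self_le_rpow_one_add (s := -x) (by linarith) hc
  rw [← sub_eq_add_neg] at h2
  have h3 : c ≤ Sg c x 1 := by
    unfold Sg
    have := (shift_summable (c := c) h0 h1 1).le_tsum 0 fun m _ =>
      mul_nonneg (lc_nonneg (by linarith) _) (by positivity)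
    simpa [lc_one] using this
  have h4 : 0 ≤ (1 - x) ^ c := Real.rpow_nonneg (by linarith) _
  unfold rl
  calc c - c ^ 2 * x = c * (1 + c * -x) := by ring
    _ ≤ c * (1 - x) ^ c := mul_le_mul_of_nonneg_left h2 (by linarith)
    _ ≤ Sg c x 1 * (1 - x) ^ c := mul_le_mul_of_nonneg_right h3 h4

lemma rl_le {c A x : ℝ} (hc : 0 ≤ c) (hcA : c ≤ A) (hA : 1 ≤ A) (h0 : 0 < x) (h1 : x ≤ 1 / 2)
    (α : ℕ) : rl c x α ≤ 2 ^ A * lc A α := by
  have h2 := Sg_le hc hcA hA h0 (by linarith) α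
  have h3 : (1 - x) ^ c ≤ 1 := Real.rpow_le_one (by linarith) (by linarith) hc
  have h4 : 0 ≤ (1 - x) ^ c := Real.rpow_nonneg (by linarith) _
  have h5 : (1 - x) ^ (-A) ≤ 2 ^ A := by
    rw [Real.rpow_neg (by linarith), ← Real.inv_rpow (by linarith)]
    refine Real.rpow_le_rpow (by
      have : 0 < 1 - x := by linarith
      positivity) ?_ (by linarith)
    rw [inv_le_comm₀ (by linarith) (by norm_num)]
    linarith
  have h6 := lc_nonneg (α := A) (by linarith) α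
  have h7 : 0 ≤ lc A α * (1 - x) ^ (-A) := mul_nonneg h6 (Real.rpow_nonneg (by linarith) _)
  unfold rl
  calc Sg c x α * (1 - x) ^ c ≤ (lc A α * (1 - x) ^ (-A)) * 1 :=
        mul_le_mul h2 h3 h4 h7
    _ ≤ lc A α * 2 ^ A := by rw [mul_one]; exact mul_le_mul_of_nonneg_left h5 h6
    _ = _ := mul_comm _ _

/-! the weight of the norm -/

open Classical in
/-- local weights of the norm; the variables are `h, l` -/
def lam2 (c : ℝ) (p : ℕ) (v : Fin 2 → ℕ) : ℝ :=
  if v 0 = 0 ∨ v 1 = 0 then rl c (1 / (p : ℝ)) (v 0) ^ 2 * (1 / (p : ℝ)) ^ (v 0 + v 1) else 0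

lemma prime_lt {p : ℕ} (hp : p.Prime) : (0 : ℝ) < 1 / (p : ℝ) ∧ 1 / (p : ℝ) < 1 ∧ 1 / (p : ℝ) ≤ 1 / 2 := by
  obtain ⟨h0, h1⟩ := prime_x hp
  exact ⟨h0, by linarith, h1⟩

theorem lam2_LW {c : ℝ} (hc : 1 ≤ c) : LW ![c ^ 2, 1] (lam2 c) ∧
    ∀ p : ℕ, p.Prime → Summable (lam2 c p) := by
  have hc0 : 0 ≤ c := by linarith
  refine LW_of (A := c) (K := (2 ^ c) ^ 2) _ _ ?_ ?_ ?_ ?_ hc (by positivity) ?_
  · intro i; fin_cases i
    · simp; positivity
    · simp
  · intro p hp v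
    unfold lam2
    split_ifs
    · positivity
    · exact le_rfl
  · intro p hp
    obtain ⟨h0, h1, -⟩ := prime_lt hp
    unfold lam2
    have hr0 : rl c (p : ℝ)⁻¹ 0 = 1 := by rw [← one_div]; exact rl_zero h0 h1
    rw [if_pos (Or.inl (by simp))]
    simp [hr0]
  · refine ⟨2 * c ^ 3, fun p hp i => ?_⟩
    obtain ⟨h0, h1, -⟩ := prime_lt hp
    have hp0 : (0 : ℝ) < p := by exact_mod_cast hp.pos
    have g1 := rl_one_le hc h0 h1
    have g2 := rl_one_ge hc h0 h1
    have g3 := rl_nonneg (c := c) hc0 h0.le h1 1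
    have e2 : 2 * c ^ 3 / (p : ℝ) ^ 2 = 2 * c ^ 3 * (1 / (p : ℝ)) ^ 2 := by
      rw [one_div, inv_pow]; ring
    rw [e2]
    have e3 : ∀ y : ℝ, y / (p : ℝ) = y * (1 / (p : ℝ)) := fun y => by rw [mul_one_div]
    fin_cases i
    · have e1 : lam2 c p (Pi.single 0 1) = rl c (1 / (p : ℝ)) 1 ^ 2 * (1 / (p : ℝ)) := by
        unfold lam2
        rw [if_pos (Or.inr (by simp))]
        simp
      show |lam2 c p (Pi.single 0 1) - (![c ^ 2, 1] : Fin 2 → ℝ) 0 / p| ≤ _
      rw [e1]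
      simp only [Matrix.cons_val_zero]
      rw [e3 (c ^ 2)]
      set x := 1 / (p : ℝ)
      set r := rl c x 1
      have h5 : r ^ 2 ≤ c ^ 2 := pow_le_pow_left₀ g3 g1 2
      have h6 : c ^ 2 - r ^ 2 ≤ 2 * c ^ 3 * x := by
        have : c ^ 2 - r ^ 2 = (c - r) * (c + r) := by ring
        rw [this]
        calc (c - r) * (c + r) ≤ (c ^ 2 * x) * (2 * c) := by
              apply mul_le_mul (by linarith) (by linarith) (by linarith) (by positivity)
          _ = _ := by ring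
      rw [abs_le]
      constructor <;> nlinarith
    · have e1 : lam2 c p (Pi.single 1 1) = 1 / (p : ℝ) := by
        unfold lam2
        have hr0 : rl c (p : ℝ)⁻¹ 0 = 1 := by rw [← one_div]; exact rl_zero h0 h1
        rw [if_pos (Or.inl (by simp))]
        simp [hr0]
      show |lam2 c p (Pi.single 1 1) - (![c ^ 2, 1] : Fin 2 → ℝ) 1 / p| ≤ _
      rw [e1]
      simp only [Matrix.cons_val_one, Matrix.cons_val_fin_one, sub_self, abs_zero]
      positivity
  · intro p hp v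
    obtain ⟨h0, h1, h2⟩ := prime_lt hp
    have k1 := one_le_lc hc (v 1)
    have k2 := rl_le hc0 le_rfl hc h0 h2 (v 0)
    have k3 := rl_nonneg (c := c) hc0 h0.le h1 (v 0)
    have k4 := lc_nonneg (α := c) hc0 (v 0)
    rw [Fin.prod_univ_two]
    unfold lam2
    split_ifs
    · calc rl c (1 / (p : ℝ)) (v 0) ^ 2 * (1 / (p : ℝ)) ^ (v 0 + v 1)
          ≤ (2 ^ c * lc c (v 0)) ^ 2 * 1 * (1 / (p : ℝ)) ^ (v 0 + v 1) := by
            rw [mul_one]; gcongr
        _ ≤ (2 ^ c * lc c (v 0)) ^ 2 * lc c (v 1) ^ 2 * (1 / (p : ℝ)) ^ (v 0 + v 1) := by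
            gcongr
            nlinarith
        _ = _ := by rw [pow_add]; ring
    · positivity

/-! the weight of the correlation -/

open Classical in
/-- local weights of the correlation; the variables are `h₁, g, l, n₁` -/
def lam4 (a : ℝ) (p : ℕ) (v : Fin 4 → ℕ) : ℝ :=
  if (v 0 = 0 ∨ v 3 = 0) ∧ (v 0 + v 1 = 0 ∨ v 2 = 0) then
    rl (a + 1) (1 / (p : ℝ)) (v 0 + v 1) * lc a (v 1 + v 3) *
      (1 / (p : ℝ)) ^ (v 0 + v 1 + v 2 + v 3) else 0

/-- the exponents -/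
def m4 (a : ℝ) : Fin 4 → ℝ := ![a + 1, (a + 1) * a, 1, a]

theorem lam4_LW {a : ℝ} (ha : 0 < a) : LW (m4 a) (lam4 a) ∧
    ∀ p : ℕ, p.Prime → Summable (lam4 a p) := by
  have hc : 1 ≤ a + 1 := by linarith
  have hc0 : 0 ≤ a + 1 := by linarith
  refine LW_of (A := a + 1) (K := 2 ^ (a + 1)) _ _ ?_ ?_ ?_ ?_ hc (by positivity) ?_
  · intro i; fin_cases i
    · show 0 ≤ a + 1; linarith
    · show 0 ≤ (a + 1) * a; positivity
    · show (0:ℝ) ≤ 1; norm_num
    · show 0 ≤ a; linarith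
  · intro p hp v
    obtain ⟨h0, h1, -⟩ := prime_lt hp
    unfold lam4
    split_ifs
    · exact mul_nonneg (mul_nonneg (rl_nonneg hc0 h0.le h1 _) (lc_nonneg ha.le _)) (by positivity)
    · exact le_rfl
  · intro p hp
    obtain ⟨h0, h1, -⟩ := prime_lt hp
    unfold lam4
    have hr0 : rl (a + 1) (p : ℝ)⁻¹ 0 = 1 := by rw [← one_div]; exact rl_zero h0 h1
    rw [if_pos ⟨Or.inl (by simp), Or.inl (by simp)⟩]
    simp [hr0, lc_zero]
  · refine ⟨(a + 1) ^ 2 * (1 + a), fun p hp i => ?_⟩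
    obtain ⟨h0, h1, -⟩ := prime_lt hp
    have hp0 : (0 : ℝ) < p := by exact_mod_cast hp.pos
    have g1 := rl_one_le hc h0 h1
    have g2 := rl_one_ge hc h0 h1
    have g3 := rl_nonneg (c := a + 1) hc0 h0.le h1 1
    have e2 : (a + 1) ^ 2 * (1 + a) / (p : ℝ) ^ 2 = (a + 1) ^ 2 * (1 + a) * (1 / (p : ℝ)) ^ 2 := by
      rw [one_div, inv_pow]; ring
    rw [e2]
    have e3 : ∀ y : ℝ, y / (p : ℝ) = y * (1 / (p : ℝ)) := fun y => by rw [mul_one_div]
    fin_cases i
    · have e1 : lam4 a p (Pi.single 0 1) = rl (a + 1) (1 / (p : ℝ)) 1 * (1 / (p : ℝ)) := by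
        unfold lam4
        rw [if_pos ⟨Or.inr (by simp), Or.inr (by simp)⟩]
        simp [lc_zero]
      show |lam4 a p (Pi.single 0 1) - (a + 1) / p| ≤ _
      rw [e1, e3 (a + 1)]
      set x := 1 / (p : ℝ)
      set r := rl (a + 1) x 1
      rw [abs_le]
      have h6 : (a + 1 - r) * x ≤ ((a + 1) ^ 2 * x) * x :=
        mul_le_mul_of_nonneg_right (by linarith) h0.le
      have h7 : 0 ≤ (a + 1) ^ 2 * a * x ^ 2 := by positivity
      constructor <;> nlinarith
    · have e1 : lam4 a p (Pi.single 1 1) = rl (a + 1) (1 / (p : ℝ)) 1 * a * (1 / (p : ℝ)) := by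
        unfold lam4
        rw [if_pos ⟨Or.inl (by simp), Or.inr (by simp)⟩]
        simp [lc_one]
      show |lam4 a p (Pi.single 1 1) - ((a + 1) * a) / p| ≤ _
      rw [e1, e3 ((a + 1) * a)]
      set x := 1 / (p : ℝ)
      set r := rl (a + 1) x 1
      rw [abs_le]
      have h6 : (a + 1 - r) * (a * x) ≤ ((a + 1) ^ 2 * x) * (a * x) :=
        mul_le_mul_of_nonneg_right (by linarith) (by positivity)
      have h7 : 0 ≤ (a + 1) ^ 2 * x ^ 2 := by positivity
      have h8 : 0 ≤ (a + 1 - r) * (a * x) := mul_nonneg (by linarith) (by positivity)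
      constructor <;> nlinarith
    · have e1 : lam4 a p (Pi.single 2 1) = 1 / (p : ℝ) := by
        unfold lam4
        have hr0 : rl (a + 1) (p : ℝ)⁻¹ 0 = 1 := by rw [← one_div]; exact rl_zero h0 h1
        rw [if_pos ⟨Or.inl (by simp), Or.inl (by simp)⟩]
        simp [hr0, lc_zero]
      show |lam4 a p (Pi.single 2 1) - 1 / p| ≤ _
      rw [e1]
      simp only [sub_self, abs_zero]
      positivity
    · have e1 : lam4 a p (Pi.single 3 1) = a * (1 / (p : ℝ)) := by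
        unfold lam4
        have hr0 : rl (a + 1) (p : ℝ)⁻¹ 0 = 1 := by rw [← one_div]; exact rl_zero h0 h1
        rw [if_pos ⟨Or.inl (by simp), Or.inl (by simp)⟩]
        simp [hr0, lc_one]
      show |lam4 a p (Pi.single 3 1) - a / p| ≤ _
      rw [e1, e3 a, sub_self, abs_zero]
      positivity
  · intro p hp v
    obtain ⟨h0, h1, h2⟩ := prime_lt hp
    have hn := fun m => one_le_lc hc m
    have k2 := rl_le hc0 le_rfl hc h0 h2 (v 0 + v 1)
    have k3 := rl_nonneg (c := a + 1) hc0 h0.le h1 (v 0 + v 1)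
    have k5 : lc a (v 1 + v 3) ≤ lc (a + 1) (v 1) * lc (a + 1) (v 3) :=
      (lc_mono ha.le (by linarith) _).trans (sub_mul' hc _ _)
    have k6 := sub_mul' hc (v 0) (v 1)
    have k7 := lc_nonneg ha.le (v 1 + v 3)
    have z0 := hn (v 0)
    have z1 := hn (v 1)
    have z2 := hn (v 2)
    have z3 := hn (v 3)
    rw [Fin.prod_univ_four]
    unfold lam4
    split_ifs
    · calc rl (a + 1) (1 / (p : ℝ)) (v 0 + v 1) * lc a (v 1 + v 3) *
            (1 / (p : ℝ)) ^ (v 0 + v 1 + v 2 + v 3)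
          ≤ (2 ^ (a + 1) * (lc (a + 1) (v 0) * lc (a + 1) (v 1))) *
            (lc (a + 1) (v 1) * lc (a + 1) (v 3)) *
            (1 / (p : ℝ)) ^ (v 0 + v 1 + v 2 + v 3) := by
            gcongr
            exact k2.trans (by gcongr)
        _ = 2 ^ (a + 1) * (lc (a + 1) (v 0) * (lc (a + 1) (v 1)) ^ 2 * 1 * lc (a + 1) (v 3)) *
            (1 / (p : ℝ)) ^ (v 0 + v 1 + v 2 + v 3) := by ring
        _ ≤ 2 ^ (a + 1) * (lc (a + 1) (v 0) ^ 2 * (lc (a + 1) (v 1)) ^ 2 * lc (a + 1) (v 2) ^ 2 *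
            lc (a + 1) (v 3) ^ 2) * (1 / (p : ℝ)) ^ (v 0 + v 1 + v 2 + v 3) := by
            gcongr
            · nlinarith
            · nlinarith
            · nlinarith
        _ = _ := by rw [pow_add, pow_add, pow_add]; ring
    · positivity

/-! the weight for the third moment -/

open Classical in
/-- local weights; the variables are `h, l, g` -/
def lam3 (a : ℝ) (p : ℕ) (v : Fin 3 → ℕ) : ℝ :=
  if v 0 = 0 ∨ v 1 = 0 then lc a (v 0 + v 2) * lc a (v 1 + v 2) *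
    (1 / (p : ℝ)) ^ (v 0 + v 1 + v 2) else 0

/-- the exponents -/
def m3 (a : ℝ) : Fin 3 → ℝ := ![a, a, a ^ 2]

theorem lam3_LW {a : ℝ} (ha : 0 < a) : LW (m3 a) (lam3 a) ∧
    ∀ p : ℕ, p.Prime → Summable (lam3 a p) := by
  have hc : 1 ≤ a + 1 := by linarith
  refine LW_of (A := a + 1) (K := 1) _ _ ?_ ?_ ?_ ?_ hc (by positivity) ?_
  · intro i; fin_cases i
    · show 0 ≤ a; linarith
    · show 0 ≤ a; linarith
    · show 0 ≤ a ^ 2; positivity
  · intro p hp v
    unfold lam3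
    split_ifs
    · exact mul_nonneg (mul_nonneg (lc_nonneg ha.le _) (lc_nonneg ha.le _)) (by positivity)
    · exact le_rfl
  · intro p hp
    unfold lam3
    rw [if_pos (Or.inl (by simp))]
    simp [lc_zero]
  · refine ⟨0, fun p hp i => ?_⟩
    rw [zero_div]
    refine le_of_eq ?_
    rw [abs_eq_zero, sub_eq_zero]
    fin_cases i
    · show lam3 a p (Pi.single 0 1) = a / p
      unfold lam3
      rw [if_pos (Or.inr (by simp))]
      simp [lc_zero, lc_one, div_eq_mul_inv]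
    · show lam3 a p (Pi.single 1 1) = a / p
      unfold lam3
      rw [if_pos (Or.inl (by simp))]
      simp [lc_zero, lc_one, div_eq_mul_inv]
    · show lam3 a p (Pi.single 2 1) = a ^ 2 / p
      unfold lam3
      rw [if_pos (Or.inl (by simp))]
      simp [lc_one, div_eq_mul_inv, pow_two]
  · intro p hp v
    obtain ⟨h0, h1, h2⟩ := prime_lt hp
    have hn := fun m => one_le_lc hc m
    have k5 : lc a (v 0 + v 2) ≤ lc (a + 1) (v 0) * lc (a + 1) (v 2) :=
      (lc_mono ha.le (by linarith) _).trans (sub_mul' hc _ _)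
    have k6 : lc a (v 1 + v 2) ≤ lc (a + 1) (v 1) * lc (a + 1) (v 2) :=
      (lc_mono ha.le (by linarith) _).trans (sub_mul' hc _ _)
    have k7 := lc_nonneg ha.le (v 1 + v 2)
    have z0 := hn (v 0)
    have z1 := hn (v 1)
    have z2 := hn (v 2)
    rw [Fin.prod_univ_three, one_mul]
    unfold lam3
    split_ifs
    · calc lc a (v 0 + v 2) * lc a (v 1 + v 2) * (1 / (p : ℝ)) ^ (v 0 + v 1 + v 2)
          ≤ (lc (a + 1) (v 0) * lc (a + 1) (v 2)) * (lc (a + 1) (v 1) * lc (a + 1) (v 2)) *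
            (1 / (p : ℝ)) ^ (v 0 + v 1 + v 2) := by gcongr
        _ = lc (a + 1) (v 0) * lc (a + 1) (v 1) * lc (a + 1) (v 2) ^ 2 *
            (1 / (p : ℝ)) ^ (v 0 + v 1 + v 2) := by ring
        _ ≤ lc (a + 1) (v 0) ^ 2 * lc (a + 1) (v 1) ^ 2 * lc (a + 1) (v 2) ^ 2 *
            (1 / (p : ℝ)) ^ (v 0 + v 1 + v 2) := by
            gcongr
            · nlinarith
            · nlinarith
        _ = _ := by rw [pow_add, pow_add]; ring
    · positivity

end

end Pool.Agent.Y756.T
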